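import Mathlib
import Pool.Agent.H628R4.TP.LocDefs

set_option autoImplicit false

/-! Real integrals of powers of a polynomial and differential operators. -/

namespace Pool.Agent.T6.H16.RA

open MvPolynomial MeasureTheory Set Filter Topology
open scoped ContDiff

variable {n : ℕ}

/-- the value of a complex polynomial at a real point -/
noncomputable def ev (x : Fin n → ℝ) : MvPolynomial (Fin n) ℂ →ₐ[ℂ] ℂ :=
  aeval (fun i => (x i : ℂ))

lemma ev_X (x : Fin n → ℝ) (i : Fin n) : ev x (X i) = (x i : ℂ) := aeval_X _ _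

lemma ev_C (x : Fin n → ℝ) (c : ℂ) : ev x (C c) = c := by
  unfold ev
  rw [aeval_C]
  rfl

/-- the real value -/
noncomputable def rv (f : MvPolynomial (Fin n) ℝ) (x : Fin n → ℝ) : ℝ := eval x f

/-- the complexification -/
noncomputable def cx (f : MvPolynomial (Fin n) ℝ) : MvPolynomial (Fin n) ℂ :=
  MvPolynomial.map (algebraMap ℝ ℂ) f

lemma ev_cx (f : MvPolynomial (Fin n) ℝ) (x : Fin n → ℝ) : ev x (cx f) = (rv f x : ℂ) := by
  unfold ev cx rv
  rw [aeval_def, eval₂_map]
  induction f using MvPolynomial.induction_on with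
  | C a => simp
  | add p q hp hq => rw [eval₂_add, hp, hq, map_add]; push_cast; rfl
  | mul_X p i hp => rw [eval₂_mul, eval₂_X, hp, map_mul, eval_X]; push_cast; rfl

lemma pderiv_cx (f : MvPolynomial (Fin n) ℝ) (i : Fin n) :
    pderiv i (cx f) = cx (pderiv i f) := by
  unfold cx
  rw [pderiv_map]

lemma ev_smooth (p : MvPolynomial (Fin n) ℂ) : ContDiff ℝ ∞ (fun x : Fin n → ℝ => ev x p) := by
  induction p using MvPolynomial.induction_on with
  | C a => simp only [ev_C]; exact contDiff_const
  | add p q hp hq => simp only [map_add]; exact hp.add hq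
  | mul_X p i hp =>
    simp only [map_mul, ev_X]
    refine hp.mul ?_
    exact Complex.ofRealCLM.contDiff.comp (contDiff_apply ℝ ℝ i)

lemma rv_cont (f : MvPolynomial (Fin n) ℝ) : Continuous (rv f) := by
  unfold rv
  exact MvPolynomial.continuous_eval f

lemma ev_line (p : MvPolynomial (Fin n) ℂ) (x : Fin n → ℝ) (i : Fin n) :
    HasLineDerivAt ℝ (fun x => ev x p) (ev x (pderiv i p)) x (Pi.single i 1) := by
  unfold HasLineDerivAt
  induction p using MvPolynomial.induction_on with
  | C a =>
    simp only [ev_C, pderiv_C, map_zero]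
    exact hasDerivAt_const _ _
  | add p q hp hq =>
    simp only [map_add]
    exact hp.add hq
  | mul_X p j hp =>
    have h1 : HasDerivAt (fun t : ℝ => (((x + t • (Pi.single i (1 : ℝ) : Fin n → ℝ)) j : ℝ) : ℂ))
        (ev x (pderiv i (X j))) 0 := by
      have h2 : HasDerivAt (fun t : ℝ => (x + t • (Pi.single i (1 : ℝ) : Fin n → ℝ)) j)
          (if j = i then 1 else 0) 0 := by
        simp only [Pi.add_apply, Pi.smul_apply, smul_eq_mul]
        have h3 := ((hasDerivAt_id (0 : ℝ)).mul_const
          ((Pi.single i (1 : ℝ) : Fin n → ℝ) j)).const_add (x j)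
        simp only [id, one_mul] at h3
        refine h3.congr_deriv ?_
        by_cases hji : j = i
        · rw [if_pos hji, hji, Pi.single_eq_same]
        · rw [if_neg hji, Pi.single_eq_of_ne hji]
      have h4 := h2.ofReal_comp
      refine h4.congr_deriv ?_
      by_cases hji : j = i
      · rw [hji, pderiv_X_self, map_one, if_pos rfl]
        simp
      · rw [pderiv_X_of_ne hji, map_zero, if_neg hji]
        simp
    have h5 := hp.fun_mul h1
    simp only [zero_smul, add_zero] at h5
    simp only [map_mul, ev_X, pderiv_mul, map_add]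
    exact h5

/-- the data: `f > 0` on the open set `U` and `f = 0` on its boundary -/
structure Reg (f : MvPolynomial (Fin n) ℝ) (U : Set (Fin n → ℝ)) : Prop where
  op : IsOpen U
  pos : ∀ x ∈ U, 0 < rv f x
  bd : ∀ x ∈ closure U, x ∉ U → rv f x = 0

/-- `f ^ s` on `U`, and `0` outside of `U` -/
noncomputable def Fs (f : MvPolynomial (Fin n) ℝ) (U : Set (Fin n → ℝ)) (s : ℝ) (x : Fin n → ℝ) :
    ℝ := U.indicator (fun x => rv f x ^ s) x

variable {f : MvPolynomial (Fin n) ℝ} {U : Set (Fin n → ℝ)}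

lemma Fs_in {s : ℝ} {x : Fin n → ℝ} (hx : x ∈ U) : Fs f U s x = rv f x ^ s :=
  indicator_of_mem hx _

lemma Fs_out {s : ℝ} {x : Fin n → ℝ} (hx : x ∉ U) : Fs f U s x = 0 := indicator_of_notMem hx _

lemma Fs_nonneg (h : Reg f U) (s : ℝ) (x : Fin n → ℝ) : 0 ≤ Fs f U s x := by
  by_cases hx : x ∈ U
  · rw [Fs_in hx]
    exact Real.rpow_nonneg (h.pos x hx).le _
  · rw [Fs_out hx]

lemma Fs_le (s : ℝ) (x : Fin n → ℝ) (h : Reg f U) : Fs f U s x ≤ |rv f x| ^ s := by
  by_cases hx : x ∈ U
  · rw [Fs_in hx, abs_of_pos (h.pos x hx)]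
  · rw [Fs_out hx]
    exact Real.rpow_nonneg (abs_nonneg _) _

lemma Fs_mul (h : Reg f U) (s : ℝ) (k : ℕ) (x : Fin n → ℝ) :
    Fs f U (s - k) x * rv f x ^ k = Fs f U s x := by
  by_cases hx : x ∈ U
  · rw [Fs_in hx, Fs_in hx, ← Real.rpow_natCast, ← Real.rpow_add (h.pos x hx), sub_add_cancel]
  · rw [Fs_out hx, Fs_out hx, zero_mul]

lemma Fs_cont (h : Reg f U) {s : ℝ} (hs : 0 < s) : Continuous (Fs f U s) := by
  rw [continuous_iff_continuousAt]
  intro x
  by_cases hx : x ∈ U
  · have h1 : Fs f U s =ᶠ[𝓝 x] fun y => rv f y ^ s := by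
      filter_upwards [h.op.mem_nhds hx] with y hy
      exact Fs_in hy
    rw [continuousAt_congr h1]
    exact (rv_cont f).continuousAt.rpow_const (Or.inl (h.pos x hx).ne')
  · by_cases h0 : rv f x = 0
    · have h1 : Tendsto (fun y => |rv f y| ^ s) (𝓝 x) (𝓝 0) := by
        have h2 : ContinuousAt (fun y => |rv f y| ^ s) x :=
          ((rv_cont f).abs.continuousAt).rpow_const (Or.inr hs.le)
        have h3 := h2.tendsto
        rwa [h0, abs_zero, Real.zero_rpow hs.ne'] at h3
      unfold ContinuousAt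
      rw [Fs_out hx]
      exact squeeze_zero (fun y => Fs_nonneg h s y) (fun y => Fs_le s y h) h1
    · have h1 : x ∉ closure U := fun hc => h0 (h.bd x hc hx)
      have h2 : Fs f U s =ᶠ[𝓝 x] fun _ => 0 := by
        filter_upwards [isClosed_closure.isOpen_compl.mem_nhds h1] with y hy
        exact Fs_out fun hU => hy (subset_closure hU)
      rw [continuousAt_congr h2]
      exact continuousAt_const

lemma rv_line (x : Fin n → ℝ) (i : Fin n) :
    HasLineDerivAt ℝ (rv f) (rv (pderiv i f) x) x (Pi.single i 1) := by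
  have h1 := ev_line (cx f) x i
  unfold HasLineDerivAt at h1 ⊢
  rw [pderiv_cx, ev_cx] at h1
  simp only [ev_cx] at h1
  have h2 := Complex.reCLM.hasFDerivAt.comp_hasDerivAt (0 : ℝ) h1
  simp only [Complex.reCLM_apply, Complex.ofReal_re] at h2
  exact h2

lemma Fs_line (h : Reg f U) {s : ℝ} (hs : 1 < s) (x : Fin n → ℝ) (i : Fin n) :
    HasLineDerivAt ℝ (Fs f U s) (s * Fs f U (s - 1) x * rv (pderiv i f) x) x (Pi.single i 1) := by
  have hl := rv_line (f := f) x i
  have hc : Tendsto (fun t : ℝ => x + t • (Pi.single i (1 : ℝ) : Fin n → ℝ)) (𝓝 0) (𝓝 x) := by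
    have : Continuous fun t : ℝ => x + t • (Pi.single i (1 : ℝ) : Fin n → ℝ) := by fun_prop
    have h1 := this.tendsto 0
    simpa using h1
  unfold HasLineDerivAt at hl ⊢
  by_cases hx : x ∈ U
  · have h1 : (fun t : ℝ => Fs f U s (x + t • (Pi.single i (1 : ℝ) : Fin n → ℝ))) =ᶠ[𝓝 0]
        fun t => rv f (x + t • (Pi.single i (1 : ℝ) : Fin n → ℝ)) ^ s := by
      filter_upwards [hc (h.op.mem_nhds hx)] with y hy
      exact Fs_in hy
    refine HasDerivAt.congr_of_eventuallyEq ?_ h1
    have h2 := hl.rpow_const (p := s) (Or.inr hs.le)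
    simp only [zero_smul, add_zero] at h2
    rw [Fs_in hx]
    refine h2.congr_deriv ?_
    ring
  · rw [Fs_out hx, mul_zero, zero_mul]
    by_cases h0 : rv f x = 0
    · rw [hasDerivAt_iff_isLittleO]
      simp only [zero_smul, add_zero, Fs_out hx, sub_zero, smul_zero]
      have h1 : (fun t : ℝ => rv f (x + t • (Pi.single i (1 : ℝ) : Fin n → ℝ))) =O[𝓝 0]
          fun t : ℝ => t := by
        have h2 := hl.isBigO_sub
        simp only [zero_smul, add_zero, h0, sub_zero] at h2
        exact h2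
      obtain ⟨c, hc0, hc1⟩ := h1.exists_pos
      rw [Asymptotics.isBigOWith_iff] at hc1
      have h3 : (fun t : ℝ => Fs f U s (x + t • (Pi.single i (1 : ℝ) : Fin n → ℝ))) =O[𝓝 0]
          fun t : ℝ => |t| ^ s := by
        refine Asymptotics.IsBigO.of_bound (c ^ s) ?_
        filter_upwards [hc1] with t ht
        rw [Real.norm_eq_abs, Real.norm_eq_abs, abs_of_nonneg (Fs_nonneg h _ _),
          abs_of_nonneg (Real.rpow_nonneg (abs_nonneg _) _), ← Real.mul_rpow hc0.le (abs_nonneg _)]
        rw [Real.norm_eq_abs, Real.norm_eq_abs] at ht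
        exact (Fs_le s _ h).trans (Real.rpow_le_rpow (abs_nonneg _) ht (by linarith))
      refine h3.trans_isLittleO ?_
      rw [Asymptotics.isLittleO_iff]
      intro ε hε
      have h4 : Tendsto (fun t : ℝ => |t| ^ (s - 1)) (𝓝 0) (𝓝 0) := by
        have h5 : ContinuousAt (fun t : ℝ => |t| ^ (s - 1)) 0 :=
          continuous_abs.continuousAt.rpow_const (Or.inr (by linarith))
        have h6 := h5.tendsto
        rwa [abs_zero, Real.zero_rpow (by linarith)] at h6
      filter_upwards [h4.eventually (gt_mem_nhds hε)] with t ht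
      rw [Real.norm_eq_abs, Real.norm_eq_abs, abs_of_nonneg (Real.rpow_nonneg (abs_nonneg _) _)]
      by_cases ht0 : t = 0
      · rw [ht0, abs_zero, Real.zero_rpow (by linarith), mul_zero]
      · have h7 : 0 < |t| := abs_pos.2 ht0
        have h8 : |t| ^ s = |t| ^ (s - 1) * |t| := by
          rw [← Real.rpow_add_one h7.ne', sub_add_cancel]
        rw [h8]
        exact mul_le_mul_of_nonneg_right ht.le h7.le
    · have h1 : x ∉ closure U := fun hc => h0 (h.bd x hc hx)
      have h2 : (fun t : ℝ => Fs f U s (x + t • (Pi.single i (1 : ℝ) : Fin n → ℝ))) =ᶠ[𝓝 0]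
          fun _ => 0 := by
        filter_upwards [hc (isClosed_closure.isOpen_compl.mem_nhds h1)] with y hy
        exact Fs_out fun hU => hy (subset_closure hU)
      exact HasDerivAt.congr_of_eventuallyEq (hasDerivAt_const _ _) h2

end Pool.Agent.T6.H16.RA
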