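import Pool.Agent.T6.H16.RA.A1

set_option autoImplicit false

/-! Integration by parts for the operators of the Weyl algebra. -/

namespace Pool.Agent.T6.H16.RA

open MvPolynomial MeasureTheory Set Filter Topology
open scoped ContDiff
open Pool.Agent.H628R4.TP (weylS)

variable {n : ℕ}

/-- polynomials in `s` with coefficients in `ℂ[x]` -/
noncomputable def PS (n : ℕ) : Submodule ℂ (ℂ → MvPolynomial (Fin n) ℂ) :=
  Submodule.span ℂ (range fun ka : ℕ × MvPolynomial (Fin n) ℂ => fun s : ℂ => s ^ ka.1 • ka.2)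

lemma PS_mono (k : ℕ) (a : MvPolynomial (Fin n) ℂ) : (fun s : ℂ => s ^ k • a) ∈ PS n :=
  Submodule.subset_span ⟨(k, a), rfl⟩

lemma PS_const (a : MvPolynomial (Fin n) ℂ) : (fun _ : ℂ => a) ∈ PS n := by
  have h := PS_mono 0 a
  simpa using h

lemma PS_lin (L : MvPolynomial (Fin n) ℂ →ₗ[ℂ] MvPolynomial (Fin n) ℂ)
    {p : ℂ → MvPolynomial (Fin n) ℂ} (hp : p ∈ PS n) : (fun s => L (p s)) ∈ PS n := by
  induction hp using Submodule.span_induction with
  | mem p hp =>
    obtain ⟨⟨k, a⟩, rfl⟩ := hp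
    simp only [map_smul]
    exact PS_mono k (L a)
  | zero => simp only [Pi.zero_apply, map_zero]; exact (PS n).zero_mem
  | add p q _ _ hp hq =>
    simp only [Pi.add_apply, map_add]
    exact (PS n).add_mem hp hq
  | smul c p _ hp =>
    simp only [Pi.smul_apply, map_smul]
    exact (PS n).smul_mem c hp

lemma PS_mul (a : MvPolynomial (Fin n) ℂ) {p : ℂ → MvPolynomial (Fin n) ℂ} (hp : p ∈ PS n) :
    (fun s => a * p s) ∈ PS n := PS_lin (LinearMap.mulLeft ℂ a) hp

lemma PS_s {p : ℂ → MvPolynomial (Fin n) ℂ} (hp : p ∈ PS n) : (fun s => s • p s) ∈ PS n := by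
  induction hp using Submodule.span_induction with
  | mem p hp =>
    obtain ⟨⟨k, a⟩, rfl⟩ := hp
    have h := PS_mono (k + 1) a
    have e : (fun s : ℂ => s • (s ^ k • a)) = fun s => s ^ (k + 1) • a := by
      funext s
      rw [smul_smul, pow_succ']
    exact e ▸ h
  | zero => simp only [Pi.zero_apply, smul_zero]; exact (PS n).zero_mem
  | add p q _ _ hp hq =>
    simp only [Pi.add_apply, smul_add]
    exact (PS n).add_mem hp hq
  | smul c p _ hp =>
    simp only [Pi.smul_apply]
    have e : (fun s : ℂ => s • c • p s) = c • fun s => s • p s := by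
      funext s
      rw [Pi.smul_apply, smul_comm]
    rw [e]
    exact (PS n).smul_mem c hp

lemma PS_add {p q : ℂ → MvPolynomial (Fin n) ℂ} (hp : p ∈ PS n) (hq : q ∈ PS n) :
    (fun s => p s + q s) ∈ PS n := (PS n).add_mem hp hq

lemma PS_poly {p : ℂ → MvPolynomial (Fin n) ℂ} (hp : p ∈ PS n) (d : Fin n →₀ ℕ) :
    ∃ P : Polynomial ℂ, ∀ s, coeff d (p s) = P.eval s := by
  induction hp using Submodule.span_induction with
  | mem p hp =>
    obtain ⟨⟨k, a⟩, rfl⟩ := hp
    refine ⟨Polynomial.X ^ k * Polynomial.C (coeff d a), fun s => ?_⟩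
    rw [Polynomial.eval_mul, Polynomial.eval_pow, Polynomial.eval_X, Polynomial.eval_C, coeff_smul,
      smul_eq_mul]
  | zero => exact ⟨0, fun s => by simp⟩
  | add p q _ _ hp hq =>
    obtain ⟨P, hP⟩ := hp
    obtain ⟨Q, hQ⟩ := hq
    exact ⟨P + Q, fun s => by rw [Pi.add_apply, coeff_add, hP, hQ, Polynomial.eval_add]⟩
  | smul c p _ hp =>
    obtain ⟨P, hP⟩ := hp
    exact ⟨Polynomial.C c * P, fun s => by
      rw [Pi.smul_apply, coeff_smul, hP, Polynomial.eval_mul, Polynomial.eval_C, smul_eq_mul]⟩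

/-- a polynomial in `s` which vanishes at all large integers vanishes -/
lemma PS_zero {p : ℂ → MvPolynomial (Fin n) ℂ} (hp : p ∈ PS n) (M : ℕ)
    (h : ∀ s : ℕ, M ≤ s → p s = 0) (s : ℂ) : p s = 0 := by
  ext d
  obtain ⟨P, hP⟩ := PS_poly hp d
  have h0 : P = 0 := by
    refine Polynomial.eq_zero_of_infinite_isRoot P ?_
    refine Set.Infinite.mono (s := (fun k : ℕ => ((k + M : ℕ) : ℂ)) '' univ) ?_ ?_
    · rintro _ ⟨k, -, rfl⟩
      show P.eval _ = 0
      rw [← hP, h (k + M) (by omega), coeff_zero]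
    · refine (Set.infinite_univ).image ?_
      intro a _ b _ hab
      have hab' : ((a + M : ℕ) : ℂ) = ((b + M : ℕ) : ℂ) := hab
      have : a + M = b + M := by exact_mod_cast hab'
      omega
  rw [hP, h0, Polynomial.eval_zero, coeff_zero]

/-- test functions -/
structure IsT (K : Set (Fin n → ℝ)) (g : (Fin n → ℝ) → ℂ) : Prop where
  sm : ContDiff ℝ ∞ g
  su : tsupport g ⊆ K

variable {K : Set (Fin n → ℝ)}

lemma IsT.cs (hK : IsCompact K) {g : (Fin n → ℝ) → ℂ} (hg : IsT K g) : HasCompactSupport g :=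
  HasCompactSupport.intro' hK hK.isClosed fun x hx => by
    by_contra h0
    exact hx (hg.su (subset_tsupport g h0))

lemma IsT.poly {g : (Fin n → ℝ) → ℂ} (hg : IsT K g) (p : MvPolynomial (Fin n) ℂ) :
    IsT K fun x => ev x p * g x :=
  ⟨(ev_smooth p).mul hg.sm, (tsupport_mul_subset_right).trans hg.su⟩

lemma IsT.smul {g : (Fin n → ℝ) → ℂ} (hg : IsT K g) (c : ℂ) : IsT K fun x => c * g x :=
  ⟨contDiff_const.mul hg.sm, (tsupport_mul_subset_right).trans hg.su⟩

lemma IsT.add {g h : (Fin n → ℝ) → ℂ} (hg : IsT K g) (hh : IsT K h) :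
    IsT K fun x => g x + h x :=
  ⟨hg.sm.add hh.sm, (tsupport_add g h).trans (union_subset hg.su hh.su)⟩

/-- the derivative -/
noncomputable def dg (i : Fin n) (g : (Fin n → ℝ) → ℂ) : (Fin n → ℝ) → ℂ :=
  fun x => fderiv ℝ g x (Pi.single i 1)

lemma IsT.dg {g : (Fin n → ℝ) → ℂ} (hg : IsT K g) (i : Fin n) : IsT K (dg i g) := by
  refine ⟨?_, ?_⟩
  · unfold RA.dg
    have h1 : ContDiff ℝ ∞ (fderiv ℝ g) := hg.sm.fderiv_right (m := ∞) (by simp)
    exact h1.clm_apply contDiff_const
  · refine (closure_minimal ?_ (isClosed_tsupport g)).trans hg.su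
    intro x hx
    by_contra h0
    refine hx ?_
    have h1 : fderiv ℝ g x = 0 := by
      by_contra h2
      exact h0 (support_fderiv_subset ℝ h2)
    unfold RA.dg
    rw [h1]
    rfl

variable {f : MvPolynomial (Fin n) ℝ} {U : Set (Fin n → ℝ)}

lemma T_int (hf : Reg f U) (hK : IsCompact K) {s : ℝ} (hs : 0 < s) {g : (Fin n → ℝ) → ℂ}
    (hg : IsT K g) : Integrable fun x => (Fs f U s x : ℂ) * g x :=
  (((Complex.continuous_ofReal.comp (Fs_cont hf hs)).mul
    hg.sm.continuous).integrable_of_hasCompactSupport ((hg.cs hK).mul_left))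

/-- integration by parts -/
lemma parts (hf : Reg f U) (hK : IsCompact K) {s : ℝ} (hs : 1 < s) {g : (Fin n → ℝ) → ℂ}
    (hg : IsT K g) (i : Fin n) :
    ∫ x, (Fs f U s x : ℂ) * dg i g x =
      - ∫ x, ((s : ℂ) * (Fs f U (s - 1) x : ℂ) * ev x (cx (pderiv i f))) * g x := by
  have h1 := integral_bilinear_hasLineDerivAt_right_eq_neg_left_of_integrable
    (μ := (volume : Measure (Fin n → ℝ))) (f := fun x => (Fs f U s x : ℂ))
    (f' := fun x => (s : ℂ) * (Fs f U (s - 1) x : ℂ) * ev x (cx (pderiv i f)))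
    (g := g) (g' := dg i g) (v := Pi.single i 1) (B := ContinuousLinearMap.mul ℝ ℂ)
    (by
      simp only [ContinuousLinearMap.mul_apply']
      have h2 := T_int hf hK (s := s - 1) (by linarith) ((hg.poly (cx (pderiv i f))).smul (s : ℂ))
      refine h2.congr (Eventually.of_forall fun x => ?_)
      ring)
    (by
      simp only [ContinuousLinearMap.mul_apply']
      exact T_int hf hK (by linarith) (hg.dg i))
    (by
      simp only [ContinuousLinearMap.mul_apply']
      exact T_int hf hK (by linarith) hg)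
    (fun x _ => by
      have h2 := (Fs_line hf hs x i)
      unfold HasLineDerivAt at h2 ⊢
      refine h2.ofReal_comp.congr_deriv ?_
      rw [ev_cx]
      push_cast
      ring)
    (fun x _ => by
      have h2 := (hg.sm.differentiable (by simp)).differentiableAt (x := x)
      exact h2.hasFDerivAt.hasLineDerivAt _)
  simp only [ContinuousLinearMap.mul_apply'] at h1
  exact h1

end Pool.Agent.T6.H16.RA
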