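import Pool.Agent.T6.H16.RA.A2

set_option autoImplicit false

/-! The adjoint operators. -/

namespace Pool.Agent.T6.H16.RA

open MvPolynomial MeasureTheory Set Filter Topology
open scoped ContDiff
open Pool.Agent.H628R4.TP (weylS IsBFunction)

variable {n : ℕ} {f : MvPolynomial (Fin n) ℝ} {U K : Set (Fin n → ℝ)}

/-- `f ^ (s - M)` absorbs `f ^ M` -/
lemma Fs_mul' (h : Reg f U) (s : ℝ) (k : ℕ) (x : Fin n → ℝ) :
    (Fs f U (s - k) x : ℂ) * ev x (cx f ^ k) = (Fs f U s x : ℂ) := by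
  rw [map_pow, ev_cx, ← Fs_mul h s k x]
  push_cast
  rfl

/-- the property of the operators -/
def Adj (f : MvPolynomial (Fin n) ℝ) (U K : Set (Fin n → ℝ))
    (Q : Module.End ℂ (MvPolynomial (Fin n) ℂ)) : Prop :=
  ∃ (M : ℕ) (A : ((Fin n → ℝ) → ℂ) → ((Fin n → ℝ) → ℂ)), (∀ g, IsT K g → IsT K (A g)) ∧
    ∀ (j : ℕ), ∀ p ∈ PS n, ∃ q ∈ PS n,
      (∀ s : ℕ, j + M ≤ s → Q (cx f ^ (s - j) * p s) = cx f ^ (s - j - M) * q s) ∧
      ∀ s : ℝ, (j + M + 1 : ℝ) < s → ∀ g, IsT K g →
        ∫ x, (Fs f U (s - j - M) x : ℂ) * (ev x (q s) * g x) =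
          ∫ x, (Fs f U (s - j) x : ℂ) * (ev x (p s) * A g x)

lemma adj_C (c : ℂ) : Adj f U K (algebraMap ℂ _ c) := by
  refine ⟨0, fun g x => c * g x, fun g hg => hg.smul c, fun j p hp => ⟨fun s => c • p s,
    (PS n).smul_mem c hp, fun s hs => ?_, fun s hs g hg => ?_⟩⟩
  · rw [Module.algebraMap_end_apply, Nat.sub_zero, mul_smul_comm]
  · rw [Nat.cast_zero, sub_zero]
    refine integral_congr_ae (Eventually.of_forall fun x => ?_)
    simp only [map_smul, smul_eq_mul]
    ring

lemma adj_X (i : Fin n) : Adj f U K (LinearMap.mulLeft ℂ (X i : MvPolynomial (Fin n) ℂ)) := by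
  refine ⟨0, fun g x => ev x (X i) * g x, fun g hg => hg.poly (X i), fun j p hp =>
    ⟨fun s => X i * p s, PS_mul (X i) hp, fun s hs => ?_, fun s hs g hg => ?_⟩⟩
  · rw [LinearMap.mulLeft_apply, Nat.sub_zero, mul_left_comm]
  · rw [Nat.cast_zero, sub_zero]
    refine integral_congr_ae (Eventually.of_forall fun x => ?_)
    simp only [map_mul]
    ring

lemma adj_D (hf : Reg f U) (hK : IsCompact K) (i : Fin n) :
    Adj f U K ((pderiv i : Derivation ℂ (MvPolynomial (Fin n) ℂ) (MvPolynomial (Fin n) ℂ)) :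
      MvPolynomial (Fin n) ℂ →ₗ[ℂ] MvPolynomial (Fin n) ℂ) := by
  refine ⟨1, fun g x => (-1) * dg i g x, fun g hg => (hg.dg i).smul (-1), fun j p hp => ?_⟩
  have hq : (fun s : ℂ => (s - j) • (cx (pderiv i f) * p s) + cx f * pderiv i (p s)) ∈ PS n := by
    have h1 := PS_mul (cx (pderiv i f)) hp
    have h2 := PS_s h1
    have h3 := (PS n).smul_mem (-(j : ℂ)) h1
    have h4 := PS_mul (cx f) (PS_lin ((pderiv i : Derivation ℂ _ _) : _ →ₗ[ℂ] _) hp)
    have h5 := PS_add (PS_add h2 h3) h4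
    refine (congrArg (· ∈ PS n) (funext fun s => ?_)).mp h5
    simp only [Pi.smul_apply, sub_smul, neg_smul, Derivation.coeFn_coe]
    ring
  refine ⟨_, hq, fun s hs => ?_, fun s hs g hg => ?_⟩
  · obtain ⟨k, hk⟩ : ∃ k, s - j = k + 1 := ⟨s - j - 1, by omega⟩
    have hk' : s - j - 1 = k := by omega
    have hsj : ((s : ℂ) - j) = (k + 1 : ℕ) := by
      have : s = k + 1 + j := by omega
      rw [this]
      push_cast
      ring
    simp only [Derivation.coeFn_coe]
    rw [hk', hk, Derivation.leibniz, Derivation.leibniz_pow, pderiv_cx, hsj]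
    simp only [smul_eq_mul, Nat.add_sub_cancel, nsmul_eq_mul, MvPolynomial.smul_eq_C_mul,
      map_natCast]
    push_cast
    ring
  · have hs' : (1 : ℝ) < s - j := by push_cast at hs; linarith
    have hs1 : (0 : ℝ) < s - j - 1 := by linarith
    have h1 := parts hf hK hs' (hg.poly (p s)) i
    have h2 : ∀ x, dg i (fun x => ev x (p s) * g x) x =
        ev x (pderiv i (p s)) * g x + ev x (p s) * dg i g x := by
      intro x
      have e1 : fderiv ℝ (fun x => ev x (p s)) x (Pi.single i 1) = ev x (pderiv i (p s)) := by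
        have h3 := ((ev_smooth (p s)).differentiable (by simp)).differentiableAt (x := x)
        exact h3.hasFDerivAt.hasLineDerivAt (Pi.single i 1) |>.unique (ev_line (p s) x i)
      unfold dg
      have h3 := ((ev_smooth (p s)).differentiable (by simp)).differentiableAt (x := x)
      have h4 := (hg.sm.differentiable (by simp)).differentiableAt (x := x)
      have h5 : fderiv ℝ (fun x => ev x (p s) * g x) x =
          ev x (p s) • fderiv ℝ g x + g x • fderiv ℝ (fun x => ev x (p s)) x :=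
        fderiv_fun_mul h3 h4
      rw [h5]
      simp only [ContinuousLinearMap.add_apply, ContinuousLinearMap.smul_apply, smul_eq_mul]
      rw [e1]
      ring
    have i1 := T_int hf hK (s := s - j) (by linarith) (hg.poly (pderiv i (p s)))
    have i2 := T_int hf hK (s := s - j) (by linarith) ((hg.dg i).poly (p s))
    have i3 := T_int hf hK hs1 ((hg.poly (cx (pderiv i f) * p s)).smul ((s - j : ℝ) : ℂ))
    have i4 := T_int hf hK hs1 (hg.poly (cx f * pderiv i (p s)))
    simp only [h2] at h1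
    have e1 : ∫ x, (Fs f U (s - j) x : ℂ) * (ev x (pderiv i (p s)) * g x +
        ev x (p s) * dg i g x) = (∫ x, (Fs f U (s - j) x : ℂ) * (ev x (pderiv i (p s)) * g x)) +
        ∫ x, (Fs f U (s - j) x : ℂ) * (ev x (p s) * dg i g x) := by
      rw [← integral_add i1 i2]
      refine integral_congr_ae (Eventually.of_forall fun x => ?_)
      simp only
      ring
    rw [e1] at h1
    have e2 : ∫ x, (Fs f U (s - j - (1 : ℕ)) x : ℂ) *
        (ev x (((s : ℂ) - j) • (cx (pderiv i f) * p s) + cx f * pderiv i (p s)) * g x) =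
        (∫ x, (Fs f U (s - j - 1) x : ℂ) * (((s - j : ℝ) : ℂ) *
          (ev x (cx (pderiv i f) * p s) * g x))) +
        ∫ x, (Fs f U (s - j - 1) x : ℂ) * (ev x (cx f * pderiv i (p s)) * g x) := by
      rw [← integral_add i3 i4]
      refine integral_congr_ae (Eventually.of_forall fun x => ?_)
      simp only [map_add, map_smul, smul_eq_mul, Nat.cast_one]
      push_cast
      ring
    rw [e2]
    have e3 : ∫ x, (Fs f U (s - j - 1) x : ℂ) * (ev x (cx f * pderiv i (p s)) * g x) =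
        ∫ x, (Fs f U (s - j) x : ℂ) * (ev x (pderiv i (p s)) * g x) := by
      refine integral_congr_ae (Eventually.of_forall fun x => ?_)
      have h6 := Fs_mul' hf (s - j) 1 x
      simp only [Nat.cast_one, pow_one] at h6
      simp only [map_mul]
      rw [← h6]
      ring
    have e4 : ∫ x, (Fs f U (s - j - 1) x : ℂ) * (((s - j : ℝ) : ℂ) *
          (ev x (cx (pderiv i f) * p s) * g x)) =
        ∫ x, (((s - j : ℝ) : ℂ) * (Fs f U (s - j - 1) x : ℂ) * ev x (cx (pderiv i f))) *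
          (ev x (p s) * g x) := by
      refine integral_congr_ae (Eventually.of_forall fun x => ?_)
      simp only [map_mul]
      ring
    have e5 : ∫ x, (Fs f U (s - j) x : ℂ) * (ev x (p s) * ((-1) * dg i g x)) =
        - ∫ x, (Fs f U (s - j) x : ℂ) * (ev x (p s) * dg i g x) := by
      rw [← integral_neg]
      refine integral_congr_ae (Eventually.of_forall fun x => ?_)
      simp only
      ring
    rw [e3, e4, e5]
    linear_combination h1

lemma adj_add (hf : Reg f U) (hK : IsCompact K) {Q R : Module.End ℂ (MvPolynomial (Fin n) ℂ)}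
    (hQ : Adj f U K Q) (hR : Adj f U K R) : Adj f U K (Q + R) := by
  obtain ⟨M₁, A₁, hA₁, h₁⟩ := hQ
  obtain ⟨M₂, A₂, hA₂, h₂⟩ := hR
  refine ⟨M₁ + M₂, fun g x => A₁ g x + A₂ g x, fun g hg => (hA₁ g hg).add (hA₂ g hg),
    fun j p hp => ?_⟩
  obtain ⟨q₁, hq₁, n₁, i₁⟩ := h₁ j p hp
  obtain ⟨q₂, hq₂, n₂, i₂⟩ := h₂ j p hp
  refine ⟨fun s => cx f ^ M₂ * q₁ s + cx f ^ M₁ * q₂ s,
    PS_add (PS_mul _ hq₁) (PS_mul _ hq₂), fun s hs => ?_, fun s hs g hg => ?_⟩
  · rw [LinearMap.add_apply, n₁ s (by omega), n₂ s (by omega), mul_add, ← mul_assoc, ← mul_assoc,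
      ← pow_add, ← pow_add]
    congr 3
    · congr 1
      omega
    · congr 1
      omega
  · push_cast at hs ⊢
    have hs1 := i₁ s (by have : (0 : ℝ) ≤ M₂ := by positivity
                         linarith) g hg
    have hs2 := i₂ s (by have : (0 : ℝ) ≤ M₁ := by positivity
                         linarith) g hg
    have p1 : (0 : ℝ) < s - j - (M₁ + M₂) := by linarith
    have p2 : (0 : ℝ) < s - j := by
      have : (0 : ℝ) ≤ M₁ := by positivity
      have : (0 : ℝ) ≤ M₂ := by positivity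
      linarith
    have e1 : ∫ x, (Fs f U (s - j - (M₁ + M₂)) x : ℂ) *
        (ev x (cx f ^ M₂ * q₁ s + cx f ^ M₁ * q₂ s) * g x) =
        (∫ x, (Fs f U (s - j - (M₁ + M₂)) x : ℂ) * (ev x (cx f ^ M₂ * q₁ s) * g x)) +
        ∫ x, (Fs f U (s - j - (M₁ + M₂)) x : ℂ) * (ev x (cx f ^ M₁ * q₂ s) * g x) := by
      rw [← integral_add (T_int hf hK p1 (hg.poly _)) (T_int hf hK p1 (hg.poly _))]
      refine integral_congr_ae (Eventually.of_forall fun x => ?_)
      simp only [map_add]
      ring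
    have e2 : ∫ x, (Fs f U (s - j - (M₁ + M₂)) x : ℂ) * (ev x (cx f ^ M₂ * q₁ s) * g x) =
        ∫ x, (Fs f U (s - j - M₁) x : ℂ) * (ev x (q₁ s) * g x) := by
      refine integral_congr_ae (Eventually.of_forall fun x => ?_)
      have h6 := Fs_mul' hf (s - j - M₁) M₂ x
      rw [show s - j - M₁ - M₂ = s - j - (M₁ + M₂) by ring] at h6
      simp only [map_mul]
      rw [← h6]
      ring
    have e3 : ∫ x, (Fs f U (s - j - (M₁ + M₂)) x : ℂ) * (ev x (cx f ^ M₁ * q₂ s) * g x) =
        ∫ x, (Fs f U (s - j - M₂) x : ℂ) * (ev x (q₂ s) * g x) := by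
      refine integral_congr_ae (Eventually.of_forall fun x => ?_)
      have h6 := Fs_mul' hf (s - j - M₂) M₁ x
      rw [show s - j - M₂ - M₁ = s - j - (M₁ + M₂) by ring] at h6
      simp only [map_mul]
      rw [← h6]
      ring
    rw [e1, e2, e3, hs1, hs2, ← integral_add (T_int hf hK p2 ((hA₁ g hg).poly _))
      (T_int hf hK p2 ((hA₂ g hg).poly _))]
    refine integral_congr_ae (Eventually.of_forall fun x => ?_)
    simp only
    ring

lemma adj_mul {Q R : Module.End ℂ (MvPolynomial (Fin n) ℂ)}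
    (hQ : Adj f U K Q) (hR : Adj f U K R) : Adj f U K (Q * R) := by
  obtain ⟨M₁, A₁, hA₁, h₁⟩ := hQ
  obtain ⟨M₂, A₂, hA₂, h₂⟩ := hR
  refine ⟨M₁ + M₂, fun g => A₂ (A₁ g), fun g hg => hA₂ _ (hA₁ g hg), fun j p hp => ?_⟩
  obtain ⟨q₂, hq₂, n₂, i₂⟩ := h₂ j p hp
  obtain ⟨q₁, hq₁, n₁, i₁⟩ := h₁ (j + M₂) q₂ hq₂
  refine ⟨q₁, hq₁, fun s hs => ?_, fun s hs g hg => ?_⟩
  · rw [Module.End.mul_apply, n₂ s (by omega)]
    have h3 := n₁ s (by omega)
    rw [show s - (j + M₂) = s - j - M₂ by omega] at h3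
    rw [h3]
    congr 2
    omega
  · push_cast at hs
    have h3 := i₁ s (by push_cast; linarith) g hg
    have h4 := i₂ s (by have : (0 : ℝ) ≤ M₁ := by positivity
                        linarith) (A₁ g) (hA₁ g hg)
    push_cast at h3 ⊢
    rw [show s - (j + M₂ : ℝ) = s - j - M₂ by ring] at h3
    rw [show s - j - (M₁ + M₂ : ℝ) = s - j - M₂ - M₁ by ring, h3, h4]

theorem adj_weyl (hf : Reg f U) (hK : IsCompact K) (Q : weylS (Fin n)) :
    Adj f U K (Q : Module.End ℂ (MvPolynomial (Fin n) ℂ)) := by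
  obtain ⟨Q, hQ⟩ := Q
  show Adj f U K Q
  unfold weylS at hQ
  induction hQ using Algebra.adjoin_induction with
  | mem Q hQ =>
    rcases hQ with ⟨i, rfl⟩ | ⟨i, rfl⟩
    · exact adj_X i
    · exact adj_D hf hK i
  | algebraMap c => exact adj_C c
  | add Q R _ _ hQ hR => exact adj_add hf hK hQ hR
  | mul Q R _ _ hQ hR => exact adj_mul hQ hR

end Pool.Agent.T6.H16.RA
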