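import Pool.Agent.T6.H16.RA.A3

set_option autoImplicit false

/-! The functional equation for real exponents. -/

namespace Pool.Agent.T6.H16.RA

open MvPolynomial MeasureTheory Set Filter Topology
open scoped ContDiff
open Pool.Agent.H628R4.TP (weylS IsBFunction)

variable {n : ℕ} {f : MvPolynomial (Fin n) ℝ} {U K : Set (Fin n → ℝ)}

lemma PS_pe (P : Polynomial ℂ) {q : ℂ → MvPolynomial (Fin n) ℂ} (hq : q ∈ PS n) :
    (fun s => P.eval s • q s) ∈ PS n := by
  induction P using Polynomial.induction_on' with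
  | add P Q hP hQ =>
    simp only [Polynomial.eval_add, add_smul]
    exact PS_add hP hQ
  | monomial k a =>
    have h : ∀ k : ℕ, (fun s : ℂ => s ^ k • q s) ∈ PS n := by
      intro k
      induction k with
      | zero => simpa using hq
      | succ k ih =>
        have h := PS_s ih
        simp only [smul_smul, ← pow_succ'] at h
        exact h
    have h1 := (PS n).smul_mem a (h k)
    refine (congrArg (· ∈ PS n) (funext fun s => ?_)).mp h1
    rw [Pi.smul_apply, Polynomial.eval_monomial, smul_smul]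

/-- `∫ f ^ t g` -/
noncomputable def TT (f : MvPolynomial (Fin n) ℝ) (U : Set (Fin n → ℝ)) (g : (Fin n → ℝ) → ℂ)
    (t : ℝ) : ℂ := ∫ x, (Fs f U t x : ℂ) * g x

theorem real_eq (hf : Reg f U) (hK : IsCompact K) (hf0 : cx f ≠ 0) {b : Polynomial ℂ}
    (hb : IsBFunction (cx f) b) :
    ∃ (S : Finset ℕ) (A : ℕ → ((Fin n → ℝ) → ℂ) → ((Fin n → ℝ) → ℂ)) (M : ℝ), 0 < M ∧
      (∀ m g, IsT K g → IsT K (A m g)) ∧ ∀ t : ℝ, M < t → ∀ g, IsT K g →
        b.eval (t : ℂ) * TT f U g t = ∑ m ∈ S, (t : ℂ) ^ m * TT f U (A m g) (t + 1) := by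
  obtain ⟨P, hP⟩ := hb
  choose Mm A hA hm using fun m : ℕ => adj_weyl hf hK (P m)
  choose q hq hnat hint using fun m : ℕ => hm m 0 (fun _ => 1) (PS_const 1)
  set M : ℕ := 1 + ∑ m ∈ P.support, Mm m with hM
  have hMm : ∀ m ∈ P.support, Mm m ≤ M := fun m hm => by
    have := Finset.single_le_sum (f := Mm) (fun i _ => Nat.zero_le _) hm
    omega
  -- the polynomial identity
  have key : ∀ s : ℂ, (b.comp (Polynomial.X - 1)).eval s • cx f ^ (M - 1) =
      ∑ m ∈ P.support, ((Polynomial.X - 1 : Polynomial ℂ) ^ m).eval s •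
        (cx f ^ (M - Mm m) * q m s) := by
    have h1 : (fun s => (b.comp (Polynomial.X - 1)).eval s • cx f ^ (M - 1) -
        ∑ m ∈ P.support, ((Polynomial.X - 1 : Polynomial ℂ) ^ m).eval s •
          (cx f ^ (M - Mm m) * q m s)) ∈ PS n := by
      have h2 : (fun s => ∑ m ∈ P.support, ((Polynomial.X - 1 : Polynomial ℂ) ^ m).eval s •
          (cx f ^ (M - Mm m) * q m s)) ∈ PS n := by
        have h3 : ∀ m ∈ P.support, (fun s => ((Polynomial.X - 1 : Polynomial ℂ) ^ m).eval s •
          (cx f ^ (M - Mm m) * q m s)) ∈ PS n := fun m _ => PS_pe _ (PS_mul _ (hq m))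
        have h4 := (PS n).sum_mem h3
        refine (congrArg (· ∈ PS n) (funext fun s => ?_)).mp h4
        rw [Finset.sum_apply]
      exact (PS n).sub_mem (PS_pe _ (PS_const _)) h2
    intro s
    refine sub_eq_zero.1 (PS_zero h1 M (fun s hs => ?_) s)
    obtain ⟨t, rfl⟩ : ∃ t, s = t + 1 := ⟨s - 1, by omega⟩
    have h5 := hP t
    rw [Finsupp.sum] at h5
    have h6 : cx f ^ (t + 1 - M) * ((b.comp (Polynomial.X - 1)).eval (((t + 1 : ℕ) : ℂ)) •
        cx f ^ (M - 1) - ∑ m ∈ P.support, ((Polynomial.X - 1 : Polynomial ℂ) ^ m).eval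
          (((t + 1 : ℕ) : ℂ)) • (cx f ^ (M - Mm m) * q m ((t + 1 : ℕ) : ℂ))) = 0 := by
      have e1 : (((t + 1 : ℕ) : ℂ)) - 1 = t := by push_cast; ring
      simp only [Polynomial.eval_comp, Polynomial.eval_sub, Polynomial.eval_X, Polynomial.eval_one,
        Polynomial.eval_pow, e1]
      rw [mul_sub, Finset.mul_sum, sub_eq_zero, mul_smul_comm, ← pow_add,
        show t + 1 - M + (M - 1) = t by omega, smul_eq_C_mul, h5]
      refine Finset.sum_congr rfl fun m hm => ?_
      have h7 := hnat m (t + 1) (by have := hMm m hm; omega)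
      rw [mul_one, Nat.sub_zero] at h7
      rw [h7, mul_smul_comm, ← mul_assoc, ← pow_add]
      congr 3
      have := hMm m hm
      omega
    exact (mul_eq_zero.1 h6).resolve_left (pow_ne_zero _ hf0)
  refine ⟨P.support, A, M, ?_, hA, fun t ht g hg => ?_⟩
  · have : 0 < M := by omega
    exact_mod_cast this
  -- pointwise
  have hpt : ∀ x, b.eval (t : ℂ) * (Fs f U t x : ℂ) =
      ∑ m ∈ P.support, (t : ℂ) ^ m * ((Fs f U (t + 1 - Mm m) x : ℂ) * ev x (q m ((t + 1 : ℝ) : ℂ))) := by
    intro x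
    have h1 := congrArg (ev x) (key ((t + 1 : ℝ) : ℂ))
    have e1 : (((t + 1 : ℝ) : ℂ)) - 1 = t := by push_cast; ring
    simp only [Polynomial.eval_comp, Polynomial.eval_sub, Polynomial.eval_X, Polynomial.eval_one,
      Polynomial.eval_pow, e1, map_smul, smul_eq_mul, map_sum] at h1
    have h2 := congrArg (fun z => (Fs f U (t + 1 - M) x : ℂ) * z) h1
    have e2 : (Fs f U (t + 1 - M) x : ℂ) * ev x (cx f ^ (M - 1)) = (Fs f U t x : ℂ) := by
      have h3 := Fs_mul' hf t (M - 1) x
      have h4 : t - ((M - 1 : ℕ) : ℝ) = t + 1 - M := by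
        rw [Nat.cast_sub (by omega)]
        push_cast
        ring
      rwa [h4] at h3
    rw [← e2]
    rw [mul_left_comm] at h2
    rw [h2, Finset.mul_sum]
    refine Finset.sum_congr rfl fun m hm => ?_
    have h3 := Fs_mul' hf (t + 1 - Mm m) (M - Mm m) x
    have h4 : t + 1 - (Mm m : ℝ) - ((M - Mm m : ℕ) : ℝ) = t + 1 - M := by
      rw [Nat.cast_sub (hMm m hm)]
      ring
    rw [h4] at h3
    rw [← h3, map_mul]
    ring
  unfold TT
  rw [← integral_const_mul]
  have e3 : ∫ x, b.eval (t : ℂ) * ((Fs f U t x : ℂ) * g x) = ∫ x, ∑ m ∈ P.support,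
      (t : ℂ) ^ m * ((Fs f U (t + 1 - Mm m) x : ℂ) * (ev x (q m ((t + 1 : ℝ) : ℂ)) * g x)) := by
    refine integral_congr_ae (Eventually.of_forall fun x => ?_)
    simp only
    rw [← mul_assoc, hpt x, Finset.sum_mul]
    refine Finset.sum_congr rfl fun m _ => ?_
    ring
  have hMr : ∀ m ∈ P.support, (Mm m : ℝ) ≤ M := fun m hm => by exact_mod_cast hMm m hm
  rw [e3, integral_finsetSum]
  · refine Finset.sum_congr rfl fun m hm => ?_
    rw [integral_const_mul]
    congr 1
    have h1 := hint m (t + 1) (by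
      have := hMr m hm
      push_cast
      linarith) g hg
    simp only [Nat.cast_zero, sub_zero, map_one, one_mul] at h1
    exact h1
  · intro m hm
    have := hMr m hm
    exact (T_int hf hK (by linarith) (hg.poly _)).const_mul _

end Pool.Agent.T6.H16.RA
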