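import Pool.Agent.T6.H16.RA.A4

set_option autoImplicit false

/-! The divergence of the integral gives a root. -/

namespace Pool.Agent.T6.H16.RA

open MvPolynomial MeasureTheory Set Filter Topology Metric
open scoped ContDiff
open Pool.Agent.H628R4.TP (weylS IsBFunction)

variable {n : ℕ} {f : MvPolynomial (Fin n) ℝ} {U K : Set (Fin n → ℝ)}

/-- the integral with a nonnegative weight is analytic -/
lemma ana_pos (hf : Reg f U) (hK : IsCompact K) {s0 : ℝ}
    (hint : ∀ s, s0 < s → IntegrableOn (fun x => rv f x ^ s) (U ∩ K)) {h : (Fin n → ℝ) → ℝ}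
    (hm : Measurable h) (h0 : ∀ x, 0 ≤ h x) {c : ℝ} (hc : ∀ x, h x ≤ c)
    (hs : ∀ x, x ∉ K → h x = 0) :
    AnalyticOnNhd ℝ (fun t => ∫ x, Fs f U t x * h x) (Ioi s0) := by
  set μ : Measure (Fin n → ℝ) := (volume.restrict U).withDensity fun x => ENNReal.ofReal (h x)
    with hμ
  have hUm : MeasurableSet U := hf.op.measurableSet
  have hKm : MeasurableSet K := hK.isClosed.measurableSet
  have hfm : Measurable (rv f) := (rv_cont f).measurable
  have hexp : ∀ t : ℝ, ∀ x ∈ U, Real.exp (t * Real.log (rv f x)) = rv f x ^ t := by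
    intro t x hx
    rw [Real.rpow_def_of_pos (hf.pos x hx), mul_comm]
  have e : (fun t => ∫ x, Fs f U t x * h x) =
      ProbabilityTheory.mgf (fun x => Real.log (rv f x)) μ := by
    funext t
    unfold ProbabilityTheory.mgf
    rw [hμ, integral_withDensity_eq_integral_toReal_smul hm.ennreal_ofReal
      (Eventually.of_forall fun x => ENNReal.ofReal_lt_top)]
    have h1 : ∀ x, Fs f U t x * h x = U.indicator (fun x => rv f x ^ t * h x) x := by
      intro x
      by_cases hx : x ∈ U
      · rw [Fs_in hx, indicator_of_mem hx]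
      · rw [Fs_out hx, indicator_of_notMem hx, zero_mul]
    simp only [h1]
    rw [integral_indicator hUm]
    refine setIntegral_congr_fun hUm fun x hx => ?_
    simp only [smul_eq_mul]
    rw [ENNReal.toReal_ofReal (h0 x), hexp t x hx]
    ring
  rw [e]
  refine (ProbabilityTheory.analyticOnNhd_mgf).mono ?_
  refine interior_maximal (fun t ht => ?_) isOpen_Ioi
  show Integrable _ _
  rw [hμ, integrable_withDensity_iff_integrable_smul₀' hm.ennreal_ofReal.aemeasurable
    (Eventually.of_forall fun x => ENNReal.ofReal_lt_top)]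
  have h1 : IntegrableOn (fun x => c * rv f x ^ t) (U ∩ K) := (hint t ht).const_mul c
  have h2 : IntegrableOn (fun x => (ENNReal.ofReal (h x)).toReal •
      Real.exp (t * Real.log (rv f x))) (U ∩ K) := by
    refine Integrable.mono' h1 ?_ ?_
    · refine Measurable.aestronglyMeasurable ?_
      exact (hm.ennreal_ofReal.ennreal_toReal).smul
        (((hfm.log).const_mul t).exp)
    · refine (ae_restrict_iff' (hUm.inter hKm)).2 (Eventually.of_forall fun x hx => ?_)
      rw [ENNReal.toReal_ofReal (h0 x), hexp t x hx.1, smul_eq_mul, Real.norm_eq_abs,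
        abs_of_nonneg (mul_nonneg (h0 x) (Real.rpow_nonneg (hf.pos x hx.1).le _))]
      exact mul_le_mul_of_nonneg_right (hc x) (Real.rpow_nonneg (hf.pos x hx.1).le _)
  have h3 : IntegrableOn (fun x => (ENNReal.ofReal (h x)).toReal •
      Real.exp (t * Real.log (rv f x))) (U \ K) := by
    have h4 : IntegrableOn (fun _ : Fin n → ℝ => (0 : ℝ)) (U \ K) := integrableOn_zero
    refine h4.congr_fun ?_ (hUm.diff hKm)
    intro x hx
    simp only
    rw [hs x hx.2]
    simp
  have h4 := h2.union h3
  rwa [inter_union_sdiff] at h4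

lemma analytic_ofReal {g : ℝ → ℝ} {S : Set ℝ} (hg : AnalyticOnNhd ℝ g S) :
    AnalyticOnNhd ℝ (fun t => (g t : ℂ)) S := fun t ht =>
  (Complex.ofRealCLM.analyticAt _).comp (hg t ht)

/-- the integral with a test function is analytic -/
lemma ana (hf : Reg f U) (hK : IsCompact K) {s0 : ℝ}
    (hint : ∀ s, s0 < s → IntegrableOn (fun x => rv f x ^ s) (U ∩ K)) {g : (Fin n → ℝ) → ℂ}
    (hg : IsT K g) : AnalyticOnNhd ℝ (TT f U g) (Ioi s0) := by
  have hUm : MeasurableSet U := hf.op.measurableSet
  have hKm : MeasurableSet K := hK.isClosed.measurableSet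
  have hfm : Measurable (rv f) := (rv_cont f).measurable
  obtain ⟨c, hc⟩ := (hg.sm.continuous).bounded_above_of_compact_support (hg.cs hK)
  have hgK : ∀ x, x ∉ K → g x = 0 := fun x hx => by
    by_contra h0
    exact hx (hg.su (subset_tsupport g h0))
  have hgm : Measurable g := hg.sm.continuous.measurable
  have hc0 : 0 ≤ c := (norm_nonneg _).trans (hc 0)
  -- the four parts
  have key : ∀ L : ℂ → ℝ, Measurable L → (∀ z, |L z| ≤ ‖z‖) →
      AnalyticOnNhd ℝ (fun t => ∫ x, Fs f U t x * max (L (g x)) 0) (Ioi s0) := by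
    intro L hL hL1
    refine ana_pos hf hK hint ((hL.comp hgm).max measurable_const) (fun x => le_max_right _ _)
      (c := c) (fun x => max_le ?_ hc0) (fun x hx => ?_)
    · exact (le_abs_self _).trans ((hL1 _).trans (hc x))
    · rw [hgK x hx]
      have h1 := hL1 0
      rw [norm_zero] at h1
      have h2 : L 0 = 0 := abs_eq_zero.1 (le_antisymm h1 (abs_nonneg _))
      rw [h2, max_self]
  have k1 := key Complex.re Complex.measurable_re Complex.abs_re_le_norm
  have k2 := key (fun z => -Complex.re z) Complex.measurable_re.neg (fun z => by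
    rw [abs_neg]
    exact Complex.abs_re_le_norm z)
  have k3 := key Complex.im Complex.measurable_im Complex.abs_im_le_norm
  have k4 := key (fun z => -Complex.im z) Complex.measurable_im.neg (fun z => by
    rw [abs_neg]
    exact Complex.abs_im_le_norm z)
  have k5 := ((analytic_ofReal k1).sub (analytic_ofReal k2)).add
    ((analyticOnNhd_const (v := Complex.I)).mul ((analytic_ofReal k3).sub (analytic_ofReal k4)))
  refine k5.congr isOpen_Ioi fun t ht => ?_
  -- integrability
  have hI : ∀ L : ℂ → ℝ, Measurable L → (∀ z, |L z| ≤ ‖z‖) →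
      Integrable fun x => Fs f U t x * max (L (g x)) 0 := by
    intro L hL hL1
    have h1 : IntegrableOn (fun x => c * rv f x ^ t) (U ∩ K) := (hint t ht).const_mul c
    have h2 : Integrable ((U ∩ K).indicator fun x => c * rv f x ^ t) :=
      (integrable_indicator_iff (hUm.inter hKm)).2 h1
    refine Integrable.mono' h2 ?_ (Eventually.of_forall fun x => ?_)
    · refine Measurable.aestronglyMeasurable ?_
      refine Measurable.mul ?_ ((hL.comp hgm).max measurable_const)
      exact (hfm.pow_const t).indicator hUm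
    · rw [Real.norm_eq_abs, abs_of_nonneg (mul_nonneg (Fs_nonneg hf t x) (le_max_right _ _))]
      by_cases hx : x ∈ U
      · by_cases hxK : x ∈ K
        · rw [indicator_of_mem (s := U ∩ K) ⟨hx, hxK⟩, Fs_in hx, mul_comm]
          exact mul_le_mul_of_nonneg_right
            (max_le ((le_abs_self _).trans ((hL1 _).trans (hc x))) hc0)
            (Real.rpow_nonneg (hf.pos x hx).le _)
        · rw [indicator_of_notMem (s := U ∩ K) (fun h => hxK h.2), hgK x hxK]
          have h1 := hL1 0
          rw [norm_zero] at h1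
          have h2 : L 0 = 0 := abs_eq_zero.1 (le_antisymm h1 (abs_nonneg _))
          rw [h2, max_self, mul_zero]
      · rw [indicator_of_notMem (s := U ∩ K) (fun h => hx h.1), Fs_out hx, zero_mul]
  have j1 : Integrable fun x => ((Fs f U t x * max (g x).re 0 : ℝ) : ℂ) :=
    (hI Complex.re Complex.measurable_re Complex.abs_re_le_norm).ofReal
  have j2 : Integrable fun x => ((Fs f U t x * max (-(g x).re) 0 : ℝ) : ℂ) :=
    (hI (fun z => -Complex.re z) Complex.measurable_re.neg (fun z => by
      rw [abs_neg]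
      exact Complex.abs_re_le_norm z)).ofReal
  have j3 : Integrable fun x => ((Fs f U t x * max (g x).im 0 : ℝ) : ℂ) :=
    (hI Complex.im Complex.measurable_im Complex.abs_im_le_norm).ofReal
  have j4 : Integrable fun x => ((Fs f U t x * max (-(g x).im) 0 : ℝ) : ℂ) :=
    (hI (fun z => -Complex.im z) Complex.measurable_im.neg (fun z => by
      rw [abs_neg]
      exact Complex.abs_im_le_norm z)).ofReal
  show (((∫ x, Fs f U t x * max (g x).re 0 : ℝ) : ℂ) -
    ((∫ x, Fs f U t x * max (-(g x).re) 0 : ℝ) : ℂ)) + Complex.I *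
    (((∫ x, Fs f U t x * max (g x).im 0 : ℝ) : ℂ) -
    ((∫ x, Fs f U t x * max (-(g x).im) 0 : ℝ) : ℂ)) = TT f U g t
  unfold TT
  rw [← integral_complex_ofReal, ← integral_complex_ofReal, ← integral_complex_ofReal,
    ← integral_complex_ofReal, ← integral_sub j1 j2, ← integral_sub j3 j4,
    ← integral_const_mul]
  refine (integral_add (j1.sub j2) ((j3.sub j4).const_mul _)).symm.trans ?_
  refine integral_congr_ae (Eventually.of_forall fun x => ?_)
  simp only [Pi.sub_apply]
  have m1 : max (g x).re 0 - max (-(g x).re) 0 = (g x).re := by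
    rcases le_total 0 (g x).re with h | h
    · rw [max_eq_left h, max_eq_right (by linarith), sub_zero]
    · rw [max_eq_right h, max_eq_left (by linarith)]
      ring
  have m2 : max (g x).im 0 - max (-(g x).im) 0 = (g x).im := by
    rcases le_total 0 (g x).im with h | h
    · rw [max_eq_left h, max_eq_right (by linarith), sub_zero]
    · rw [max_eq_right h, max_eq_left (by linarith)]
      ring
  have m3 : g x = ((g x).re : ℂ) + Complex.I * ((g x).im : ℂ) := by
    rw [mul_comm]
    exact (Complex.re_add_im _).symm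
  conv_rhs => rw [m3, ← m1, ← m2]
  push_cast
  ring

/-- **Divergence of the integral gives a root.** -/
theorem root (hf : Reg f U) (hf0 : cx f ≠ 0) {b : Polynomial ℂ} (hb : IsBFunction (cx f) b)
    {p : Fin n → ℝ} {ρ : ℝ} (hρ : 0 < ρ) {s0 : ℝ}
    (hint : ∀ s, s0 < s → IntegrableOn (fun x => rv f x ^ s) (U ∩ closedBall p ρ))
    (hdiv : ∀ R : ℝ, ∃ᶠ t in 𝓝[>] s0, R < ∫ x in U ∩ closedBall p (ρ / 2), rv f x ^ t) :
    b.eval (s0 : ℂ) = 0 := by
  by_contra hb0
  have hK : IsCompact (closedBall p ρ) := isCompact_closedBall p ρ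
  obtain ⟨S, A, M, hM, hA, hfe⟩ := real_eq hf hK hf0 hb
  set φ : ContDiffBump p := ⟨ρ / 2, ρ, by linarith, by linarith⟩ with hφ
  set g : (Fin n → ℝ) → ℂ := fun x => ((φ x : ℝ) : ℂ) with hg'
  have hg : IsT (closedBall p ρ) g := by
    refine ⟨Complex.ofRealCLM.contDiff.comp φ.contDiff, ?_⟩
    have h1 : tsupport g ⊆ tsupport φ := by
      refine closure_mono fun x hx => ?_
      rw [Function.mem_support] at hx ⊢
      intro h0
      exact hx (by rw [hg']; simp only; rw [h0, Complex.ofReal_zero])
    exact h1.trans φ.tsupport_eq.subset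
  have hana := fun g hg => ana hf hK hint (g := g) hg
  -- the functional equation for `s > s0`
  have hfe2 : EqOn (fun t : ℝ => b.eval (t : ℂ) * TT f U g t -
      ∑ m ∈ S, (t : ℂ) ^ m * TT f U (A m g) (t + 1)) 0 (Ioi s0) := by
    refine AnalyticOnNhd.eqOn_zero_of_preconnected_of_eventuallyEq_zero (𝕜 := ℝ) ?_
      isPreconnected_Ioi (z₀ := max M s0 + 1) ?_ ?_
    · have hc : AnalyticOnNhd ℝ (fun t : ℝ => (t : ℂ)) (Ioi s0) := fun t _ =>
        Complex.ofRealCLM.analyticAt t
      have hp : AnalyticOnNhd ℝ (fun t : ℝ => b.eval (t : ℂ)) (Ioi s0) := by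
        intro t ht
        have h1 : AnalyticAt ℝ (fun z : ℂ => b.eval z) (t : ℂ) := by
          have h2 : AnalyticAt ℂ (fun z : ℂ => Polynomial.aeval z b) (t : ℂ) :=
            AnalyticAt.aeval_polynomial analyticAt_id b
          have h3 := h2.restrictScalars (𝕜 := ℝ)
          refine h3.congr (Eventually.of_forall fun z => ?_)
          simp only [Polynomial.coe_aeval_eq_eval]
        exact h1.comp (hc t ht)
      refine (hp.mul (hana g hg)).sub ?_
      refine Finset.analyticOnNhd_fun_sum S fun m _ => ?_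
      refine (hc.pow m).mul ?_
      intro t ht
      have h1 : AnalyticAt ℝ (TT f U (A m g)) (t + 1) := hana _ (hA m g hg) _ (by
        simp only [mem_Ioi] at ht ⊢
        linarith)
      exact h1.comp_of_eq (analyticAt_id.add analyticAt_const) rfl
    · simp only [mem_Ioi]
      have := le_max_right M s0
      linarith
    · have h1 : Ioi M ∈ 𝓝 (max M s0 + 1) := Ioi_mem_nhds (by
        have := le_max_left M s0
        linarith)
      filter_upwards [h1] with t ht
      simp only [Pi.zero_apply]
      rw [hfe t ht g hg, sub_self]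
  -- the right side is bounded
  have hR : ContinuousAt (fun t : ℝ => ∑ m ∈ S, (t : ℂ) ^ m * TT f U (A m g) (t + 1)) s0 := by
    refine tendsto_finset_sum _ fun m _ => ?_
    have h1 : ContinuousAt (TT f U (A m g)) (s0 + 1) :=
      (hana _ (hA m g hg) _ (by simp only [mem_Ioi]; linarith)).continuousAt
    have h2 : ContinuousAt (TT f U (A m g) ∘ fun t : ℝ => t + 1) s0 :=
      ContinuousAt.comp (x := s0) (f := fun t : ℝ => t + 1) h1
        (continuous_id.add continuous_const).continuousAt
    have h3 : ContinuousAt (fun t : ℝ => (t : ℂ) ^ m) s0 := by fun_prop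
    exact h3.mul h2
  have hB : ContinuousAt (fun t : ℝ => b.eval (t : ℂ)) s0 :=
    (b.continuous.comp Complex.continuous_ofReal).continuousAt
  have hT : Tendsto (TT f U g) (𝓝[>] s0) (𝓝 ((∑ m ∈ S, (s0 : ℂ) ^ m *
      TT f U (A m g) (s0 + 1)) / b.eval (s0 : ℂ))) := by
    have h1 := (hR.tendsto.div hB.tendsto hb0).mono_left (nhdsWithin_le_nhds (s := Ioi s0))
    refine h1.congr' ?_
    have h2 : ∀ᶠ t : ℝ in 𝓝[>] s0, b.eval (t : ℂ) ≠ 0 :=
      (hB.eventually_ne hb0).filter_mono nhdsWithin_le_nhds
    filter_upwards [h2, self_mem_nhdsWithin] with t ht ht0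
    have h3 := hfe2 ht0
    simp only [Pi.zero_apply] at h3
    rw [Pi.div_apply, ← sub_eq_zero.1 h3, mul_div_cancel_left₀ _ ht]
  have hbd : ∃ R : ℝ, ∀ᶠ t in 𝓝[>] s0, ‖TT f U g t‖ ≤ R := by
    refine ⟨‖(∑ m ∈ S, (s0 : ℂ) ^ m * TT f U (A m g) (s0 + 1)) / b.eval (s0 : ℂ)‖ + 1, ?_⟩
    have h1 := hT.norm.eventually (gt_mem_nhds (lt_add_one _))
    filter_upwards [h1] with t ht
    exact ht.le
  obtain ⟨R, hRb⟩ := hbd
  have hfr := hdiv R
  refine hfr ?_
  filter_upwards [hRb, self_mem_nhdsWithin] with t ht ht0 hlt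
  have hUm : MeasurableSet U := hf.op.measurableSet
  -- comparison
  have h1 : (∫ x in U ∩ closedBall p (ρ / 2), rv f x ^ t) ≤ ∫ x, Fs f U t x * φ x := by
    have hi : Integrable fun x => Fs f U t x * φ x := by
      have h1 : IntegrableOn (fun x => rv f x ^ t) (U ∩ closedBall p ρ) := hint t ht0
      have h2 : Integrable ((U ∩ closedBall p ρ).indicator fun x => rv f x ^ t) :=
        (integrable_indicator_iff (hUm.inter measurableSet_closedBall)).2 h1
      refine Integrable.mono' h2 ?_ (Eventually.of_forall fun x => ?_)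
      · refine Measurable.aestronglyMeasurable ?_
        exact ((((rv_cont f).measurable).pow_const t).indicator hUm).mul
          φ.continuous.measurable
      · rw [Real.norm_eq_abs, abs_of_nonneg (mul_nonneg (Fs_nonneg hf t x) φ.nonneg)]
        by_cases hx : x ∈ U
        · by_cases hxK : x ∈ closedBall p ρ
          · rw [indicator_of_mem (s := U ∩ closedBall p ρ) ⟨hx, hxK⟩, Fs_in hx]
            exact mul_le_of_le_one_right (Real.rpow_nonneg (hf.pos x hx).le _) φ.le_one
          · rw [indicator_of_notMem (s := U ∩ closedBall p ρ) (fun h => hxK h.2)]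
            have h3 : φ x = 0 := by
              by_contra h4
              exact hxK (φ.tsupport_eq.subset (subset_tsupport φ h4))
            rw [h3, mul_zero]
        · rw [indicator_of_notMem (s := U ∩ closedBall p ρ) (fun h => hx h.1), Fs_out hx,
            zero_mul]
    rw [← integral_indicator (hUm.inter measurableSet_closedBall)]
    refine integral_mono_of_nonneg (Eventually.of_forall fun x => ?_) hi
      (Eventually.of_forall fun x => ?_)
    · exact indicator_nonneg (fun y hy => Real.rpow_nonneg (hf.pos y hy.1).le _) x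
    · show (U ∩ closedBall p (ρ / 2)).indicator _ x ≤ Fs f U t x * φ x
      by_cases hx : x ∈ U ∩ closedBall p (ρ / 2)
      · rw [indicator_of_mem hx, Fs_in hx.1, φ.one_of_mem_closedBall hx.2, mul_one]
      · rw [indicator_of_notMem hx]
        exact mul_nonneg (Fs_nonneg hf t x) φ.nonneg
  have h2 : ‖TT f U g t‖ = ∫ x, Fs f U t x * φ x := by
    have h3 : TT f U g t = ((∫ x, Fs f U t x * φ x : ℝ) : ℂ) := by
      unfold TT
      rw [← integral_complex_ofReal]
      refine integral_congr_ae (Eventually.of_forall fun x => ?_)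
      simp only [hg']
      push_cast
      rfl
    rw [h3, Complex.norm_real, Real.norm_eq_abs, abs_of_nonneg]
    exact integral_nonneg fun x => mul_nonneg (Fs_nonneg hf t x) φ.nonneg
  linarith

end Pool.Agent.T6.H16.RA
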