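import Mathlib

set_option autoImplicit false

/-! Certificates. -/

namespace Pool.Agent.T6.H16.RA

open Module

variable {n : ℕ} {ι : Type} [Fintype ι] [DecidableEq ι]

/-- `m(S)`: the sum of the multiplicities of the forms in `S` -/
noncomputable def mu (α : ι → Fin n → ℝ) (m : ι → ℕ) (S : Submodule ℝ (Fin n → ℝ)) : ℕ :=
  open Classical in ∑ h, if α h ∈ S then m h else 0

/-- a relation with nonnegative coefficients modulo `S` between the forms in `G`, with a positive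
coefficient outside of `S` -/
def Cert (α : ι → Fin n → ℝ) (G S : Submodule ℝ (Fin n → ℝ)) : Prop :=
  ∃ l : ι → ℝ, (∀ h, 0 ≤ l h) ∧ (∀ h, l h ≠ 0 → α h ∈ G) ∧ ∑ h, l h • α h ∈ S ∧
    ∃ h, 0 < l h ∧ α h ∉ S

/-- the space spanned by a family of forms -/
def spn (α : ι → Fin n → ℝ) {k : ℕ} (b : Fin k → ι) : Submodule ℝ (Fin n → ℝ) :=
  Submodule.span ℝ (Set.range fun i => α (b i))

variable {α : ι → Fin n → ℝ} {m : ι → ℕ} {G : Submodule ℝ (Fin n → ℝ)}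

lemma mu_mono {S T : Submodule ℝ (Fin n → ℝ)} (h : S ≤ T) : mu α m S ≤ mu α m T := by
  classical
  unfold mu
  refine Finset.sum_le_sum fun x _ => ?_
  by_cases hx : α x ∈ S
  · rw [if_pos hx, if_pos (h hx)]
  · rw [if_neg hx]
    exact Nat.zero_le _

/-- comparison from a certificate -/
lemma cert_cmp {k : ℕ} (b : Fin (k + 1) → ι) (hc : Cert α G (spn α b)) :
    ∃ c : ℝ, 0 < c ∧ ∀ x : Fin n → ℝ, (∀ h, α h ∈ G → 0 < α h ⬝ᵥ x) → (∀ i, α (b i) ∈ G) →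
      (∀ i, α (b i) ⬝ᵥ x ≤ α (b (Fin.last k)) ⬝ᵥ x) →
      ∃ h, α h ∈ G ∧ α h ∉ spn α b ∧ α h ⬝ᵥ x ≤ c * (α (b (Fin.last k)) ⬝ᵥ x) := by
  obtain ⟨l, hl0, hlG, hS, h0, hl, hn⟩ := hc
  unfold spn at hS
  rw [Submodule.mem_span_range_iff_exists_fun] at hS
  obtain ⟨a, ha⟩ := hS
  refine ⟨(∑ i, |a i| + 1) / l h0, by positivity, fun x hx hb hle => ⟨h0, hlG h0 hl.ne', hn, ?_⟩⟩
  set t := α (b (Fin.last k)) ⬝ᵥ x with ht
  have ht0 : 0 < t := hx _ (hb _)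
  have h1 : (∑ h, l h • α h) ⬝ᵥ x = ∑ h, l h * (α h ⬝ᵥ x) := by
    rw [sum_dotProduct]
    exact Finset.sum_congr rfl fun h _ => smul_dotProduct _ _ _
  have h2 : (∑ i, a i • α (b i)) ⬝ᵥ x = ∑ i, a i * (α (b i) ⬝ᵥ x) := by
    rw [sum_dotProduct]
    exact Finset.sum_congr rfl fun h _ => smul_dotProduct _ _ _
  have h3 : l h0 * (α h0 ⬝ᵥ x) ≤ ∑ h, l h * (α h ⬝ᵥ x) := by
    refine Finset.single_le_sum (f := fun h => l h * (α h ⬝ᵥ x)) (fun h _ => ?_)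
      (Finset.mem_univ h0)
    by_cases hz : l h = 0
    · simp only [hz, zero_mul, le_refl]
    · exact mul_nonneg (hl0 h) (hx h (hlG h hz)).le
  have h4 : ∑ i, a i * (α (b i) ⬝ᵥ x) ≤ (∑ i, |a i|) * t := by
    rw [Finset.sum_mul]
    refine Finset.sum_le_sum fun i _ => ?_
    have h5 := hx _ (hb i)
    calc a i * (α (b i) ⬝ᵥ x) ≤ |a i| * (α (b i) ⬝ᵥ x) :=
          mul_le_mul_of_nonneg_right (le_abs_self _) h5.le
      _ ≤ |a i| * t := mul_le_mul_of_nonneg_left (hle i) (abs_nonneg _)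
  rw [div_mul_eq_mul_div, le_div_iff₀ hl]
  have h5 : ∑ h, l h * (α h ⬝ᵥ x) = ∑ i, a i * (α (b i) ⬝ᵥ x) := by
    rw [← h1, ← ha, h2]
  nlinarith

end Pool.Agent.T6.H16.RA
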