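import Pool.Agent.T6.H16.RA.B1

set_option autoImplicit false

/-! Integrability of products of powers of independent linear forms. -/

namespace Pool.Agent.T6.H16.RA

open MeasureTheory Set Metric Module

lemma one_dim {θ : ℝ} (h1 : θ < 1) (R : ℝ) :
    IntegrableOn (fun t : ℝ => |t| ^ (-θ)) (Icc (-R) R) := by
  have hpos : IntegrableOn (fun t : ℝ => |t| ^ (-θ)) (Ioc 0 R) := by
    rcases le_or_gt R 0 with h | h
    · rw [Ioc_eq_empty (not_lt.2 h)]
      exact integrableOn_empty
    have h2 := (intervalIntegral.intervalIntegrable_rpow' (a := 0) (b := R) (r := -θ)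
      (by linarith))
    rw [intervalIntegrable_iff_integrableOn_Ioc_of_le h.le] at h2
    refine h2.congr_fun ?_ measurableSet_Ioc
    intro t ht
    simp only
    rw [abs_of_pos ht.1]
  have hneg : IntegrableOn (fun t : ℝ => |t| ^ (-θ)) (Ico (-R) 0) := by
    have h2 := ((Measure.measurePreserving_neg (volume : Measure ℝ)).integrableOn_comp_preimage
      (Homeomorph.neg ℝ).measurableEmbedding (f := fun t : ℝ => |t| ^ (-θ)) (s := Ioc 0 R)).2 hpos
    have e : (Neg.neg ⁻¹' Ioc 0 R : Set ℝ) = Ico (-R) 0 := by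
      ext t
      simp only [mem_preimage, mem_Ioc, mem_Ico]
      constructor
      · rintro ⟨h3, h4⟩
        exact ⟨by linarith, by linarith⟩
      · rintro ⟨h3, h4⟩
        exact ⟨by linarith, by linarith⟩
    rw [e] at h2
    refine h2.congr_fun ?_ measurableSet_Ico
    intro t _
    simp only [Function.comp_apply, abs_neg]
  have h0 : IntegrableOn (fun t : ℝ => |t| ^ (-θ)) {0} := by
    rw [integrableOn_singleton_iff]
    right
    simp
  refine ((hneg.union h0).union hpos).mono_set ?_
  intro t ht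
  rcases lt_trichotomy t 0 with h | h | h
  · exact Or.inl (Or.inl ⟨ht.1, h⟩)
  · exact Or.inl (Or.inr h)
  · exact Or.inr ⟨h, ht.2⟩

/-- products over a basis -/
lemma basis_int {n : ℕ} {κ : Type} [Fintype κ] (a : Basis κ ℝ (Fin n → ℝ)) (s : κ → Prop)
    [DecidablePred s] {θ : ℝ} (h1 : θ < 1) (p : Fin n → ℝ) (ρ : ℝ) :
    IntegrableOn (fun x => ∏ k, if s k then |a k ⬝ᵥ x| ^ (-θ) else (1 : ℝ)) (closedBall p ρ) := by
  classical
  -- the linear equivalence
  let Φ₀ : (Fin n → ℝ) →ₗ[ℝ] (κ → ℝ) :=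
    { toFun := fun x k => a k ⬝ᵥ x
      map_add' := fun x y => by
        funext k
        exact dotProduct_add _ _ _
      map_smul' := fun c x => by
        funext k
        exact dotProduct_smul _ _ _ }
  have hinj : Function.Injective Φ₀ := by
    rw [injective_iff_map_eq_zero]
    intro x hx
    have h2 : ∀ v : Fin n → ℝ, v ⬝ᵥ x = 0 := by
      intro v
      rw [← a.sum_repr v, sum_dotProduct]
      refine Finset.sum_eq_zero fun k _ => ?_
      rw [smul_dotProduct]
      have := congrFun hx k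
      change a k ⬝ᵥ x = 0 at this
      rw [this, smul_zero]
    exact dotProduct_self_eq_zero.1 (h2 x)
  have hdim : finrank ℝ (Fin n → ℝ) = finrank ℝ (κ → ℝ) := by
    rw [finrank_eq_card_basis a, finrank_fintype_fun_eq_card]
  let Φ : (Fin n → ℝ) ≃L[ℝ] (κ → ℝ) :=
    (LinearEquiv.ofInjectiveOfFinrankEq Φ₀ hinj hdim).toContinuousLinearEquiv
  have hΦ : ∀ x k, Φ x k = a k ⬝ᵥ x := fun x k => rfl
  -- the bound
  obtain ⟨R, hR⟩ : ∃ R : ℝ, ∀ x ∈ closedBall p ρ, ∀ k, |a k ⬝ᵥ x| ≤ R := by
    obtain ⟨R, hR⟩ := ((isCompact_closedBall p ρ).image Φ.continuous).isBounded.exists_norm_le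
    refine ⟨R, fun x hx k => ?_⟩
    have h2 := hR _ ⟨x, hx, rfl⟩
    rw [← hΦ x k, ← Real.norm_eq_abs]
    exact (norm_le_pi_norm (Φ x) k).trans h2
  have hprod : Integrable (fun y : κ → ℝ => ∏ k, (Icc (-R) R).indicator
      (fun t => if s k then |t| ^ (-θ) else (1 : ℝ)) (y k)) := by
    refine Integrable.fintype_prod (f := fun k => (Icc (-R) R).indicator
      (fun t => if s k then |t| ^ (-θ) else (1 : ℝ))) (μ := fun _ => volume) fun k => ?_
    rw [integrable_indicator_iff measurableSet_Icc]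
    by_cases hs : s k
    · simp only [hs, if_true]
      exact one_dim h1 R
    · simp only [hs, if_false]
      exact integrableOn_const (by simp)
  obtain ⟨c, hc0, hct, hc⟩ : ∃ c : ENNReal, c ≠ 0 ∧ c ≠ ⊤ ∧
      Measure.map Φ (volume : Measure (Fin n → ℝ)) = c • (volume : Measure (κ → ℝ)) :=
    ⟨_, (Measure.addHaarScalarFactor_pos_of_isAddHaarMeasure _ _).ne' |> fun h => by
      simpa using h, ENNReal.coe_ne_top, Measure.isAddLeftInvariant_eq_smul _ _⟩
  have h2 : Integrable (fun y : κ → ℝ => ∏ k, (Icc (-R) R).indicator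
      (fun t => if s k then |t| ^ (-θ) else (1 : ℝ)) (y k))
      (Measure.map Φ (volume : Measure (Fin n → ℝ))) := by
    rw [hc]
    exact hprod.smul_measure hct
  have h3 := (integrable_map_equiv Φ.toHomeomorph.toMeasurableEquiv _).1 h2
  refine (h3.integrableOn (s := closedBall p ρ)).congr_fun ?_ measurableSet_closedBall
  intro x hx
  show ∏ k, (Icc (-R) R).indicator _ (Φ x k) = _
  refine Finset.prod_congr rfl fun k _ => ?_
  have h4 := hR x hx k
  rw [indicator_of_mem (by rw [hΦ]; exact abs_le.1 h4), hΦ]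

/-- products over an independent family -/
theorem indep_int {n r : ℕ} (v : Fin r → Fin n → ℝ) (hv : LinearIndependent ℝ v) {θ : ℝ}
    (h1 : θ < 1) (p : Fin n → ℝ) (ρ : ℝ) :
    IntegrableOn (fun x => ∏ i, |v i ⬝ᵥ x| ^ (-θ)) (closedBall p ρ) := by
  classical
  have hs : LinearIndepOn ℝ id (range v) := hv.linearIndepOn_id
  let a := Basis.extend hs
  haveI : Fintype (hs.extend (subset_univ (range v))) := FiniteDimensional.fintypeBasisIndex a
  have h2 := basis_int a (fun k => (k : Fin n → ℝ) ∈ range v) h1 p ρ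
  refine h2.congr_fun ?_ measurableSet_closedBall
  intro x _
  simp only
  let φ : Fin r → hs.extend (subset_univ (range v)) := fun i =>
    ⟨v i, Basis.subset_extend hs ⟨i, rfl⟩⟩
  have hφ : Function.Injective φ := fun i j hij => hv.injective (congrArg Subtype.val hij)
  rw [← Finset.prod_subset (Finset.subset_univ (Finset.univ.image φ))]
  · rw [Finset.prod_image fun i _ j _ h => hφ h]
    refine Finset.prod_congr rfl fun i _ => ?_
    rw [if_pos ⟨i, rfl⟩]
    show |(Basis.extend hs) (φ i) ⬝ᵥ x| ^ (-θ) = _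
    rw [Basis.extend_apply_self]
  · intro k _ hk
    rw [if_neg]
    rintro ⟨i, hi⟩
    exact hk (Finset.mem_image.2 ⟨i, Finset.mem_univ _, Subtype.ext hi⟩)

end Pool.Agent.T6.H16.RA
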