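import Pool.Agent.T6.H16.RA.A5
import Pool.Agent.T6.H16.RA.B2

set_option autoImplicit false

/-! Chambers. -/

namespace Pool.Agent.T6.H16.RA

open MvPolynomial MeasureTheory Set Metric Module

variable {n : ℕ} {ι : Type} [Fintype ι] [DecidableEq ι]

/-- the chamber where all forms are positive -/
def Ch (α : ι → Fin n → ℝ) : Set (Fin n → ℝ) := {x | ∀ h, 0 < α h ⬝ᵥ x}

lemma dot_cont (v : Fin n → ℝ) : Continuous fun x : Fin n → ℝ => v ⬝ᵥ x := by
  unfold dotProduct
  fun_prop

lemma Ch_open (α : ι → Fin n → ℝ) : IsOpen (Ch α) := by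
  have e : Ch α = ⋂ h, {x | 0 < α h ⬝ᵥ x} := by
    ext x
    simp [Ch]
  rw [e]
  exact isOpen_iInter_of_finite fun h => isOpen_lt continuous_const (dot_cont _)

end Pool.Agent.T6.H16.RA
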