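import Pool.Agent.T6.H16.RA.B3

set_option autoImplicit false

/-! Projections. -/

namespace Pool.Agent.T6.H16.RA

open MvPolynomial MeasureTheory Set Metric Module Filter Topology

variable {n : ℕ} {ι : Type} [Fintype ι] [DecidableEq ι]

/-- the common zeros of the forms in `G` -/
def zer (G : Submodule ℝ (Fin n → ℝ)) : Submodule ℝ (Fin n → ℝ) where
  carrier := {x | ∀ v ∈ G, v ⬝ᵥ x = 0}
  add_mem' := fun {x y} hx hy v hv => by rw [dotProduct_add, hx v hv, hy v hv, add_zero]
  zero_mem' := fun v _ => dotProduct_zero v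
  smul_mem' := fun c x hx v hv => by rw [dotProduct_smul, hx v hv, smul_zero]

lemma isCompl_zer (G : Submodule ℝ (Fin n → ℝ)) : IsCompl G (zer G) := by
  have hdis : Disjoint G (zer G) := by
    rw [Submodule.disjoint_def]
    intro x hx hz
    exact dotProduct_self_eq_zero.1 (hz x hx)
  refine (Submodule.isCompl_iff_disjoint _ _ ?_).mpr hdis
  let φ : (Fin n → ℝ) →ₗ[ℝ] Module.Dual ℝ G :=
    { toFun := fun x =>
        { toFun := fun g => (g : Fin n → ℝ) ⬝ᵥ x
          map_add' := fun g h => by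
            rw [Submodule.coe_add, add_dotProduct]
          map_smul' := fun c g => by
            rw [Submodule.coe_smul, smul_dotProduct]
            rfl }
      map_add' := fun x y => by
        refine LinearMap.ext fun g => ?_
        exact dotProduct_add (g : Fin n → ℝ) x y
      map_smul' := fun c x => by
        refine LinearMap.ext fun g => ?_
        exact dotProduct_smul c (g : Fin n → ℝ) x }
  have h1 := LinearMap.finrank_range_add_finrank_ker φ
  have h2 : finrank ℝ (LinearMap.range φ) ≤ finrank ℝ G := by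
    refine (Submodule.finrank_le _).trans ?_
    rw [Subspace.dual_finrank_eq]
  have h3 : LinearMap.ker φ ≤ zer G := by
    intro x hx v hv
    have h4 := LinearMap.congr_fun (LinearMap.mem_ker.1 hx) ⟨v, hv⟩
    exact h4
  have h4 := Submodule.finrank_mono h3
  omega

/-- the projection and the scalings -/
theorem exists_proj (G : Submodule ℝ (Fin n → ℝ)) :
    ∃ P : (Fin n → ℝ) →ₗ[ℝ] (Fin n → ℝ), (∀ v ∈ G, ∀ x, v ⬝ᵥ P x = v ⬝ᵥ x) ∧
      (∀ x, P (P x) = P x) ∧
      ∀ c : ℝ, LinearMap.det (LinearMap.id - (1 - c) • P) = c ^ finrank ℝ G := by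
  set e := G.prodEquivOfIsCompl (zer G) (isCompl_zer G) with he
  have he' : ∀ y : G × zer G, e y = (y.1 : Fin n → ℝ) + y.2 := fun y => rfl
  set P : (Fin n → ℝ) →ₗ[ℝ] (Fin n → ℝ) := (e : (G × zer G) →ₗ[ℝ] (Fin n → ℝ)) ∘ₗ
    (LinearMap.prodMap LinearMap.id 0) ∘ₗ (e.symm : (Fin n → ℝ) →ₗ[ℝ] (G × zer G)) with hP
  have hPe : ∀ y, P (e y) = (y.1 : Fin n → ℝ) := by
    intro y
    have h1 : P (e y) = e (LinearMap.prodMap LinearMap.id 0 (e.symm (e y))) := rfl
    rw [h1, LinearEquiv.symm_apply_apply, LinearMap.prodMap_apply, he']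
    simp
  refine ⟨P, ?_, ?_, ?_⟩
  · intro v hv x
    obtain ⟨y, rfl⟩ := e.surjective x
    rw [hPe, he', dotProduct_add, y.2.2 v hv, add_zero]
  · intro x
    obtain ⟨y, rfl⟩ := e.surjective x
    rw [hPe]
    have h2 := hPe (y.1, 0)
    rw [he'] at h2
    simpa using h2
  · intro c
    have h1 : LinearMap.id - (1 - c) • P =
        (e : (G × zer G) →ₗ[ℝ] (Fin n → ℝ)) ∘ₗ
          (LinearMap.prodMap (c • LinearMap.id) LinearMap.id) ∘ₗ
          (e.symm : (Fin n → ℝ) →ₗ[ℝ] (G × zer G)) := by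
      refine LinearMap.ext fun x => ?_
      obtain ⟨y, rfl⟩ := e.surjective x
      have h2 : ((e : (G × zer G) →ₗ[ℝ] (Fin n → ℝ)) ∘ₗ
          (LinearMap.prodMap (c • LinearMap.id) LinearMap.id) ∘ₗ
          (e.symm : (Fin n → ℝ) →ₗ[ℝ] (G × zer G))) (e y) =
          e (LinearMap.prodMap (c • LinearMap.id) LinearMap.id (e.symm (e y))) := rfl
      rw [h2, LinearEquiv.symm_apply_apply, LinearMap.prodMap_apply, LinearMap.sub_apply,
        LinearMap.smul_apply, hPe, LinearMap.id_apply, he', he', LinearMap.smul_apply,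
        LinearMap.id_apply, LinearMap.id_apply, Submodule.coe_smul]
      module
    rw [h1, LinearMap.det_conj, LinearMap.det_prodMap, LinearMap.det_smul, LinearMap.det_id,
      LinearMap.det_id, mul_one, mul_one]

end Pool.Agent.T6.H16.RA
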