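import Pool.Agent.T6.H16.RA.B4

set_option autoImplicit false

/-! The criterion. -/

namespace Pool.Agent.T6.H16.RA

open MvPolynomial MeasureTheory Set Metric Module Filter Topology
open Pool.Agent.H628R4.TP (weylS IsBFunction)

variable {n : ℕ} {ι : Type} [Fintype ι] [DecidableEq ι]

/-- Gordan's alternative modulo `S` -/
theorem face_or_cert (α : ι → Fin n → ℝ) (G S : Submodule ℝ (Fin n → ℝ)) :
    (∃ x : Fin n → ℝ, (∀ v ∈ S, v ⬝ᵥ x = 0) ∧ ∀ h, α h ∈ G → α h ∉ S → 0 < α h ⬝ᵥ x) ∨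
      Cert α G S := by
  classical
  let J := {h // α h ∈ G ∧ α h ∉ S}
  let L : (J → ℝ) →ₗ[ℝ] (Fin n → ℝ) := Fintype.linearCombination ℝ (fun j : J => α j)
  have hLc : Continuous L := LinearMap.continuous_of_finiteDimensional L
  by_cases hd : Disjoint (L '' stdSimplex ℝ J) (S : Set (Fin n → ℝ))
  · left
    obtain ⟨f, u, v, h1, h2, h3⟩ := geometric_hahn_banach_compact_closed
      ((convex_stdSimplex ℝ J).linear_image L) ((isCompact_stdSimplex ℝ J).image hLc) S.convex
      (Submodule.closed_of_finiteDimensional S) hd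
    have hv : v < 0 := by
      have := h3 0 S.zero_mem
      rwa [map_zero] at this
    have hS : ∀ s ∈ S, f s = 0 := by
      intro s hs
      by_contra h0
      have := h3 ((v / f s) • s) (S.smul_mem _ hs)
      rw [map_smul, smul_eq_mul, div_mul_cancel₀ _ h0] at this
      exact lt_irrefl _ this
    have hf : ∀ w : Fin n → ℝ, w ⬝ᵥ (fun i => -f (Pi.single i 1)) = - f w := by
      intro w
      conv_rhs => rw [pi_eq_sum_univ' w]
      rw [map_sum, ← Finset.sum_neg_distrib]
      refine Finset.sum_congr rfl fun i _ => ?_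
      rw [map_smul, smul_eq_mul, mul_neg]
    refine ⟨fun i => -f (Pi.single i 1), fun s hs => ?_, fun h hG hn => ?_⟩
    · rw [hf, hS s hs, neg_zero]
    · rw [hf]
      have h4 := h1 (α h) ⟨Pi.single (⟨h, hG, hn⟩ : J) 1, single_mem_stdSimplex ℝ _, by
        show Fintype.linearCombination ℝ (fun j : J => α j) _ = _
        rw [Fintype.linearCombination_apply_single, one_smul]⟩
      linarith
  · right
    rw [Set.not_disjoint_iff] at hd
    obtain ⟨_, ⟨y, hy, rfl⟩, hS⟩ := hd
    have hy0 : ∀ j, 0 ≤ y j := hy.1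
    have hy1 : ∑ j, y j = 1 := hy.2
    let l : ι → ℝ := fun h => if hh : α h ∈ G ∧ α h ∉ S then y ⟨h, hh⟩ else 0
    have hl : ∀ j : J, l j = y j := fun j => dif_pos j.2
    have hl0 : ∀ h, ¬ (α h ∈ G ∧ α h ∉ S) → l h = 0 := fun h hh => dif_neg hh
    refine ⟨l, fun h => ?_, fun h hh => ?_, ?_, ?_⟩
    · by_cases hh : α h ∈ G ∧ α h ∉ S
      · rw [hl ⟨h, hh⟩]
        exact hy0 _
      · rw [hl0 h hh]
    · by_contra h1
      exact hh (hl0 h fun h2 => h1 h2.1)
    · have e : ∑ h, l h • α h = L y := by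
        show _ = Fintype.linearCombination ℝ (fun j : J => α j) y
        rw [Fintype.linearCombination_apply]
        have h1 : ∑ j : J, y j • α j = ∑ j : J, l j • α j :=
          Finset.sum_congr rfl fun j _ => by rw [hl j]
        rw [h1, ← Finset.sum_subtype (Finset.univ.filter fun h => α h ∈ G ∧ α h ∉ S)
          (fun h => by simp) (fun h => l h • α h), Finset.sum_filter]
        refine Finset.sum_congr rfl fun h _ => ?_
        split_ifs with hh
        · rfl
        · rw [hl0 h hh, zero_smul]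
      rw [e]
      exact hS
    · by_contra h0
      push Not at h0
      have h1 : ∑ j, y j ≤ 0 := Finset.sum_nonpos fun j _ => by
        by_contra h2
        have h3 := h0 j (by rw [hl j]; exact not_le.1 h2)
        exact j.2.2 h3
      rw [hy1] at h1
      linarith

/-- the span of the forms in `G` which vanish at `x` -/
def atp (α : ι → Fin n → ℝ) (G : Submodule ℝ (Fin n → ℝ)) (x : Fin n → ℝ) :
    Submodule ℝ (Fin n → ℝ) :=
  Submodule.span ℝ {v | v ∈ G ∧ v ⬝ᵥ x = 0 ∧ ∃ h, v = α h}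

lemma isBFunction_C_mul {f : MvPolynomial (Fin n) ℂ} {b : Polynomial ℂ} (hb : IsBFunction f b)
    {c : ℂ} (hc : c ≠ 0) : IsBFunction (C c * f) b := by
  obtain ⟨P, hP⟩ := hb
  refine ⟨P.mapRange (fun Q => c⁻¹ • Q) (smul_zero _), fun s => ?_⟩
  rw [Finsupp.sum_mapRange_index (fun m => by simp)]
  have h1 := hP s
  have e : ∀ (k : ℕ), (C c * f) ^ k = (c ^ k) • f ^ k := by
    intro k
    rw [mul_pow, ← map_pow, C_mul']
  rw [e, e, mul_smul_comm, h1, Finsupp.sum, Finsupp.sum, Finset.smul_sum]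
  refine Finset.sum_congr rfl fun k _ => ?_
  show c ^ s • ((s : ℂ) ^ k • (P k : Module.End ℂ (MvPolynomial (Fin n) ℂ)) (f ^ (s + 1))) =
    (s : ℂ) ^ k • (c⁻¹ • (P k : Module.End ℂ (MvPolynomial (Fin n) ℂ))) (c ^ (s + 1) • f ^ (s + 1))
  rw [LinearMap.smul_apply, map_smul, smul_smul, smul_smul, smul_smul]
  congr 1
  rw [pow_succ]
  field_simp

lemma exists_generic (α : ι → Fin n → ℝ) (G : Submodule ℝ (Fin n → ℝ)) :
    ∃ p : Fin n → ℝ, (∀ v ∈ G, v ⬝ᵥ p = 0) ∧ ∀ h, α h ∉ G → α h ⬝ᵥ p ≠ 0 := by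
  classical
  -- the space of the `x` which are zero on `G`
  obtain ⟨P, hP1, hP2, -⟩ := exists_proj G
  have hker : ∀ x, ∀ v ∈ G, v ⬝ᵥ (x - P x) = 0 := by
    intro x v hv
    rw [dotProduct_sub, hP1 v hv, sub_self]
  have hex : ∀ h, α h ∉ G → ∃ x ∈ zer G, α h ⬝ᵥ x ≠ 0 := by
    intro h hh
    by_contra hcon
    push Not at hcon
    apply hh
    -- `α h` is orthogonal to the zeros of `G`
    obtain ⟨y, hy⟩ := (G.prodEquivOfIsCompl (zer G) (isCompl_zer G)).surjective (α h)
    have hy' : α h = (y.1 : Fin n → ℝ) + y.2 := hy.symm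
    have h1 := hcon _ y.2.2
    rw [hy', add_dotProduct, y.2.2 _ y.1.2, zero_add] at h1
    have h2 := dotProduct_self_eq_zero.1 h1
    rw [hy', h2, add_zero]
    exact y.1.2
  let f : {h // α h ∉ G} → Module.Dual ℝ (Fin n → ℝ) := fun h =>
    { toFun := fun x => α h ⬝ᵥ x
      map_add' := fun x y => dotProduct_add (α h) x y
      map_smul' := fun c x => dotProduct_smul c (α h) x }
  obtain ⟨p, hp, hp'⟩ := Module.Dual.exists_forall_mem_ne_zero_of_forall_exists (zer G) f
    (fun h => hex h.1 h.2)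
  exact ⟨p, hp, fun h hh => hp' ⟨h, hh⟩⟩

end Pool.Agent.T6.H16.RA
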