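import Pool.Agent.T6.H16.RA.B5

set_option autoImplicit false

/-! Chambers of irreducible arrangements whose closure meets a given hyperplane only in the centre. -/

namespace Pool.Agent.T6.H16.RA

open Module Filter Topology

variable {n : ℕ} {ι : Type} [Fintype ι] [DecidableEq ι] (α : ι → Fin n → ℝ)

/-- the span of the forms in `A` -/
def sp (A : Finset ι) : Submodule ℝ (Fin n → ℝ) := Submodule.span ℝ (α '' A)

/-- the rank -/
noncomputable def rk (A : Finset ι) : ℕ := finrank ℝ (sp α A)

/-- connected, after the contraction of `F` -/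
def Conn (F E : Finset ι) : Prop :=
  ∀ A B : Finset ι, A.Nonempty → B.Nonempty → Disjoint A B → A ∪ B = E →
    rk α (E ∪ F) + rk α F < rk α (A ∪ F) + rk α (B ∪ F)

variable {α}

lemma sp_mono {A B : Finset ι} (h : A ⊆ B) : sp α A ≤ sp α B :=
  Submodule.span_mono (Set.image_mono (by exact_mod_cast h))

lemma rk_mono {A B : Finset ι} (h : A ⊆ B) : rk α A ≤ rk α B := Submodule.finrank_mono (sp_mono h)

lemma sp_union (A B : Finset ι) : sp α (A ∪ B) = sp α A ⊔ sp α B := by
  unfold sp
  rw [Finset.coe_union, Set.image_union, Submodule.span_union]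

lemma rk_sub (A B : Finset ι) : rk α (A ∪ B) + rk α (A ∩ B) ≤ rk α A + rk α B := by
  unfold rk
  rw [sp_union, ← Submodule.finrank_sup_add_finrank_inf_eq (sp α A) (sp α B)]
  have h1 : sp α (A ∩ B) ≤ sp α A ⊓ sp α B :=
    le_inf (sp_mono Finset.inter_subset_left) (sp_mono Finset.inter_subset_right)
  have := Submodule.finrank_mono h1
  omega

lemma mem_sp {A : Finset ι} {g : ι} (h : g ∈ A) : α g ∈ sp α A :=
  Submodule.subset_span ⟨g, by exact_mod_cast h, rfl⟩

lemma sp_single (g : ι) : sp α {g} = Submodule.span ℝ {α g} := by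
  unfold sp
  rw [Finset.coe_singleton, Set.image_singleton]

lemma rk_single_le (g : ι) : rk α {g} ≤ 1 := by
  unfold rk
  rw [sp_single]
  by_cases h : α g = 0
  · rw [h, Submodule.span_zero_singleton, finrank_bot]
    exact Nat.zero_le _
  · rw [finrank_span_singleton h]

lemma rk_le_card (A : Finset ι) : rk α A ≤ A.card := by
  induction A using Finset.induction_on with
  | empty =>
    unfold rk sp
    simp
  | insert a s ha ih =>
    rw [Finset.card_insert_of_notMem ha, Finset.insert_eq]
    have h1 := rk_sub (α := α) {a} s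
    have h2 := rk_single_le (α := α) a
    omega

lemma rk_union_single (g : ι) (F : Finset ι) : rk α ({g} ∪ F) ≤ rk α F + 1 := by
  have h1 := rk_sub (α := α) {g} F
  have h2 := rk_single_le (α := α) g
  omega

lemma mem_sp_of_rk {A : Finset ι} {g : ι} (h : rk α ({g} ∪ A) ≤ rk α A) : α g ∈ sp α A := by
  have h1 : sp α A ≤ sp α ({g} ∪ A) := sp_mono Finset.subset_union_right
  have h2 : sp α A = sp α ({g} ∪ A) :=
    Submodule.eq_of_le_of_finrank_le h1 h
  rw [h2]
  exact mem_sp (Finset.mem_union_left _ (Finset.mem_singleton_self g))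

/-- **Uncrossing.** -/
theorem uncross {E' F : Finset ι} {e : ι} (he : e ∉ E') (hE : Conn α F (insert e E'))
    (h1 : ¬ Conn α F E') : Conn α (insert e F) E' := by
  by_contra h2
  unfold Conn at h1 h2
  push Not at h1 h2
  obtain ⟨A, B, hA, hB, hAB, hABE, h1⟩ := h1
  obtain ⟨C, D, hC, hD, hCD, hCDE, h2⟩ := h2
  have key : ∀ C D : Finset ι, Disjoint C D → C ∪ D = E' →
      rk α (C ∪ insert e F) + rk α (D ∪ insert e F) ≤ rk α (E' ∪ insert e F) + rk α (insert e F) →
      (A ∩ C).Nonempty → (B ∩ D).Nonempty → False := by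
    intro C D hCD hCDE h2 h3 h4
    have heA : e ∉ A := fun h => he (hABE ▸ Finset.mem_union_left _ h)
    have heB : e ∉ B := fun h => he (hABE ▸ Finset.mem_union_right _ h)
    have s1 := rk_sub (α := α) (A ∪ F) (C ∪ insert e F)
    have s2 := rk_sub (α := α) (B ∪ F) (D ∪ insert e F)
    have e1 : (A ∪ F) ∩ (C ∪ insert e F) = (A ∩ C) ∪ F := by
      ext g
      simp only [Finset.mem_inter, Finset.mem_union, Finset.mem_insert]
      constructor
      · rintro ⟨h5 | h5, h6 | h6 | h6⟩
        · exact Or.inl ⟨h5, h6⟩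
        · exact absurd (h6 ▸ h5) heA
        · exact Or.inr h6
        · exact Or.inr h5
        · exact Or.inr h5
        · exact Or.inr h5
      · rintro (⟨h5, h6⟩ | h5)
        · exact ⟨Or.inl h5, Or.inl h6⟩
        · exact ⟨Or.inr h5, Or.inr (Or.inr h5)⟩
    have e2 : (B ∪ F) ∩ (D ∪ insert e F) = (B ∩ D) ∪ F := by
      ext g
      simp only [Finset.mem_inter, Finset.mem_union, Finset.mem_insert]
      constructor
      · rintro ⟨h5 | h5, h6 | h6 | h6⟩
        · exact Or.inl ⟨h5, h6⟩
        · exact absurd (h6 ▸ h5) heB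
        · exact Or.inr h6
        · exact Or.inr h5
        · exact Or.inr h5
        · exact Or.inr h5
      · rintro (⟨h5, h6⟩ | h5)
        · exact ⟨Or.inl h5, Or.inl h6⟩
        · exact ⟨Or.inr h5, Or.inr (Or.inr h5)⟩
    have e3 : (A ∪ F) ∪ (C ∪ insert e F) = insert e (A ∪ C) ∪ F := by
      ext g
      simp only [Finset.mem_union, Finset.mem_insert]
      tauto
    have e4 : (B ∪ F) ∪ (D ∪ insert e F) = insert e (B ∪ D) ∪ F := by
      ext g
      simp only [Finset.mem_union, Finset.mem_insert]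
      tauto
    rw [e1, e3] at s1
    rw [e2, e4] at s2
    have hmem : ∀ g, g ∈ E' ↔ g ∈ A ∨ g ∈ B := fun g => by rw [← hABE, Finset.mem_union]
    have hmem' : ∀ g, g ∈ E' ↔ g ∈ C ∨ g ∈ D := fun g => by rw [← hCDE, Finset.mem_union]
    have hdAB : ∀ g, g ∈ A → g ∈ B → False := fun g h5 h6 => Finset.disjoint_left.1 hAB h5 h6
    have hdCD : ∀ g, g ∈ C → g ∈ D → False := fun g h5 h6 => Finset.disjoint_left.1 hCD h5 h6
    have c1 := hE (A ∩ C) (insert e (B ∪ D)) h3 (Finset.insert_nonempty _ _) (by
      rw [Finset.disjoint_left]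
      intro g hg hg'
      rw [Finset.mem_inter] at hg
      rw [Finset.mem_insert, Finset.mem_union] at hg'
      rcases hg' with h5 | h5 | h5
      · exact heA (h5 ▸ hg.1)
      · exact hdAB g hg.1 h5
      · exact hdCD g hg.2 h5) (by
      ext g
      simp only [Finset.mem_inter, Finset.mem_union, Finset.mem_insert]
      have h5 := hmem g
      have h6 := hmem' g
      tauto)
    have c2 := hE (B ∩ D) (insert e (A ∪ C)) h4 (Finset.insert_nonempty _ _) (by
      rw [Finset.disjoint_left]
      intro g hg hg'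
      rw [Finset.mem_inter] at hg
      rw [Finset.mem_insert, Finset.mem_union] at hg'
      rcases hg' with h5 | h5 | h5
      · exact heB (h5 ▸ hg.1)
      · exact hdAB g h5 hg.1
      · exact hdCD g h5 hg.2) (by
      ext g
      simp only [Finset.mem_inter, Finset.mem_union, Finset.mem_insert]
      have h5 := hmem g
      have h6 := hmem' g
      tauto)
    have e5 : E' ∪ insert e F = insert e E' ∪ F := by
      ext g
      simp only [Finset.mem_union, Finset.mem_insert]
      tauto
    rw [e5] at h2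
    have m1 : rk α (E' ∪ F) ≤ rk α (insert e E' ∪ F) :=
      rk_mono (Finset.union_subset_union_left (Finset.subset_insert _ _))
    have m2 : rk α (insert e F) ≤ rk α F + 1 := by
      rw [Finset.insert_eq]
      exact rk_union_single e F
    omega
  have k1 : ¬ ((A ∩ C).Nonempty ∧ (B ∩ D).Nonempty) := fun h => key C D hCD hCDE h2 h.1 h.2
  have k2 : ¬ ((A ∩ D).Nonempty ∧ (B ∩ C).Nonempty) := fun h =>
    key D C hCD.symm (by rw [Finset.union_comm]; exact hCDE) (by omega) h.1 h.2
  obtain ⟨a, ha⟩ := hA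
  obtain ⟨b, hb⟩ := hB
  obtain ⟨c, hc⟩ := hC
  obtain ⟨d, hd⟩ := hD
  have ha' : a ∈ C ∨ a ∈ D := by
    rw [← Finset.mem_union, hCDE, ← hABE, Finset.mem_union]
    exact Or.inl ha
  have hb' : b ∈ C ∨ b ∈ D := by
    rw [← Finset.mem_union, hCDE, ← hABE, Finset.mem_union]
    exact Or.inr hb
  have hc' : c ∈ A ∨ c ∈ B := by
    rw [← Finset.mem_union, hABE, ← hCDE, Finset.mem_union]
    exact Or.inl hc
  have hd' : d ∈ A ∨ d ∈ B := by
    rw [← Finset.mem_union, hABE, ← hCDE, Finset.mem_union]
    exact Or.inr hd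
  have n1 : ∀ {X Y : Finset ι} {g : ι}, g ∈ X → g ∈ Y → (X ∩ Y).Nonempty := fun h5 h6 =>
    ⟨_, Finset.mem_inter.2 ⟨h5, h6⟩⟩
  rcases ha' with ha' | ha'
  · -- `A ∩ C` is not empty, so `B ∩ D` is empty
    have h5 := n1 ha ha'
    rcases hb' with hb' | hb'
    · have h6 := n1 hb hb'
      rcases hd' with hd' | hd'
      · exact k2 ⟨n1 hd' hd, h6⟩
      · exact k1 ⟨h5, n1 hd' hd⟩
    · exact k1 ⟨h5, n1 hb hb'⟩
  · have h5 := n1 ha ha'
    rcases hb' with hb' | hb'
    · exact k2 ⟨h5, n1 hb hb'⟩
    · have h6 := n1 hb hb'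
      rcases hc' with hc' | hc'
      · exact k1 ⟨n1 hc' hc, h6⟩
      · exact k2 ⟨h5, n1 hc' hc⟩

/-- small perturbations keep the signs -/
lemma perturb (E : Finset ι) {x z : Fin n → ℝ} (hx : ∀ g ∈ E, α g ⬝ᵥ x ≠ 0) {e : ι}
    (hz : α e ⬝ᵥ z ≠ 0) : ∃ δ : ℝ, 0 < δ ∧ (∀ g ∈ E, 0 < (α g ⬝ᵥ x) * (α g ⬝ᵥ (x + δ • z))) ∧
      α e ⬝ᵥ (x + δ • z) ≠ 0 := by
  have hc : ∀ g, Continuous fun δ : ℝ => α g ⬝ᵥ (x + δ • z) := fun g =>
    (dot_cont (α g)).comp (continuous_const.add (continuous_id.smul continuous_const))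
  have h1 : ∀ᶠ δ : ℝ in 𝓝[>] 0, ∀ g, g ∈ E → 0 < (α g ⬝ᵥ x) * (α g ⬝ᵥ (x + δ • z)) := by
    rw [eventually_all]
    intro g
    by_cases hg : g ∈ E
    · have h2 : 0 < (α g ⬝ᵥ x) * (α g ⬝ᵥ (x + (0 : ℝ) • z)) := by
        rw [zero_smul, add_zero]
        exact mul_self_pos.2 (hx g hg)
      have h3 := (((continuous_const (y := α g ⬝ᵥ x)).mul (hc g)).tendsto 0).eventually
        (lt_mem_nhds h2)
      exact (h3.filter_mono nhdsWithin_le_nhds).mono fun δ h4 _ => h4
    · exact Eventually.of_forall fun δ h2 => absurd h2 hg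
  have h2 : ∀ᶠ δ : ℝ in 𝓝[>] 0, α e ⬝ᵥ (x + δ • z) ≠ 0 := by
    by_cases h0 : α e ⬝ᵥ x = 0
    · filter_upwards [self_mem_nhdsWithin] with δ hδ
      rw [dotProduct_add, h0, zero_add, dotProduct_smul, smul_eq_mul]
      exact mul_ne_zero (ne_of_gt hδ) hz
    · have h3 : α e ⬝ᵥ (x + (0 : ℝ) • z) ≠ 0 := by
        rw [zero_smul, add_zero]
        exact h0
      exact (((hc e).tendsto 0).eventually_ne h3).filter_mono nhdsWithin_le_nhds
  obtain ⟨δ, ⟨h3, h4⟩, h5⟩ := ((h1.and h2).and self_mem_nhdsWithin).exists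
  exact ⟨δ, h5, h3, h4⟩

lemma same_sign {a b c : ℝ} (h : 0 < a * b) (h1 : 0 ≤ c * b) : 0 ≤ c * a := by
  rcases lt_trichotomy a 0 with ha | ha | ha
  · have hb : b < 0 := by
      by_contra hb
      have := mul_nonpos_of_nonpos_of_nonneg ha.le (not_lt.1 hb)
      linarith
    have hc : c ≤ 0 := by
      by_contra hc
      have := mul_neg_of_pos_of_neg (not_le.1 hc) hb
      linarith
    exact mul_nonneg_of_nonpos_of_nonpos hc ha.le
  · rw [ha, mul_zero]
  · have hb : 0 < b := by
      by_contra hb
      have := mul_nonpos_of_nonneg_of_nonpos ha.le (not_lt.1 hb)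
      linarith
    have hc : 0 ≤ c := by
      by_contra hc
      have := mul_neg_of_neg_of_pos (not_le.1 hc) hb
      linarith
    exact mul_nonneg hc ha.le

/-- **Chambers which meet the hyperplane `h` only in the centre.** -/
theorem bounded_chamber : ∀ (N : ℕ) (E F : Finset ι) (h : ι), E.card = N → h ∈ E → Conn α F E →
    (∀ g ∈ E, α g ∉ sp α F) →
    ∃ x : Fin n → ℝ, (∀ g ∈ F, α g ⬝ᵥ x = 0) ∧ (∀ g ∈ E, α g ⬝ᵥ x ≠ 0) ∧
      ∀ y : Fin n → ℝ, (∀ g ∈ F, α g ⬝ᵥ y = 0) → (∀ g ∈ E, 0 ≤ (α g ⬝ᵥ y) * (α g ⬝ᵥ x)) →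
        α h ⬝ᵥ y = 0 → ∀ g ∈ E, α g ⬝ᵥ y = 0 := by
  intro N
  induction N with
  | zero =>
    intro E F h hN hh
    rw [Finset.card_eq_zero] at hN
    rw [hN] at hh
    exact absurd hh (Finset.notMem_empty _)
  | succ N ih =>
    intro E F h hN hh hC h0
    obtain ⟨z, hz1, hz2⟩ := exists_generic α (sp α F)
    have hzF : ∀ g ∈ F, α g ⬝ᵥ z = 0 := fun g hg => hz1 _ (mem_sp hg)
    by_cases hE : ∃ e ∈ E, e ≠ h
    · obtain ⟨e, he, heh⟩ := hE
      set E' := E.erase e with hE'
      have heE' : e ∉ E' := Finset.notMem_erase e E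
      have hins : insert e E' = E := Finset.insert_erase he
      have hcard : E'.card = N := by
        rw [hE', Finset.card_erase_of_mem he, hN]
        rfl
      have hhE' : h ∈ E' := Finset.mem_erase.2 ⟨heh.symm, hh⟩
      have hsub : ∀ g ∈ E', g ∈ E := fun g hg => Finset.mem_of_mem_erase hg
      have hze : α e ⬝ᵥ z ≠ 0 := hz2 e (h0 e he)
      -- `α e` is in the span of the others
      have hesp : α e ∈ sp α (E' ∪ F) := by
        refine mem_sp_of_rk ?_
        have h1 := hC {e} E' (Finset.singleton_nonempty e) ⟨h, hhE'⟩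
          (Finset.disjoint_singleton_left.2 heE') (by rw [← Finset.insert_eq, hins])
        have h2 := rk_union_single (α := α) e F
        have h3 : ({e} : Finset ι) ∪ (E' ∪ F) = E ∪ F := by
          rw [← Finset.union_assoc, ← Finset.insert_eq, hins]
        rw [h3]
        omega
      have hev : ∀ y : Fin n → ℝ, (∀ g ∈ F, α g ⬝ᵥ y = 0) → (∀ g ∈ E', α g ⬝ᵥ y = 0) →
          α e ⬝ᵥ y = 0 := by
        intro y h1 h2
        have h3 : ∀ v ∈ sp α (E' ∪ F), v ⬝ᵥ y = 0 := by
          intro v hv
          unfold sp at hv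
          induction hv using Submodule.span_induction with
          | mem v hv =>
            obtain ⟨g, hg, rfl⟩ := hv
            rw [Finset.mem_coe, Finset.mem_union] at hg
            rcases hg with hg | hg
            · exact h2 g hg
            · exact h1 g hg
          | zero => exact zero_dotProduct y
          | add v w _ _ hv hw => rw [add_dotProduct, hv, hw, add_zero]
          | smul c v _ hv => rw [smul_dotProduct, hv, smul_zero]
        exact h3 _ hesp
      by_cases hC1 : Conn α F E'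
      · -- deletion
        obtain ⟨x, hx1, hx2, hx3⟩ := ih E' F h hcard hhE' hC1 fun g hg => h0 g (hsub g hg)
        obtain ⟨δ, hδ, hδ1, hδ2⟩ := perturb E' hx2 hze
        refine ⟨x + δ • z, fun g hg => ?_, fun g hg => ?_, fun y hy1 hy2 hy3 => ?_⟩
        · rw [dotProduct_add, dotProduct_smul, hx1 g hg, hzF g hg, smul_zero, add_zero]
        · by_cases hge : g = e
          · rw [hge]
            exact hδ2
          · have h1 := hδ1 g (Finset.mem_erase.2 ⟨hge, hg⟩)
            exact fun h2 => by
              rw [h2, mul_zero] at h1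
              exact lt_irrefl _ h1
        · have h1 := hx3 y hy1 (fun g hg => same_sign (hδ1 g hg) (hy2 g (hsub g hg))) hy3
          intro g hg
          by_cases hge : g = e
          · rw [hge]
            exact hev y hy1 h1
          · exact h1 g (Finset.mem_erase.2 ⟨hge, hg⟩)
      · -- contraction
        have hC2 : Conn α (insert e F) E' := uncross heE' (by rw [hins]; exact hC) hC1
        have h2E' : ∀ g ∈ E', (E'.erase g).Nonempty := by
          intro g hg
          by_contra hemp
          rw [Finset.not_nonempty_iff_eq_empty] at hemp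
          apply hC1
          intro A B hA hB hAB hABE
          exfalso
          have hsing : ∀ a ∈ E', a = g := by
            intro a ha
            by_contra hne
            have : a ∈ E'.erase g := Finset.mem_erase.2 ⟨hne, ha⟩
            rw [hemp] at this
            exact Finset.notMem_empty _ this
          obtain ⟨a, ha⟩ := hA
          obtain ⟨b, hb⟩ := hB
          have ha' := hsing a (hABE ▸ Finset.mem_union_left _ ha)
          have hb' := hsing b (hABE ▸ Finset.mem_union_right _ hb)
          exact Finset.disjoint_left.1 hAB ha (by rw [ha', ← hb']; exact hb)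
        have h0' : ∀ g ∈ E', α g ∉ sp α (insert e F) := by
          intro g hg hmem
          have h1 := hC2 {g} (E'.erase g) (Finset.singleton_nonempty g) (h2E' g hg)
            (Finset.disjoint_singleton_left.2 (Finset.notMem_erase g E'))
            (by rw [← Finset.insert_eq, Finset.insert_erase hg])
          have h2 : rk α ({g} ∪ insert e F) ≤ rk α (insert e F) := by
            unfold rk
            rw [sp_union, sp_single]
            refine Submodule.finrank_mono (sup_le ?_ le_rfl)
            rw [Submodule.span_singleton_le_iff_mem]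
            exact hmem
          have h3 : rk α (E'.erase g ∪ insert e F) ≤ rk α (E' ∪ insert e F) :=
            rk_mono (Finset.union_subset_union_left (Finset.erase_subset _ _))
          omega
        obtain ⟨x, hx1, hx2, hx3⟩ := ih E' (insert e F) h hcard hhE' hC2 h0'
        -- the cone at infinity is on one side
        have hside : ∃ τ : ℝ, τ ≠ 0 ∧ ∀ y : Fin n → ℝ, (∀ g ∈ F, α g ⬝ᵥ y = 0) →
            (∀ g ∈ E', 0 ≤ (α g ⬝ᵥ y) * (α g ⬝ᵥ x)) → α h ⬝ᵥ y = 0 → τ * (α e ⬝ᵥ y) ≤ 0 := by
          by_cases hex : ∃ y : Fin n → ℝ, (∀ g ∈ F, α g ⬝ᵥ y = 0) ∧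
            (∀ g ∈ E', 0 ≤ (α g ⬝ᵥ y) * (α g ⬝ᵥ x)) ∧ α h ⬝ᵥ y = 0 ∧ 0 < α e ⬝ᵥ y
          · obtain ⟨y1, a1, a2, a3, a4⟩ := hex
            refine ⟨-1, by norm_num, fun y2 b1 b2 b3 => ?_⟩
            by_contra hcon
            have b4 : α e ⬝ᵥ y2 < 0 := by linarith
            have h5 : ∀ g, α g ⬝ᵥ ((-(α e ⬝ᵥ y2)) • y1 + (α e ⬝ᵥ y1) • y2) =
                (-(α e ⬝ᵥ y2)) * (α g ⬝ᵥ y1) + (α e ⬝ᵥ y1) * (α g ⬝ᵥ y2) := by
              intro g
              rw [dotProduct_add, dotProduct_smul, dotProduct_smul, smul_eq_mul, smul_eq_mul]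
            have h6 := hx3 ((-(α e ⬝ᵥ y2)) • y1 + (α e ⬝ᵥ y1) • y2) (fun g hg => ?_)
              (fun g hg => ?_) ?_
            · -- so `y1` is zero
              have h7 : ∀ g ∈ E', α g ⬝ᵥ y1 = 0 := by
                intro g hg
                have h8 := h6 g hg
                rw [h5] at h8
                have h9 := a2 g hg
                have h10 := b2 g hg
                have h11 : (-(α e ⬝ᵥ y2)) * ((α g ⬝ᵥ y1) * (α g ⬝ᵥ x)) +
                    (α e ⬝ᵥ y1) * ((α g ⬝ᵥ y2) * (α g ⬝ᵥ x)) = 0 := by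
                  have := congrArg (· * (α g ⬝ᵥ x)) h8
                  simp only [zero_mul] at this
                  linarith
                have h12 : 0 ≤ (α e ⬝ᵥ y1) * ((α g ⬝ᵥ y2) * (α g ⬝ᵥ x)) :=
                  mul_nonneg a4.le h10
                have h13 : 0 ≤ (-(α e ⬝ᵥ y2)) * ((α g ⬝ᵥ y1) * (α g ⬝ᵥ x)) :=
                  mul_nonneg (by linarith) h9
                have h14 : (-(α e ⬝ᵥ y2)) * ((α g ⬝ᵥ y1) * (α g ⬝ᵥ x)) = 0 := by linarith
                rcases mul_eq_zero.1 h14 with h15 | h15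
                · linarith
                · exact (mul_eq_zero.1 h15).resolve_right (hx2 g hg)
              have h8 := hev y1 a1 h7
              linarith
            · rcases Finset.mem_insert.1 hg with hg | hg
              · rw [h5, hg]
                ring
              · rw [h5, a1 g hg, b1 g hg]
                ring
            · rw [h5]
              have h9 := a2 g hg
              have h10 := b2 g hg
              have h12 : 0 ≤ (α e ⬝ᵥ y1) * ((α g ⬝ᵥ y2) * (α g ⬝ᵥ x)) :=
                mul_nonneg a4.le h10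
              have h13 : 0 ≤ (-(α e ⬝ᵥ y2)) * ((α g ⬝ᵥ y1) * (α g ⬝ᵥ x)) :=
                mul_nonneg (by linarith) h9
              linarith
            · rw [h5, a3, b3]
              ring
          · push Not at hex
            refine ⟨1, one_ne_zero, fun y b1 b2 b3 => ?_⟩
            rw [one_mul]
            exact hex y b1 b2 b3
        obtain ⟨τ, hτ0, hτ⟩ := hside
        -- the direction
        set z' := (τ / (α e ⬝ᵥ z)) • z with hz'
        have hz'e : α e ⬝ᵥ z' = τ := by
          rw [hz', dotProduct_smul, smul_eq_mul, div_mul_cancel₀ _ hze]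
        obtain ⟨δ, hδ, hδ1, hδ2⟩ := perturb (e := e) (z := z') E' hx2 (by rw [hz'e]; exact hτ0)
        have hxe : α e ⬝ᵥ (x + δ • z') = δ * τ := by
          rw [dotProduct_add, hx1 e (Finset.mem_insert_self _ _), zero_add, dotProduct_smul, hz'e,
            smul_eq_mul]
        refine ⟨x + δ • z', fun g hg => ?_, fun g hg => ?_, fun y hy1 hy2 hy3 => ?_⟩
        · rw [dotProduct_add, dotProduct_smul, hx1 g (Finset.mem_insert_of_mem hg), hz',
            dotProduct_smul, hzF g hg, smul_zero, smul_zero, add_zero]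
        · by_cases hge : g = e
          · rw [hge]
            exact hδ2
          · have h1 := hδ1 g (Finset.mem_erase.2 ⟨hge, hg⟩)
            exact fun h2 => by
              rw [h2, mul_zero] at h1
              exact lt_irrefl _ h1
        · have h1 : ∀ g ∈ E', 0 ≤ (α g ⬝ᵥ y) * (α g ⬝ᵥ x) := fun g hg =>
            same_sign (hδ1 g hg) (hy2 g (hsub g hg))
          have h2 := hτ y hy1 h1 hy3
          have h3 := hy2 e he
          rw [hxe] at h3
          have h4 : α e ⬝ᵥ y = 0 := by
            have h5 : 0 ≤ δ * (τ * (α e ⬝ᵥ y)) := by linarith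
            have h6 : 0 ≤ τ * (α e ⬝ᵥ y) := nonneg_of_mul_nonneg_right h5 hδ
            have h7 : τ * (α e ⬝ᵥ y) = 0 := le_antisymm h2 h6
            exact (mul_eq_zero.1 h7).resolve_left hτ0
          have h5 := hx3 y (fun g hg => by
            rcases Finset.mem_insert.1 hg with hg | hg
            · rw [hg]
              exact h4
            · exact hy1 g hg) h1 hy3
          intro g hg
          by_cases hge : g = e
          · rw [hge]
            exact h4
          · exact h5 g (Finset.mem_erase.2 ⟨hge, hg⟩)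
    · push Not at hE
      refine ⟨z, hzF, fun g hg => hz2 g (h0 g hg), fun y _ _ hy g hg => ?_⟩
      rw [hE g hg]
      exact hy

end Pool.Agent.T6.H16.RA
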