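import Pool.Agent.T6.H16.RA.C1

set_option autoImplicit false

/-! Flats. -/

namespace Pool.Agent.T6.H16.RA

open Module Filter Topology

variable {n : ℕ} {ι : Type} [Fintype ι]

/-- a flat: a space spanned by the forms in it -/
def IsFlat (α : ι → Fin n → ℝ) (G : Submodule ℝ (Fin n → ℝ)) : Prop :=
  G = Submodule.span ℝ {v | v ∈ G ∧ ∃ h, v = α h}

/-- an irreducible flat: it is not zero, and the forms in it are not in the union of two spaces with
intersection zero, unless all of them are in one of the two -/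
def IsIrr (α : ι → Fin n → ℝ) (G : Submodule ℝ (Fin n → ℝ)) : Prop :=
  G ≠ ⊥ ∧ IsFlat α G ∧ ∀ G₁ G₂ : Submodule ℝ (Fin n → ℝ), G₁ ⊓ G₂ = ⊥ →
    (∀ h, α h ∈ G → α h ∈ G₁ ∨ α h ∈ G₂) → G ≤ G₁ ∨ G ≤ G₂

variable {α : ι → Fin n → ℝ} {m : ι → ℕ} {G : Submodule ℝ (Fin n → ℝ)}

lemma mu_super (S T : Submodule ℝ (Fin n → ℝ)) :
    mu α m S + mu α m T ≤ mu α m (S ⊓ T) + mu α m (S ⊔ T) := by
  classical
  unfold mu
  rw [← Finset.sum_add_distrib, ← Finset.sum_add_distrib]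
  refine Finset.sum_le_sum fun h _ => ?_
  by_cases h1 : α h ∈ S
  · have h3 : α h ∈ S ⊔ T := Submodule.mem_sup_left h1
    by_cases h2 : α h ∈ T
    · rw [if_pos h1, if_pos h2, if_pos h3, if_pos (Submodule.mem_inf.2 ⟨h1, h2⟩)]
    · rw [if_pos h1, if_neg h2, if_pos h3]
      omega
  · by_cases h2 : α h ∈ T
    · have h3 : α h ∈ S ⊔ T := Submodule.mem_sup_right h2
      rw [if_neg h1, if_pos h2, if_pos h3]
      omega
    · rw [if_neg h1, if_neg h2]
      omega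

/-- the flat of the forms in `S` -/
def fl (α : ι → Fin n → ℝ) (S : Submodule ℝ (Fin n → ℝ)) : Submodule ℝ (Fin n → ℝ) :=
  Submodule.span ℝ {v | v ∈ S ∧ ∃ h, v = α h}

lemma fl_le (S : Submodule ℝ (Fin n → ℝ)) : fl α S ≤ S :=
  Submodule.span_le.2 fun _ hv => hv.1

lemma mem_fl {S : Submodule ℝ (Fin n → ℝ)} {h : ι} : α h ∈ fl α S ↔ α h ∈ S :=
  ⟨fun h1 => fl_le S h1, fun h1 => Submodule.subset_span ⟨h1, h, rfl⟩⟩

lemma fl_flat (S : Submodule ℝ (Fin n → ℝ)) : IsFlat α (fl α S) := by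
  unfold IsFlat
  apply le_antisymm
  · conv_lhs => unfold fl
    refine Submodule.span_mono ?_
    rintro _ ⟨h1, h, rfl⟩
    exact ⟨mem_fl.2 h1, h, rfl⟩
  · exact Submodule.span_le.2 fun _ hv => hv.1

lemma mu_fl (S : Submodule ℝ (Fin n → ℝ)) : mu α m (fl α S) = mu α m S := by
  classical
  unfold mu
  refine Finset.sum_congr rfl fun h _ => ?_
  simp only [mem_fl]

lemma mu_bot (hα : ∀ h, α h ≠ 0) : mu α m (⊥ : Submodule ℝ (Fin n → ℝ)) = 0 := by
  classical
  unfold mu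
  refine Finset.sum_eq_zero fun h _ => if_neg ?_
  rw [Submodule.mem_bot]
  exact hα h

lemma atp_zero (α : ι → Fin n → ℝ) (G : Submodule ℝ (Fin n → ℝ)) (x : Fin n → ℝ) :
    ∀ v ∈ atp α G x, v ⬝ᵥ x = 0 := by
  intro v hv
  unfold atp at hv
  induction hv using Submodule.span_induction with
  | mem v hv => exact hv.2.1
  | zero => exact zero_dotProduct x
  | add v w _ _ hv hw => rw [add_dotProduct, hv, hw, add_zero]
  | smul c v _ hv => rw [smul_dotProduct, hv, smul_zero]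

lemma atp_le (α : ι → Fin n → ℝ) (G : Submodule ℝ (Fin n → ℝ)) (x : Fin n → ℝ) :
    atp α G x ≤ G := Submodule.span_le.2 fun _ hv => hv.1

lemma atp_flat (α : ι → Fin n → ℝ) (G : Submodule ℝ (Fin n → ℝ)) (x : Fin n → ℝ) :
    IsFlat α (atp α G x) := by
  unfold IsFlat
  apply le_antisymm
  · conv_lhs => unfold atp
    refine Submodule.span_mono ?_
    rintro _ ⟨h1, h2, h, rfl⟩
    exact ⟨Submodule.subset_span ⟨h1, h2, h, rfl⟩, h, rfl⟩
  · exact Submodule.span_le.2 fun _ hv => hv.1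

variable [DecidableEq ι]

/-- the forms in `G` -/
noncomputable def fin (α : ι → Fin n → ℝ) (G : Submodule ℝ (Fin n → ℝ)) : Finset ι :=
  open Classical in Finset.univ.filter fun h => α h ∈ G

lemma mem_fin {h : ι} : h ∈ fin α G ↔ α h ∈ G := by
  classical
  unfold fin
  simp

lemma sp_fin (hG : IsFlat α G) : sp α (fin α G) = G := by
  conv_rhs => rw [hG]
  unfold sp
  congr 1
  ext v
  simp only [Set.mem_image, Finset.mem_coe, Set.mem_setOf_eq]
  constructor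
  · rintro ⟨h, hh, rfl⟩
    exact ⟨mem_fin.1 hh, h, rfl⟩
  · rintro ⟨h1, h, rfl⟩
    exact ⟨h, mem_fin.2 h1, rfl⟩

lemma rk_empty : rk α (∅ : Finset ι) = 0 := by
  unfold rk sp
  simp

theorem conn_of_irr (hα : ∀ h, α h ≠ 0) (hI : IsIrr α G) : Conn α ∅ (fin α G) := by
  intro A B hA hB hAB hABE
  rw [Finset.union_empty, Finset.union_empty, Finset.union_empty, rk_empty, add_zero]
  by_contra hcon
  have h1 : sp α A ⊔ sp α B = G := by
    rw [← sp_union, hABE, sp_fin hI.2.1]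
  have h2 := Submodule.finrank_sup_add_finrank_inf_eq (sp α A) (sp α B)
  have h3 : rk α (fin α G) = finrank ℝ (sp α A ⊔ sp α B : Submodule ℝ (Fin n → ℝ)) := by
    unfold rk
    rw [sp_fin hI.2.1, h1]
  unfold rk at hcon h3
  have h4 : finrank ℝ (sp α A ⊓ sp α B : Submodule ℝ (Fin n → ℝ)) = 0 := by omega
  have h5 : sp α A ⊓ sp α B = ⊥ := Submodule.finrank_eq_zero.1 h4
  have h6 : ∀ g, α g ∈ sp α A → α g ∈ sp α B → False := fun g h7 h8 =>
    hα g ((Submodule.mem_bot ℝ).1 (h5 ▸ Submodule.mem_inf.2 ⟨h7, h8⟩))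
  have h7 : ∀ g ∈ A, α g ∈ G := fun g hg => mem_fin.1 (hABE ▸ Finset.mem_union_left _ hg)
  have h8 : ∀ g ∈ B, α g ∈ G := fun g hg => mem_fin.1 (hABE ▸ Finset.mem_union_right _ hg)
  rcases hI.2.2 _ _ h5 (fun h hh => by
    have := mem_fin.2 hh
    rw [← hABE, Finset.mem_union] at this
    rcases this with h9 | h9
    · exact Or.inl (mem_sp h9)
    · exact Or.inr (mem_sp h9)) with h9 | h9
  · obtain ⟨b, hb⟩ := hB
    exact h6 b (h9 (h8 b hb)) (mem_sp hb)
  · obtain ⟨a, ha⟩ := hA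
    exact h6 a (mem_sp ha) (h9 (h7 a ha))

end Pool.Agent.T6.H16.RA
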