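import Pool.Agent.T6.H16.RA.C2

set_option autoImplicit false

/-! The greedy argument with real weights. -/

namespace Pool.Agent.T6.H16.RA

open Module

variable {n : ℕ} {ι : Type} [Fintype ι] [DecidableEq ι]

/-- the sum of the weights of the forms in `S` -/
noncomputable def cu (α : ι → Fin n → ℝ) (u : ι → ℝ) (S : Submodule ℝ (Fin n → ℝ)) : ℝ :=
  open Classical in ∑ h, if α h ∈ S then u h else 0

variable {α : ι → Fin n → ℝ} {G : Submodule ℝ (Fin n → ℝ)}

lemma cu_nonneg {u : ι → ℝ} (hu : ∀ h, 0 ≤ u h) (S : Submodule ℝ (Fin n → ℝ)) : 0 ≤ cu α u S := by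
  classical
  unfold cu
  refine Finset.sum_nonneg fun h _ => ?_
  split_ifs
  · exact hu h
  · exact le_rfl

lemma cu_mono {u : ι → ℝ} (hu : ∀ h, 0 ≤ u h) {S T : Submodule ℝ (Fin n → ℝ)} (h : S ≤ T) :
    cu α u S ≤ cu α u T := by
  classical
  unfold cu
  refine Finset.sum_le_sum fun x _ => ?_
  by_cases hx : α x ∈ S
  · rw [if_pos hx, if_pos (h hx)]
  · rw [if_neg hx]
    split_ifs
    · exact hu x
    · exact le_rfl

/-- **The greedy argument.** For the forms in `G`, `w_h = ⟨α h, x⟩ > 0`. -/
theorem greedyW {u : ι → ℝ} (hu : ∀ h, 0 ≤ u h) (hα : ∀ h, α h ≠ 0) (hG : G = Submodule.span ℝ {v | v ∈ G ∧ ∃ h, v = α h})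
    {θ : ℝ} (hθ : 0 ≤ θ)
    (hgood : ∀ (k : ℕ) (b : Fin k → ι), (∀ i, α (b i) ∈ G) → 0 < k → spn α b ≠ G →
      LinearIndependent ℝ (fun i => α (b i)) →
      cu α u (spn α b) ≤ θ * k ∨ Cert α G (spn α b)) :
    ∀ k : ℕ, k ≤ finrank ℝ G → ∃ K : ℝ, ∀ x : Fin n → ℝ, (∀ h, α h ∈ G → 0 < α h ⬝ᵥ x) →
      ∃ b : Fin k → ι, (∀ i, α (b i) ∈ G) ∧ LinearIndependent ℝ (fun i => α (b i)) ∧
        (∀ i, ∀ j, i ≤ j → α (b i) ⬝ᵥ x ≤ α (b j) ⬝ᵥ x) ∧
        (∀ h, α h ∈ G → α h ∉ spn α b → ∀ i, α (b i) ⬝ᵥ x ≤ α h ⬝ᵥ x) ∧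
        (open Classical in ∑ h, (if α h ∈ spn α b then u h * -Real.log (α h ⬝ᵥ x) else 0)) ≤
          ∑ i, θ * -Real.log (α (b i) ⬝ᵥ x) +
          (if hk : 0 < k then (cu α u (spn α b) - θ * k) *
            -Real.log (α (b ⟨k - 1, by omega⟩) ⬝ᵥ x) else 0) + K := by
  classical
  intro k
  induction k with
  | zero =>
    intro _
    refine ⟨0, fun x hx => ⟨Fin.elim0, fun i => i.elim0, linearIndependent_empty_type,
      fun i => i.elim0, fun h _ _ i => i.elim0, ?_⟩⟩
    rw [Finset.sum_eq_zero]
    · simp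
    · intro h _
      rw [if_neg]
      intro hh
      unfold spn at hh
      rw [Set.range_eq_empty, Submodule.span_empty, Submodule.mem_bot] at hh
      exact hα h hh
  | succ k ih =>
    intro hk
    obtain ⟨K, hK⟩ := ih (by omega)
    -- the constants
    have hc : ∀ b : Fin k → ι, ∃ c : ℝ, 1 ≤ c ∧ (0 < k → Cert α G (spn α b) →
        ∀ x : Fin n → ℝ, (∀ h, α h ∈ G → 0 < α h ⬝ᵥ x) → (∀ i, α (b i) ∈ G) →
        (∀ i j, i ≤ j → α (b i) ⬝ᵥ x ≤ α (b j) ⬝ᵥ x) →
        ∃ h, α h ∈ G ∧ α h ∉ spn α b ∧ ∀ hk : 0 < k,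
          α h ⬝ᵥ x ≤ c * (α (b ⟨k - 1, by omega⟩) ⬝ᵥ x)) := by
      intro b
      rcases Nat.eq_zero_or_pos k with h0 | h0
      · exact ⟨1, le_refl _, fun h => absurd h (by omega)⟩
      · obtain ⟨k', rfl⟩ : ∃ k', k = k' + 1 := ⟨k - 1, by omega⟩
        by_cases hC : Cert α G (spn α b)
        · obtain ⟨c, hc0, hc⟩ := cert_cmp b hC
          refine ⟨max c 1, le_max_right _ _, fun _ _ x hx hb hmon => ?_⟩
          obtain ⟨h, h1, h2, h3⟩ := hc x hx hb (fun i => hmon i _ (Fin.le_last i))
          refine ⟨h, h1, h2, fun _ => h3.trans ?_⟩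
          exact mul_le_mul_of_nonneg_right (le_max_left _ _) (hx _ (hb _)).le
        · exact ⟨1, le_refl _, fun _ h => absurd h hC⟩
    choose c hc1 hc2 using hc
    refine ⟨K + cu α u G * ∑ b, Real.log (c b), fun x hx => ?_⟩
    obtain ⟨b, hbG, hbI, hmon, hout, hsum⟩ := hK x hx
    -- the next element
    have hne : (Finset.univ.filter fun h => α h ∈ G ∧ α h ∉ spn α b).Nonempty := by
      by_contra hemp
      rw [Finset.not_nonempty_iff_eq_empty] at hemp
      have hle : G ≤ spn α b := by
        rw [hG, Submodule.span_le]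
        rintro _ ⟨h1, h, rfl⟩
        by_contra h2
        have : h ∈ Finset.univ.filter fun h => α h ∈ G ∧ α h ∉ spn α b :=
          Finset.mem_filter.2 ⟨Finset.mem_univ _, h1, h2⟩
        rw [hemp] at this
        exact absurd this (Finset.notMem_empty _)
      have h3 := Submodule.finrank_mono hle
      have h4 : finrank ℝ (spn α b) ≤ k := by
        have := finrank_range_le_card (R := ℝ) (fun i => α (b i))
        rw [Fintype.card_fin] at this
        exact this
      omega
    obtain ⟨h1, hh1, hmin⟩ := Finset.exists_min_image _ (fun h => α h ⬝ᵥ x) hne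
    rw [Finset.mem_filter] at hh1
    have hmin' : ∀ h, α h ∈ G → α h ∉ spn α b → α h1 ⬝ᵥ x ≤ α h ⬝ᵥ x := fun h ha hb' =>
      hmin h (Finset.mem_filter.2 ⟨Finset.mem_univ _, ha, hb'⟩)
    set b' : Fin (k + 1) → ι := Fin.snoc b h1 with hb'
    have hb'c : ∀ i, b' (Fin.castSucc i) = b i := fun i => Fin.snoc_castSucc (α := fun _ => ι) _ _ i
    have hb'l : b' (Fin.last k) = h1 := Fin.snoc_last (α := fun _ => ι) _ _
    have hspn : spn α b ≤ spn α b' := by
      unfold spn
      refine Submodule.span_mono ?_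
      rintro _ ⟨i, rfl⟩
      exact ⟨Fin.castSucc i, by simp only [hb'c]⟩
    have hI' : LinearIndependent ℝ (fun i => α (b' i)) := by
      have e : (fun i => α (b' i)) = Fin.snoc (α := fun _ => Fin n → ℝ) (fun i => α (b i)) (α h1) := by
        funext i
        refine Fin.lastCases ?_ (fun i => ?_) i
        · rw [hb'l, Fin.snoc_last]
        · rw [hb'c, Fin.snoc_castSucc]
      rw [e, linearIndependent_finSnoc]
      exact ⟨hbI, hh1.2.2⟩
    have hG' : ∀ i, α (b' i) ∈ G := by
      intro i
      refine Fin.lastCases ?_ (fun i => ?_) i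
      · rw [hb'l]
        exact hh1.2.1
      · rw [hb'c]
        exact hbG i
    have hmon' : ∀ i j, i ≤ j → α (b' i) ⬝ᵥ x ≤ α (b' j) ⬝ᵥ x := by
      intro i j
      refine Fin.lastCases (fun hij => ?_) (fun j hij => ?_) j
      · refine Fin.lastCases ?_ (fun i => ?_) i
        · exact le_refl _
        · rw [hb'l, hb'c]
          have hi : 0 < k := by have := i.2; omega
          -- the last of `b` is at most the new one
          exact hout h1 hh1.2.1 hh1.2.2 i
      · have h6 : i ≠ Fin.last k := by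
          rintro rfl
          have h7 := Fin.le_def.1 hij
          have h8 := j.2
          simp only [Fin.val_last, Fin.val_castSucc] at h7
          omega
        obtain ⟨i', rfl⟩ := Fin.exists_castSucc_eq.2 h6
        rw [hb'c, hb'c]
        exact hmon i' j (by
          rw [Fin.le_def] at hij ⊢
          simpa using hij)
    have hout' : ∀ h, α h ∈ G → α h ∉ spn α b' → ∀ i, α (b' i) ⬝ᵥ x ≤ α h ⬝ᵥ x := by
      intro h hg hn i
      have hn' : α h ∉ spn α b := fun hh => hn (hspn hh)
      refine Fin.lastCases ?_ (fun i => ?_) i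
      · rw [hb'l]
        exact hmin' h hg hn'
      · rw [hb'c]
        exact hout h hg hn' i
    refine ⟨b', hG', hI', hmon', hout', ?_⟩
    set L' := -Real.log (α h1 ⬝ᵥ x) with hL'
    have hspG : spn α b' ≤ G := by
      unfold spn
      rw [Submodule.span_le]
      rintro _ ⟨i, rfl⟩
      exact hG' i
    have hw1 : 0 < α h1 ⬝ᵥ x := hx _ hh1.2.1
    -- the sum over `spn b'`
    have hsplit : (∑ h, if α h ∈ spn α b' then u h * -Real.log (α h ⬝ᵥ x) else 0) ≤
        (∑ h, if α h ∈ spn α b then u h * -Real.log (α h ⬝ᵥ x) else 0) +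
          (cu α u (spn α b') - cu α u (spn α b)) * L' := by
      have e : ((cu α u (spn α b') - cu α u (spn α b)) * L') =
          ∑ h, if α h ∈ spn α b' ∧ α h ∉ spn α b then u h * L' else 0 := by
        unfold cu
        rw [← Finset.sum_sub_distrib, Finset.sum_mul]
        refine Finset.sum_congr rfl fun h _ => ?_
        by_cases h3 : α h ∈ spn α b
        · rw [if_pos h3, if_pos (hspn h3), if_neg (fun h4 => h4.2 h3)]
          simp
        · by_cases h4 : α h ∈ spn α b'
          · rw [if_pos h4, if_neg h3, if_pos ⟨h4, h3⟩]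
            ring
          · rw [if_neg h4, if_neg h3, if_neg (fun h5 => h4 h5.1)]
            simp
      rw [e, ← Finset.sum_add_distrib]
      refine Finset.sum_le_sum fun h _ => ?_
      by_cases h3 : α h ∈ spn α b
      · rw [if_pos h3, if_pos (hspn h3), if_neg (fun h4 => h4.2 h3), add_zero]
      · by_cases h4 : α h ∈ spn α b'
        · rw [if_pos h4, if_neg h3, if_pos ⟨h4, h3⟩, zero_add]
          have h5 := hmin' h (hspG h4) h3
          have h6 : -Real.log (α h ⬝ᵥ x) ≤ L' := by
            rw [hL']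
            exact neg_le_neg (Real.log_le_log hw1 h5)
          exact mul_le_mul_of_nonneg_left h6 (hu h)
        · rw [if_neg h4, if_neg h3, if_neg (fun h5 => h4 h5.1), add_zero]
    have hsum' : ∑ i, θ * -Real.log (α (b' i) ⬝ᵥ x) =
        ∑ i, θ * -Real.log (α (b i) ⬝ᵥ x) + θ * L' := by
      rw [Fin.sum_univ_castSucc, hL']
      simp only [hb'c, hb'l]
    have hlogc : 0 ≤ ∑ b, Real.log (c b) := Finset.sum_nonneg fun b _ => Real.log_nonneg (hc1 b)
    have hKc : 0 ≤ cu α u G * ∑ b, Real.log (c b) := mul_nonneg (cu_nonneg hu G) hlogc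
    rw [dif_pos (Nat.succ_pos k)]
    have hb1 : b' ⟨k + 1 - 1, by omega⟩ = h1 := hb'l
    rw [hb1, hsum']
    push_cast
    -- the step
    have hstep : (if hk : 0 < k then (cu α u (spn α b) - θ * k) *
        -Real.log (α (b ⟨k - 1, by omega⟩) ⬝ᵥ x) else 0) ≤
        (cu α u (spn α b) - θ * k) * L' + cu α u G * ∑ b, Real.log (c b) := by
      rcases Nat.eq_zero_or_pos k with h0 | h0
      · subst h0
        rw [dif_neg (lt_irrefl 0)]
        have h3 : cu α u (spn α b) = 0 := by
          unfold cu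
          refine Finset.sum_eq_zero fun h _ => ?_
          rw [if_neg]
          intro hh
          unfold spn at hh
          rw [Set.range_eq_empty, Submodule.span_empty, Submodule.mem_bot] at hh
          exact hα h hh
        rw [h3]
        push_cast
        linarith
      · rw [dif_pos h0]
        set wk := α (b ⟨k - 1, by omega⟩) ⬝ᵥ x with hwk
        have hwk0 : 0 < wk := hx _ (hbG _)
        have h3 : wk ≤ α h1 ⬝ᵥ x := hout h1 hh1.2.1 hh1.2.2 _
        have h4 : L' ≤ -Real.log wk := neg_le_neg (Real.log_le_log hwk0 h3)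
        have hne' : spn α b ≠ G := fun h5 => hh1.2.2 (h5 ▸ hh1.2.1)
        rcases hgood k b hbG h0 hne' hbI with h5 | h5
        · nlinarith
        · obtain ⟨h, hg, hn, hle⟩ := hc2 b h0 h5 x hx hbG hmon
          have h6 := (hmin' h hg hn).trans (hle h0)
          have h7 : -Real.log wk - L' ≤ Real.log (c b) := by
            have h8 := Real.log_le_log hw1 h6
            rw [Real.log_mul (by linarith [hc1 b]) hwk0.ne'] at h8
            linarith
          have h8 : Real.log (c b) ≤ ∑ b, Real.log (c b) :=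
            Finset.single_le_sum (f := fun b => Real.log (c b))
              (fun b _ => Real.log_nonneg (hc1 b)) (Finset.mem_univ b)
          have h9 : cu α u (spn α b) ≤ cu α u G := cu_mono hu (fun v hv => hspG (hspn hv))
          have h10 : cu α u (spn α b) - θ * k ≤ cu α u G := by
            have : 0 ≤ θ * k := by positivity
            linarith
          have h11 : (cu α u (spn α b) - θ * k) * (-Real.log wk - L') ≤
              cu α u G * ∑ b, Real.log (c b) := by
            have h12 : 0 ≤ -Real.log wk - L' := by linarith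
            calc (cu α u (spn α b) - θ * k) * (-Real.log wk - L')
                ≤ cu α u G * (-Real.log wk - L') := mul_le_mul_of_nonneg_right h10 h12
              _ ≤ cu α u G * ∑ b, Real.log (c b) :=
                  mul_le_mul_of_nonneg_left (h7.trans h8) (cu_nonneg hu G)
          linarith
    linarith

end Pool.Agent.T6.H16.RA
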