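import Pool.Agent.T6.H16.RA.D1

set_option autoImplicit false

/-! The change of variables `y_i = x_i ^ a`. -/

namespace Pool.Agent.T6.H16.RA

open MvPolynomial MeasureTheory Set Metric Module Filter Topology

variable {n : ℕ}

/-- the powers of the coordinates -/
def pw (a : ℕ) (x : Fin n → ℝ) : Fin n → ℝ := fun i => x i ^ a

lemma pw_cont (a : ℕ) : Continuous (pw (n := n) a) := by
  unfold pw
  fun_prop

/-- the derivative -/
noncomputable def dpw (a : ℕ) (x : Fin n → ℝ) : (Fin n → ℝ) →L[ℝ] (Fin n → ℝ) :=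
  ContinuousLinearMap.pi fun i => ((a : ℝ) * x i ^ (a - 1)) • ContinuousLinearMap.proj i

lemma dpw_det (a : ℕ) (x : Fin n → ℝ) : (dpw a x).det = ∏ i, ((a : ℝ) * x i ^ (a - 1)) := by
  have h1 : ((dpw a x : (Fin n → ℝ) →L[ℝ] (Fin n → ℝ)) : (Fin n → ℝ) →ₗ[ℝ] (Fin n → ℝ)) =
      Matrix.toLin' (Matrix.diagonal fun i => (a : ℝ) * x i ^ (a - 1)) := by
    refine LinearMap.ext fun v => ?_
    funext i
    rw [Matrix.toLin'_apply, Matrix.mulVec_diagonal]
    rfl
  show LinearMap.det ((dpw a x : (Fin n → ℝ) →L[ℝ] (Fin n → ℝ)) :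
    (Fin n → ℝ) →ₗ[ℝ] (Fin n → ℝ)) = _
  rw [h1, LinearMap.det_toLin', Matrix.det_diagonal]

lemma pw_deriv (a : ℕ) (x : Fin n → ℝ) (s : Set (Fin n → ℝ)) :
    HasFDerivWithinAt (pw a) (dpw a x) s x := by
  refine HasFDerivAt.hasFDerivWithinAt ?_
  unfold pw dpw
  rw [hasFDerivAt_pi]
  intro i
  have h1 : HasFDerivAt (fun x : Fin n → ℝ => x i) (ContinuousLinearMap.proj i) x :=
    (ContinuousLinearMap.proj (R := ℝ) (φ := fun _ : Fin n => ℝ) i).hasFDerivAt
  have h2 := h1.pow a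
  refine h2.congr_fderiv ?_
  refine ContinuousLinearMap.ext fun v => ?_
  simp

/-- the positive orthant -/
def Pos (n : ℕ) : Set (Fin n → ℝ) := {x | ∀ i, 0 < x i}

lemma Pos_open : IsOpen (Pos n) := by
  have e : Pos n = ⋂ i, {x : Fin n → ℝ | 0 < x i} := by
    ext x
    simp [Pos]
  rw [e]
  exact isOpen_iInter_of_finite fun i => isOpen_lt continuous_const (continuous_apply i)

lemma Pos_inj {a : ℕ} (ha0 : a ≠ 0) : InjOn (pw a) (Pos n) := by
  intro x hx y hy hxy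
  funext i
  exact (pow_left_inj₀ (hx i).le (hy i).le ha0).1 (congrFun hxy i)

/-- the weight -/
noncomputable def wa (a : ℕ) : ℝ := 1 - 1 / a

lemma wa_nonneg {a : ℕ} (ha : 0 < a) : 0 ≤ wa a := by
  unfold wa
  have h1 : (1 : ℝ) ≤ a := by exact_mod_cast ha
  have h2 : (1 : ℝ) / a ≤ 1 := by
    rw [div_le_one (by linarith)]
    exact h1
  linarith

lemma wa_lt {a : ℕ} (ha : 0 < a) : wa a < 1 := by
  unfold wa
  have : (0 : ℝ) < 1 / a := by positivity
  linarith

lemma abs_pow_wa {a : ℕ} (ha0 : 0 < a) (t : ℝ) (ht : 0 < t) :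
    |t ^ (a - 1)| = (t ^ a) ^ wa a := by
  have ha' : (a : ℝ) ≠ 0 := by exact_mod_cast ha0.ne'
  rw [← Real.rpow_natCast t a, ← Real.rpow_mul ht.le, abs_of_pos (pow_pos ht _),
    ← Real.rpow_natCast]
  congr 1
  unfold wa
  rw [Nat.cast_sub (by omega)]
  field_simp
  push_cast
  ring

lemma dpw_abs {a : ℕ} (ha0 : 0 < a) {x : Fin n → ℝ} (hx : ∀ i, 0 < x i) :
    |(dpw a x).det| = (a : ℝ) ^ n * ∏ i, (pw a x i) ^ wa a := by
  rw [dpw_det, Finset.abs_prod]
  simp only [abs_mul]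
  rw [Finset.prod_mul_distrib, Finset.prod_const, Finset.card_univ, Fintype.card_fin,
    abs_of_nonneg (Nat.cast_nonneg a)]
  congr 1
  exact Finset.prod_congr rfl fun i _ => abs_pow_wa ha0 (x i) (hx i)

/-- pull-backs of integrable functions -/
theorem int_pull {a : ℕ} (ha0 : 0 < a) {g : (Fin n → ℝ) → ℝ}
    (hg : ∀ R : ℝ, IntegrableOn g (closedBall 0 R)) (p : Fin n → ℝ) (ρ : ℝ) :
    IntegrableOn (fun x => |(dpw a x).det| * g (pw a x)) (Pos n ∩ closedBall p ρ) := by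
  obtain ⟨R, hR⟩ := ((isCompact_closedBall p ρ).image (pw_cont (n := n) a)).isBounded.exists_norm_le
  exact (integrableOn_image_iff_integrableOn_abs_det_fderiv_smul volume
      (Pos_open.measurableSet.inter (measurableSet_closedBall (x := p) (ε := ρ)))
      (fun x _ => pw_deriv a x _) ((Pos_inj ha0.ne').mono inter_subset_left) g).1
      ((hg R).mono_set (by
        rintro _ ⟨x, hx, rfl⟩
        rw [mem_closedBall_zero_iff]
        exact hR _ ⟨x, hx.2, rfl⟩))

end Pool.Agent.T6.H16.RA
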