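import Pool.Agent.T6.H16.RA.D2

set_option autoImplicit false

/-! Convergence for products of diagonal forms. -/

namespace Pool.Agent.T6.H16.RA

open MvPolynomial MeasureTheory Set Metric Module Filter Topology

variable {n : ℕ} {ι : Type} [Fintype ι] [DecidableEq ι]

/-- `∑ i, v i * x i ^ a` -/
noncomputable def dform (a : ℕ) (v : Fin n → ℝ) : MvPolynomial (Fin n) ℝ := ∑ i, C (v i) * X i ^ a

/-- the product of powers of diagonal forms -/
noncomputable def qf (α : ι → Fin n → ℝ) (m : ι → ℕ) (a : ℕ) : MvPolynomial (Fin n) ℝ :=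
  ∏ h, dform a (α h) ^ m h

lemma rv_dform (a : ℕ) (v x : Fin n → ℝ) : rv (dform a v) x = v ⬝ᵥ pw a x := by
  unfold rv dform
  rw [map_sum]
  simp only [map_mul, map_pow, eval_C, eval_X]
  rfl

lemma rv_qf (α : ι → Fin n → ℝ) (m : ι → ℕ) (a : ℕ) (x : Fin n → ℝ) :
    rv (qf α m a) x = ∏ h, (α h ⬝ᵥ pw a x) ^ m h := by
  have h1 : rv (qf α m a) x = ∏ h, (rv (dform a (α h)) x) ^ m h := by
    unfold rv qf
    rw [map_prod]
    simp only [map_pow]
  rw [h1]
  simp only [rv_dform]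

/-- the points where all forms are positive -/
def Ux (α : ι → Fin n → ℝ) (a : ℕ) : Set (Fin n → ℝ) := {x | ∀ h, 0 < α h ⬝ᵥ pw a x}

lemma Ux_eq (α : ι → Fin n → ℝ) (a : ℕ) : Ux α a = pw a ⁻¹' Ch α := rfl

lemma Ux_open (α : ι → Fin n → ℝ) (a : ℕ) : IsOpen (Ux α a) := (Ch_open α).preimage (pw_cont a)

lemma reg_qf (α : ι → Fin n → ℝ) {m : ι → ℕ} (a : ℕ) (hm : ∀ h, 0 < m h) :
    Reg (qf α m a) (Ux α a) := by
  refine ⟨Ux_open α a, fun x hx => ?_, fun x hx hn => ?_⟩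
  · rw [rv_qf]
    exact Finset.prod_pos fun h _ => pow_pos (hx h) _
  · have h1 : ∀ h, 0 ≤ α h ⬝ᵥ pw a x := by
      intro h
      have hc : IsClosed {x : Fin n → ℝ | 0 ≤ α h ⬝ᵥ pw a x} :=
        isClosed_le continuous_const ((dot_cont _).comp (pw_cont a))
      exact closure_minimal (fun y hy => (hy h).le) hc hx
    have h2 : ∃ h, ¬ 0 < α h ⬝ᵥ pw a x := by
      by_contra h3
      push Not at h3
      exact hn h3
    obtain ⟨h, hh⟩ := h2
    rw [rv_qf]
    refine Finset.prod_eq_zero (Finset.mem_univ h) ?_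
    rw [le_antisymm (not_lt.1 hh) (h1 h), zero_pow (hm h).ne']

/-- the forms and the coordinates -/
def bt (α : ι → Fin n → ℝ) : ι ⊕ Fin n → Fin n → ℝ := Sum.elim α fun i => Pi.single i 1

/-- the number of the coordinates in `S` -/
noncomputable def cc (S : Submodule ℝ (Fin n → ℝ)) : ℕ :=
  open Classical in (Finset.univ.filter fun i : Fin n => (Pi.single i 1 : Fin n → ℝ) ∈ S).card

/-- `a` times the weighted rank -/
noncomputable def nuA (a : ℕ) (S : Submodule ℝ (Fin n → ℝ)) : ℕ :=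
  a * (finrank ℝ S - cc S) + cc S

lemma cc_le (S : Submodule ℝ (Fin n → ℝ)) : cc S ≤ finrank ℝ S := by
  classical
  unfold cc
  have h1 : LinearIndependent ℝ (fun i : {i : Fin n // (Pi.single i 1 : Fin n → ℝ) ∈ S} =>
      (⟨Pi.single (i : Fin n) 1, i.2⟩ : S)) := by
    refine LinearIndependent.of_comp S.subtype ?_
    have h2 := (Pi.basisFun ℝ (Fin n)).linearIndependent.comp
      (fun i : {i : Fin n // (Pi.single i 1 : Fin n → ℝ) ∈ S} => (i : Fin n)) Subtype.val_injective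
    have e : (S.subtype ∘ fun i : {i : Fin n // (Pi.single i 1 : Fin n → ℝ) ∈ S} =>
        (⟨Pi.single (i : Fin n) 1, i.2⟩ : S)) = (⇑(Pi.basisFun ℝ (Fin n)) ∘
        fun i : {i : Fin n // (Pi.single i 1 : Fin n → ℝ) ∈ S} => (i : Fin n)) := by
      funext i
      simp [Function.comp]
    rw [e]
    exact h2
  have h3 := h1.fintype_card_le_finrank
  rwa [Fintype.card_subtype] at h3

lemma nuA_eq {a : ℕ} (ha : 0 < a) (S : Submodule ℝ (Fin n → ℝ)) :
    (nuA a S : ℝ) = a * (finrank ℝ S - wa a * cc S) := by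
  have h1 : (a : ℝ) ≠ 0 := by exact_mod_cast ha.ne'
  unfold nuA wa
  rw [Nat.cast_add, Nat.cast_mul, Nat.cast_sub (cc_le S)]
  field_simp
  ring

lemma cu_sum (α : ι → Fin n → ℝ) (m : ι → ℕ) (σ w : ℝ) (S : Submodule ℝ (Fin n → ℝ)) :
    cu (bt α) (Sum.elim (fun h => σ * m h) fun _ => w) S = σ * mu α m S + w * cc S := by
  classical
  unfold cu mu cc bt
  rw [Fintype.sum_sum_type]
  simp only [Sum.elim_inl, Sum.elim_inr]
  congr 1
  · push_cast
    rw [Finset.mul_sum]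
    refine Finset.sum_congr rfl fun h _ => ?_
    split_ifs <;> simp
  · rw [← Finset.sum_filter, Finset.sum_const, nsmul_eq_mul, mul_comm]

lemma bt_ne {α : ι → Fin n → ℝ} (hα : ∀ h, α h ≠ 0) (j : ι ⊕ Fin n) : bt α j ≠ 0 := by
  rcases j with h | i
  · exact hα h
  · intro h0
    have := congrFun h0 i
    simp [bt] at this

lemma bt_inr (α : ι → Fin n → ℝ) (i : Fin n) (y : Fin n → ℝ) : bt α (Sum.inr i) ⬝ᵥ y = y i := by
  show (Pi.single i 1 : Fin n → ℝ) ⬝ᵥ y = y i
  rw [single_one_dotProduct]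

/-- **Convergence.** -/
theorem int_pow_good {α : ι → Fin n → ℝ} {m : ι → ℕ} {a : ℕ} (ha0 : 0 < a)
    {G : Submodule ℝ (Fin n → ℝ)}
    (hα : ∀ h, α h ≠ 0) (hG : IsFlat (bt α) G)
    (hM : 0 < mu α m G)
    (hgood : ∀ (k : ℕ) (b : Fin k → ι ⊕ Fin n), (∀ i, bt α (b i) ∈ G) → 0 < k → spn (bt α) b ≠ G →
      LinearIndependent ℝ (fun i => bt α (b i)) →
      nuA a G * mu α m (spn (bt α) b) ≤ mu α m G * nuA a (spn (bt α) b) ∨
        Cert (bt α) G (spn (bt α) b))
    {p : Fin n → ℝ} {ρ c0 : ℝ} (hc0 : 0 < c0)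
    (hout : ∀ j, bt α j ∉ G → ∀ x ∈ closedBall p ρ, c0 ≤ bt α j ⬝ᵥ pw a x) {s : ℝ}
    (hs : -(nuA a G : ℝ) / (a * mu α m G : ℕ) < s) :
    IntegrableOn (fun x => rv (qf α m a) x ^ s) (Ux α a ∩ (Pos n ∩ closedBall p ρ)) := by
  classical
  have hmeas : Measurable fun x => rv (qf α m a) x ^ s := (rv_cont _).measurable.pow_const s
  rcases le_or_gt 0 s with h0 | h0
  · have hc : Continuous fun x => rv (qf α m a) x ^ s :=
      (rv_cont _).rpow_const fun x => Or.inr h0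
    exact (hc.continuousOn.integrableOn_compact (isCompact_closedBall p ρ)).mono_set
      (inter_subset_right.trans inter_subset_right)
  have hM' : (0 : ℝ) < mu α m G := by exact_mod_cast hM
  have ha' : (0 : ℝ) < a := by exact_mod_cast ha0
  have hr : 0 < finrank ℝ G := by
    rcases Nat.eq_zero_or_pos (finrank ℝ G) with h1 | h1
    · rw [Submodule.finrank_eq_zero.1 h1, mu_bot hα] at hM
      exact absurd hM (lt_irrefl _)
    · exact h1
  have hr' : (0 : ℝ) < finrank ℝ G := by exact_mod_cast hr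
  have hw0 := wa_nonneg ha0
  have hw1 := wa_lt ha0
  set w := wa a with hw
  set σ := -s with hσ
  have hσ0 : 0 < σ := by linarith
  have hccr : ∀ S : Submodule ℝ (Fin n → ℝ), (cc S : ℝ) ≤ finrank ℝ S := fun S => by
    exact_mod_cast cc_le S
  set V := (finrank ℝ G : ℝ) - w * cc G with hV
  have hV0 : 0 < V := by
    have h1 := hccr G
    have h2 : w * cc G ≤ w * finrank ℝ G := mul_le_mul_of_nonneg_left h1 hw0
    have h3 : w * finrank ℝ G < 1 * finrank ℝ G := mul_lt_mul_of_pos_right hw1 hr'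
    rw [hV]
    linarith
  set l := σ * mu α m G / V with hl
  have hl0 : 0 ≤ l := by positivity
  have hl1 : l < 1 := by
    rw [hl, div_lt_one hV0]
    have h1 : -(nuA a G : ℝ) / (a * mu α m G : ℕ) = -V / mu α m G := by
      rw [nuA_eq ha0, ← hw, ← hV]
      push_cast
      rw [neg_div, neg_div, mul_div_mul_left _ _ ha'.ne']
    rw [h1] at hs
    have h2 := mul_lt_mul_of_pos_right hs hM'
    rw [div_mul_cancel₀ _ hM'.ne'] at h2
    rw [hσ]
    linarith
  have hlV : l * V = σ * mu α m G := by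
    rw [hl, div_mul_cancel₀ _ hV0.ne']
  set θ := l + (1 - l) * w with hθ
  have hθ0 : 0 ≤ θ := by
    have : 0 ≤ (1 - l) * w := mul_nonneg (by linarith) hw0
    linarith
  have hθ1 : θ < 1 := by
    have : (1 - l) * w < (1 - l) * 1 := mul_lt_mul_of_pos_left hw1 (by linarith)
    rw [hθ]
    linarith
  set u : ι ⊕ Fin n → ℝ := Sum.elim (fun h => σ * m h) fun _ => w with hu
  have hu0 : ∀ j, 0 ≤ u j := by
    rintro (h | i)
    · exact mul_nonneg hσ0.le (Nat.cast_nonneg _)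
    · exact hw0
  -- the bound of the weights
  have hcu : ∀ S : Submodule ℝ (Fin n → ℝ),
      nuA a G * mu α m S ≤ mu α m G * nuA a S → cu (bt α) u S ≤ θ * finrank ℝ S := by
    intro S hS
    have h1 : (nuA a G : ℝ) * mu α m S ≤ mu α m G * nuA a S := by exact_mod_cast hS
    rw [nuA_eq ha0, nuA_eq ha0, ← hw, ← hV] at h1
    have h2 : V * mu α m S ≤ mu α m G * (finrank ℝ S - w * cc S) := by
      have h3 : (a : ℝ) * (V * mu α m S) ≤ a * (mu α m G * (finrank ℝ S - w * cc S)) := by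
        linarith
      exact le_of_mul_le_mul_left h3 ha'
    have h3 : σ * mu α m S ≤ l * (finrank ℝ S - w * cc S) := by
      rw [hl, div_mul_eq_mul_div, le_div_iff₀ hV0]
      have := mul_le_mul_of_nonneg_left h2 hσ0.le
      linarith
    rw [hu, cu_sum, hθ]
    have h4 : (1 - l) * w * cc S ≤ (1 - l) * w * finrank ℝ S :=
      mul_le_mul_of_nonneg_left (hccr S) (mul_nonneg (by linarith) hw0)
    nlinarith
  have hgood' : ∀ (k : ℕ) (b : Fin k → ι ⊕ Fin n), (∀ i, bt α (b i) ∈ G) → 0 < k →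
      spn (bt α) b ≠ G → LinearIndependent ℝ (fun i => bt α (b i)) →
      cu (bt α) u (spn (bt α) b) ≤ θ * k ∨ Cert (bt α) G (spn (bt α) b) := by
    intro k b hb hk hne hI
    rcases hgood k b hb hk hne hI with h1 | h1
    · left
      have h2 := hcu _ h1
      have h3 : finrank ℝ (spn (bt α) b) = k := by
        unfold spn
        rw [finrank_span_eq_card hI, Fintype.card_fin]
      rwa [h3] at h2
    · exact Or.inr h1
  obtain ⟨K, hK⟩ := greedyW hu0 (bt_ne hα) hG hθ0 hgood' (finrank ℝ G) le_rfl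
  have hcuG : cu (bt α) u G ≤ θ * finrank ℝ G := hcu G (by rw [mul_comm])
  -- the bound of the forms
  obtain ⟨R, hR1, hR⟩ : ∃ R : ℝ, 1 ≤ R ∧ ∀ x ∈ closedBall p ρ, ∀ j, bt α j ⬝ᵥ pw a x ≤ R := by
    have hc : Continuous fun (x : Fin n → ℝ) (j : ι ⊕ Fin n) => bt α j ⬝ᵥ pw a x :=
      continuous_pi fun j => (dot_cont _).comp (pw_cont a)
    obtain ⟨R, hR⟩ := ((isCompact_closedBall p ρ).image hc).isBounded.exists_norm_le
    refine ⟨max R 1, le_max_right _ _, fun x hx j => ?_⟩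
    have h2 := hR _ ⟨x, hx, rfl⟩
    have h3 := norm_le_pi_norm (fun j : ι ⊕ Fin n => bt α j ⬝ᵥ pw a x) j
    rw [Real.norm_eq_abs] at h3
    exact (le_abs_self _).trans (h3.trans (h2.trans (le_max_left _ _)))
  -- the majorant
  set B := (Finset.univ : Finset (Fin (finrank ℝ G) → ι ⊕ Fin n)).filter fun b =>
    (∀ i, bt α (b i) ∈ G) ∧ LinearIndependent ℝ (fun i => bt α (b i)) with hB
  set C1 := ∏ h, (if α h ∈ G then (1 : ℝ) else c0 ^ (-σ * m h)) with hC1
  set C2 := ∏ i : Fin n, (if (Pi.single i 1 : Fin n → ℝ) ∈ G then (1 : ℝ) else c0 ^ (-w)) with hC2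
  set K' := (θ * finrank ℝ G - cu (bt α) u G) * Real.log R + K with hK'
  have hC10 : 0 ≤ C1 := by
    refine Finset.prod_nonneg fun h _ => ?_
    split_ifs
    · exact zero_le_one
    · exact Real.rpow_nonneg hc0.le _
  have hC20 : 0 ≤ C2 := by
    refine Finset.prod_nonneg fun h _ => ?_
    split_ifs
    · exact zero_le_one
    · exact Real.rpow_nonneg hc0.le _
  have hmaj : IntegrableOn (fun x => (C1 * C2 * Real.exp K' / (a : ℝ) ^ n) * (|(dpw a x).det| *
      ∑ b ∈ B, ∏ i, |bt α (b i) ⬝ᵥ pw a x| ^ (-θ))) (Pos n ∩ closedBall p ρ) := by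
    refine Integrable.const_mul ?_ _
    refine int_pull ha0 (g := fun y => ∑ b ∈ B, ∏ i, |bt α (b i) ⬝ᵥ y| ^ (-θ))
      (fun R => ?_) p ρ
    refine integrable_finsetSum _ fun b hb => ?_
    exact indep_int (fun i => bt α (b i)) (Finset.mem_filter.1 hb).2.2 hθ1 0 R
  have hmaj' := hmaj.mono_set (s := Ux α a ∩ (Pos n ∩ closedBall p ρ)) inter_subset_right
  refine Integrable.mono' hmaj' hmeas.aestronglyMeasurable ?_
  rw [ae_restrict_iff' ((Ux_open α a).measurableSet.inter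
    (Pos_open.measurableSet.inter measurableSet_closedBall))]
  refine Eventually.of_forall fun x hx => ?_
  have hx0 : ∀ i, 0 < x i := hx.2.1
  set y := pw a x with hy
  have hyi : ∀ i, 0 < y i := fun i => pow_pos (hx0 i) a
  have hyb : ∀ j, 0 < bt α j ⬝ᵥ y := by
    rintro (h | i)
    · exact hx.1 h
    · rw [bt_inr]
      exact hyi i
  have hpos : 0 < rv (qf α m a) x := by
    rw [rv_qf]
    exact Finset.prod_pos fun h _ => pow_pos (hx.1 h) _
  rw [Real.norm_eq_abs, abs_of_nonneg (Real.rpow_nonneg hpos.le _)]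
  obtain ⟨b, hbG, hbI, -, -, hsum⟩ := hK y fun j _ => hyb j
  have hspn : spn (bt α) b = G := by
    have h1 : spn (bt α) b ≤ G := by
      unfold spn
      rw [Submodule.span_le]
      rintro _ ⟨i, rfl⟩
      exact hbG i
    refine Submodule.eq_of_le_of_finrank_eq h1 ?_
    unfold spn
    rw [finrank_span_eq_card hbI, Fintype.card_fin]
  rw [hspn, dif_pos hr] at hsum
  have hlast : (cu (bt α) u G - θ * finrank ℝ G) *
      -Real.log (bt α (b ⟨finrank ℝ G - 1, by omega⟩) ⬝ᵥ y) ≤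
      (θ * finrank ℝ G - cu (bt α) u G) * Real.log R := by
    have h1 : Real.log (bt α (b ⟨finrank ℝ G - 1, by omega⟩) ⬝ᵥ y) ≤ Real.log R :=
      Real.log_le_log (hyb _) (hR x hx.2.2 _)
    have h2 : 0 ≤ θ * finrank ℝ G - cu (bt α) u G := by linarith
    have h3 := mul_le_mul_of_nonneg_left h1 h2
    linarith
  -- the product
  have hprod : rv (qf α m a) x ^ s = ∏ h, (α h ⬝ᵥ y) ^ (-σ * m h) := by
    rw [rv_qf, ← Real.finsetProd_rpow _ _ fun h _ => pow_nonneg (hx.1 h).le _]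
    refine Finset.prod_congr rfl fun h _ => ?_
    rw [← Real.rpow_natCast, ← Real.rpow_mul (hx.1 h).le]
    congr 1
    rw [hσ]
    ring
  have hsp : ∏ h, (α h ⬝ᵥ y) ^ (-σ * m h) ≤ C1 *
      ∏ h, if α h ∈ G then (α h ⬝ᵥ y) ^ (-σ * m h) else 1 := by
    rw [hC1, ← Finset.prod_mul_distrib]
    refine Finset.prod_le_prod (fun h _ => Real.rpow_nonneg (hx.1 h).le _) fun h _ => ?_
    by_cases hh : α h ∈ G
    · rw [if_pos hh, if_pos hh, one_mul]
    · rw [if_neg hh, if_neg hh, mul_one]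
      refine Real.rpow_le_rpow_of_nonpos hc0 (hout (Sum.inl h) hh x hx.2.2) ?_
      have : (0 : ℝ) ≤ m h := Nat.cast_nonneg _
      nlinarith
  have hexp : (∏ h, if α h ∈ G then (α h ⬝ᵥ y) ^ (-σ * m h) else 1) *
      (∏ i, if (Pi.single i 1 : Fin n → ℝ) ∈ G then (y i) ^ (-w) else 1) ≤
      Real.exp K' * ∏ i, |bt α (b i) ⬝ᵥ y| ^ (-θ) := by
    have e1 : (∏ h, if α h ∈ G then (α h ⬝ᵥ y) ^ (-σ * m h) else 1) *
        (∏ i, if (Pi.single i 1 : Fin n → ℝ) ∈ G then (y i) ^ (-w) else 1) =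
        Real.exp (∑ j, if bt α j ∈ G then u j * -Real.log (bt α j ⬝ᵥ y) else 0) := by
      rw [Fintype.sum_sum_type, Real.exp_add, Real.exp_sum, Real.exp_sum]
      congr 1
      · refine Finset.prod_congr rfl fun h _ => ?_
        show _ = Real.exp (if α h ∈ G then σ * m h * -Real.log (α h ⬝ᵥ y) else 0)
        by_cases hh : α h ∈ G
        · rw [if_pos hh, if_pos hh, Real.rpow_def_of_pos (hx.1 h)]
          congr 1
          ring
        · rw [if_neg hh, if_neg hh, Real.exp_zero]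
      · refine Finset.prod_congr rfl fun i _ => ?_
        show _ = Real.exp (if (Pi.single i 1 : Fin n → ℝ) ∈ G then
          w * -Real.log (bt α (Sum.inr i) ⬝ᵥ y) else 0)
        rw [bt_inr]
        by_cases hh : (Pi.single i 1 : Fin n → ℝ) ∈ G
        · rw [if_pos hh, if_pos hh, Real.rpow_def_of_pos (hyi i)]
          congr 1
          ring
        · rw [if_neg hh, if_neg hh, Real.exp_zero]
    have e2 : Real.exp K' * ∏ i, |bt α (b i) ⬝ᵥ y| ^ (-θ) =
        Real.exp (∑ i, θ * -Real.log (bt α (b i) ⬝ᵥ y) + K') := by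
      rw [Real.exp_add (∑ i, θ * -Real.log (bt α (b i) ⬝ᵥ y)) K', Real.exp_sum, mul_comm]
      congr 1
      refine Finset.prod_congr rfl fun i _ => ?_
      rw [abs_of_pos (hyb (b i)), Real.rpow_def_of_pos (hyb _)]
      congr 1
      ring
    rw [e1, e2]
    refine Real.exp_le_exp.2 ?_
    rw [hK']
    linarith
  -- the weights
  have hwt : (1 : ℝ) ≤ (∏ i, if (Pi.single i 1 : Fin n → ℝ) ∈ G then (y i) ^ (-w) else 1) *
      (C2 * ∏ i, (y i) ^ w) := by
    rw [hC2, ← Finset.prod_mul_distrib, ← Finset.prod_mul_distrib]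
    refine Finset.one_le_prod fun i _ => ?_
    by_cases hh : (Pi.single i 1 : Fin n → ℝ) ∈ G
    · rw [if_pos hh, if_pos hh, one_mul, ← Real.rpow_add (hyi i), neg_add_cancel, Real.rpow_zero]
    · rw [if_neg hh, if_neg hh, one_mul, Real.rpow_neg hc0.le]
      have h1 : c0 ≤ y i := by
        have := hout (Sum.inr i) hh x hx.2.2
        rwa [bt_inr] at this
      have h2 : c0 ^ w ≤ (y i) ^ w := Real.rpow_le_rpow hc0.le h1 hw0
      have h3 : 0 < c0 ^ w := Real.rpow_pos_of_pos hc0 _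
      rw [← div_eq_inv_mul, one_le_div h3]
      exact h2
  have hdet := dpw_abs ha0 hx0
  rw [← hw, ← hy] at hdet
  have hmono : ∏ i, |bt α (b i) ⬝ᵥ y| ^ (-θ) ≤ ∑ b ∈ B, ∏ i, |bt α (b i) ⬝ᵥ y| ^ (-θ) := by
    have hbB : b ∈ B := Finset.mem_filter.2 ⟨Finset.mem_univ b, hbG, hbI⟩
    exact Finset.single_le_sum (f := fun b => ∏ i, |bt α (b i) ⬝ᵥ y| ^ (-θ))
      (fun b _ => Finset.prod_nonneg fun i _ => Real.rpow_nonneg (abs_nonneg _) _) hbB
  set E1 := ∏ h, (if α h ∈ G then (α h ⬝ᵥ y) ^ (-σ * m h) else 1) with hE1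
  set E2 := ∏ i, (if (Pi.single i 1 : Fin n → ℝ) ∈ G then (y i) ^ (-w) else 1) with hE2
  set E3 := ∏ i, (y i) ^ w with hE3
  set S1 := ∑ b ∈ B, ∏ i, |bt α (b i) ⬝ᵥ y| ^ (-θ) with hS1
  have hE10 : 0 ≤ E1 := by
    refine Finset.prod_nonneg fun h _ => ?_
    split_ifs
    · exact Real.rpow_nonneg (hx.1 h).le _
    · exact zero_le_one
  have hE30 : 0 ≤ E3 := Finset.prod_nonneg fun i _ => Real.rpow_nonneg (hyi i).le _
  rw [hprod, hdet]
  have han : (a : ℝ) ^ n ≠ 0 := pow_ne_zero _ ha'.ne'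
  have hfin : C1 * C2 * Real.exp K' / (a : ℝ) ^ n * ((a : ℝ) ^ n * E3 * S1) =
      C1 * ((Real.exp K' * S1) * (C2 * E3)) := by
    field_simp
  rw [hfin]
  refine hsp.trans (mul_le_mul_of_nonneg_left ?_ hC10)
  calc E1 = E1 * 1 := (mul_one _).symm
    _ ≤ E1 * (E2 * (C2 * E3)) := mul_le_mul_of_nonneg_left hwt hE10
    _ = (E1 * E2) * (C2 * E3) := by ring
    _ ≤ (Real.exp K' * ∏ i, |bt α (b i) ⬝ᵥ y| ^ (-θ)) * (C2 * E3) :=
        mul_le_mul_of_nonneg_right hexp (mul_nonneg hC20 hE30)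
    _ ≤ (Real.exp K' * S1) * (C2 * E3) := by
        refine mul_le_mul_of_nonneg_right ?_ (mul_nonneg hC20 hE30)
        exact mul_le_mul_of_nonneg_left hmono (Real.exp_pos _).le

end Pool.Agent.T6.H16.RA
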