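import Pool.Agent.T6.H16.RA.D5

set_option autoImplicit false

/-! The criterion for products of diagonal forms, general signs. -/

namespace Pool.Agent.T6.H16.RA

open MvPolynomial Set Module
open Pool.Agent.H628R4.TP (weylS IsBFunction)

variable {n : ℕ} {ι : Type} [Fintype ι] [DecidableEq ι]

/-- `x₀` is in a good chamber of the forms and the coordinates in `G` -/
def GoodW (α : ι → Fin n → ℝ) (m : ι → ℕ) (a : ℕ) (G : Submodule ℝ (Fin n → ℝ))
    (x₀ : Fin n → ℝ) : Prop :=
  (∀ j, bt α j ∈ G → bt α j ⬝ᵥ x₀ ≠ 0) ∧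
    ∀ x : Fin n → ℝ, (∀ j, bt α j ∈ G → 0 ≤ (bt α j ⬝ᵥ x) * (bt α j ⬝ᵥ x₀)) →
      atp (bt α) G x ≠ G →
      nuA a G * mu α m (atp (bt α) G x) ≤ mu α m G * nuA a (atp (bt α) G x)

/-- the change of the signs of the coordinates -/
def sg (η : Fin n → ℝ) (h : ∀ i, η i * η i = 1) : (Fin n → ℝ) ≃ₗ[ℝ] (Fin n → ℝ) where
  toFun := fun v i => η i * v i
  invFun := fun v i => η i * v i
  map_add' := fun v w => by
    funext i
    exact mul_add _ _ _
  map_smul' := fun c v => by
    funext i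
    simp only [Pi.smul_apply, smul_eq_mul, RingHom.id_apply]
    ring
  left_inv := fun v => by
    funext i
    simp only
    rw [← mul_assoc, h i, one_mul]
  right_inv := fun v => by
    funext i
    simp only
    rw [← mul_assoc, h i, one_mul]

section
variable {η : Fin n → ℝ} (hη : ∀ i, η i * η i = 1)

lemma sg_apply (v : Fin n → ℝ) (i : Fin n) : sg η hη v i = η i * v i := rfl

lemma sg_symm (v : Fin n → ℝ) : (sg η hη).symm v = sg η hη v := rfl

lemma sg_sg (v : Fin n → ℝ) : sg η hη (sg η hη v) = v := (sg η hη).left_inv v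

lemma sg_dot (v x : Fin n → ℝ) : sg η hη v ⬝ᵥ sg η hη x = v ⬝ᵥ x := by
  unfold dotProduct
  refine Finset.sum_congr rfl fun i _ => ?_
  rw [sg_apply, sg_apply]
  calc η i * v i * (η i * x i) = (η i * η i) * (v i * x i) := by ring
    _ = v i * x i := by rw [hη i, one_mul]

lemma sg_single (i : Fin n) : sg η hη (Pi.single i 1) = η i • (Pi.single i 1 : Fin n → ℝ) := by
  funext k
  rw [sg_apply, Pi.smul_apply, smul_eq_mul]
  by_cases hk : k = i
  · rw [hk]
  · rw [Pi.single_eq_of_ne hk, mul_zero, mul_zero]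

/-- the image of a space -/
def im (S : Submodule ℝ (Fin n → ℝ)) : Submodule ℝ (Fin n → ℝ) :=
  S.map (sg η hη : (Fin n → ℝ) →ₗ[ℝ] (Fin n → ℝ))

lemma mem_im {S : Submodule ℝ (Fin n → ℝ)} {v : Fin n → ℝ} :
    v ∈ im hη S ↔ sg η hη v ∈ S := by
  unfold im
  exact Submodule.mem_map_equiv S

lemma finrank_im (S : Submodule ℝ (Fin n → ℝ)) : finrank ℝ (im hη S) = finrank ℝ S :=
  LinearEquiv.finrank_map_eq (sg η hη) S

lemma cc_im (S : Submodule ℝ (Fin n → ℝ)) : cc (im hη S) = cc S := by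
  classical
  unfold cc
  congr 1
  ext i
  have h0 : η i ≠ 0 := fun h => by
    have := hη i
    rw [h] at this
    norm_num at this
  simp only [Finset.mem_filter, mem_im, sg_single, S.smul_mem_iff h0]

lemma nuA_im (a : ℕ) (S : Submodule ℝ (Fin n → ℝ)) : nuA a (im hη S) = nuA a S := by
  unfold nuA
  rw [finrank_im, cc_im]

end

/-- **The criterion for products of powers of diagonal forms.** -/
theorem critW {α : ι → Fin n → ℝ} {m : ι → ℕ} {a : ℕ} (ha : 2 ≤ a) (ha0 : 0 < a)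
    (hα : ∀ h, α h ≠ 0) (hm : ∀ h, 0 < m h) {G : Submodule ℝ (Fin n → ℝ)}
    (hG : IsFlat (bt α) G) (hM : 0 < mu α m G) {x₀ : Fin n → ℝ}
    (hgood : GoodW α m a G x₀) {b : Polynomial ℂ} (hb : IsBFunction (cx (qf α m a)) b) :
    b.eval (((-(nuA a G : ℝ) / (a * mu α m G : ℕ) : ℝ)) : ℂ) = 0 := by
  classical
  obtain ⟨p, hp, hp'⟩ := exists_generic (bt α) G
  set q : ι ⊕ Fin n → (Fin n → ℝ) := fun j => if bt α j ∈ G then x₀ else p with hq
  have hq0 : ∀ j, bt α j ⬝ᵥ q j ≠ 0 := by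
    intro j
    rw [hq]
    simp only
    split_ifs with hh
    · exact hgood.1 j hh
    · exact hp' j hh
  set ε : ι ⊕ Fin n → ℝ := fun j => if 0 < bt α j ⬝ᵥ q j then 1 else -1 with hε
  have hεε : ∀ j, ε j * ε j = 1 := by
    intro j
    rw [hε]
    simp only
    split_ifs <;> norm_num
  have hε0 : ∀ j, ε j ≠ 0 := fun j h0 => by
    have := hεε j
    rw [h0] at this
    norm_num at this
  have hεp : ∀ j, 0 < ε j * (bt α j ⬝ᵥ q j) := by
    intro j
    rw [hε]
    simp only
    split_ifs with hh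
    · linarith
    · have := lt_of_le_of_ne (not_lt.1 hh) (hq0 j)
      linarith
  set η : Fin n → ℝ := fun i => ε (Sum.inr i) with hη'
  have hη : ∀ i, η i * η i = 1 := fun i => hεε _
  set α' : ι → Fin n → ℝ := fun h => ε (Sum.inl h) • sg η hη (α h) with hα'
  have hbt : ∀ j, bt α' j = ε j • sg η hη (bt α j) := by
    rintro (h | i)
    · rfl
    · show (Pi.single i 1 : Fin n → ℝ) = ε (Sum.inr i) • sg η hη (Pi.single i 1)
      rw [sg_single, smul_smul]
      have : ε (Sum.inr i) * η i = 1 := hεε _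
      rw [this, one_smul]
  have hbt' : ∀ j, sg η hη (bt α j) = ε j • bt α' j := by
    intro j
    rw [hbt, smul_smul, hεε, one_smul]
  have hmem : ∀ j (S : Submodule ℝ (Fin n → ℝ)), bt α' j ∈ im hη S ↔ bt α j ∈ S := by
    intro j S
    rw [mem_im, hbt, map_smul, sg_sg, S.smul_mem_iff (hε0 j)]
  have hdot : ∀ j x, bt α' j ⬝ᵥ sg η hη x = ε j * (bt α j ⬝ᵥ x) := by
    intro j x
    rw [hbt, smul_dotProduct, sg_dot, smul_eq_mul]
  have hα'0 : ∀ h, α' h ≠ 0 := fun h => smul_ne_zero (hε0 _) (by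
    rw [Ne, LinearEquiv.map_eq_zero_iff]
    exact hα h)
  have hmu : ∀ S, mu α' m (im hη S) = mu α m S := by
    intro S
    unfold mu
    refine Finset.sum_congr rfl fun h _ => ?_
    have := hmem (Sum.inl h) S
    change (α' h ∈ im hη S ↔ α h ∈ S) at this
    simp only [this]
  have hG' : IsFlat (bt α') (im hη G) := by
    apply le_antisymm
    · conv_lhs => rw [hG]
      unfold im
      rw [Submodule.map_span, Submodule.span_le]
      rintro _ ⟨_, ⟨h1, j, rfl⟩, rfl⟩
      show sg η hη (bt α j) ∈ _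
      rw [hbt']
      exact Submodule.smul_mem _ _ (Submodule.subset_span ⟨(hmem j G).2 h1, j, rfl⟩)
    · rw [Submodule.span_le]
      rintro v ⟨h1, -⟩
      exact h1
  have hatp : ∀ x, atp (bt α') (im hη G) (sg η hη x) = im hη (atp (bt α) G x) := by
    intro x
    apply le_antisymm
    · unfold atp
      rw [Submodule.span_le]
      rintro _ ⟨h1, h2, j, rfl⟩
      rw [hdot] at h2
      exact (hmem j _).2 (Submodule.subset_span ⟨(hmem j G).1 h1,
        (mul_eq_zero.1 h2).resolve_left (hε0 j), j, rfl⟩)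
    · unfold im atp
      rw [Submodule.map_span, Submodule.span_le]
      rintro _ ⟨_, ⟨h1, h2, j, rfl⟩, rfl⟩
      show sg η hη (bt α j) ∈ _
      rw [hbt']
      refine Submodule.smul_mem _ _ (Submodule.subset_span ⟨(hmem j G).2 h1, ?_, j, rfl⟩)
      rw [hdot, h2, mul_zero]
  -- the polynomials
  have hz : ∀ i, ∃ z : ℂ, z ^ a = (η i : ℂ) := fun i =>
    IsAlgClosed.exists_pow_nat_eq _ ha0
  choose z hz using hz
  have hz0 : ∀ i, z i ≠ 0 := by
    intro i h0
    have h1 := hz i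
    rw [h0, zero_pow ha0.ne'] at h1
    exact hε0 (Sum.inr i) (by exact_mod_cast h1.symm)
  have hdf : ∀ (c : ℝ) (v : Fin n → ℝ), cx (dform a (c • sg η hη v)) =
      C (c : ℂ) * sc z (cx (dform a v)) := by
    intro c v
    unfold cx dform
    rw [map_sum, map_sum, map_sum, Finset.mul_sum]
    refine Finset.sum_congr rfl fun i _ => ?_
    simp only [map_mul, map_pow, map_C, map_X, sc_C, sc_X, Pi.smul_apply, smul_eq_mul, sg_apply,
      mul_pow]
    rw [← map_pow, hz i]
    simp only [Complex.coe_algebraMap]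
    ring
  have hcx : cx (qf α' m a) = C (∏ h, (ε (Sum.inl h) : ℂ) ^ m h) * sc z (cx (qf α m a)) := by
    have h1 : ∀ β : ι → Fin n → ℝ, cx (qf β m a) = ∏ h, cx (dform a (β h)) ^ m h := by
      intro β
      unfold cx qf
      rw [map_prod]
      simp only [map_pow]
    rw [h1, h1, map_prod, map_prod, ← Finset.prod_mul_distrib]
    refine Finset.prod_congr rfl fun h _ => ?_
    rw [hα', hdf, mul_pow, map_pow, map_pow]
  have hb' : IsBFunction (cx (qf α' m a)) b := by
    rw [hcx]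
    refine isBFunction_C_mul (isBFunction_sc hb hz0) ?_
    rw [Finset.prod_ne_zero_iff]
    intro h _
    exact pow_ne_zero _ (Complex.ofReal_ne_zero.2 (hε0 _))
  have key := crit_pos ha ha0 hα'0 hm hG' (by rw [hmu]; exact hM) (p := sg η hη p)
    (x₀ := sg η hη x₀) (fun v hv => ?_) (fun j hj => ?_) (fun j hj => ?_) (fun x' hx' hne => ?_) hb'
  · rw [hmu, nuA_im] at key
    exact key
  · rw [mem_im] at hv
    have := hp _ hv
    rwa [← sg_dot hη, sg_sg] at this
  · rw [hdot]
    have h1 := hεp j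
    have h2 : q j = p := if_neg fun h3 => hj ((hmem j G).2 h3)
    rwa [h2] at h1
  · rw [hdot]
    have h1 := hεp j
    have h2 : q j = x₀ := if_pos ((hmem j G).1 hj)
    rwa [h2] at h1
  · obtain ⟨x, rfl⟩ : ∃ x, x' = sg η hη x := ⟨sg η hη x', (sg_sg hη x').symm⟩
    rw [hatp] at hne ⊢
    rw [nuA_im, nuA_im, hmu, hmu]
    refine hgood.2 x (fun j hj => ?_) fun h1 => hne (by rw [h1])
    have h3 := hx' j ((hmem j G).2 hj)
    rw [hdot] at h3
    have h1 := hεp j
    have h2 : q j = x₀ := if_pos hj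
    rw [h2] at h1
    have h4 := mul_nonneg h3 h1.le
    have h5 : ε j * (bt α j ⬝ᵥ x) * (ε j * (bt α j ⬝ᵥ x₀)) =
        (ε j * ε j) * ((bt α j ⬝ᵥ x) * (bt α j ⬝ᵥ x₀)) := by ring
    rw [h5, hεε, one_mul] at h4
    exact h4

end Pool.Agent.T6.H16.RA
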