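import Pool.Agent.T6.H16.RA.D6

set_option autoImplicit false

/-! Heavy flats for products of diagonal forms. -/

namespace Pool.Agent.T6.H16.RA

open Module

variable {n : ℕ} {ι : Type} [Fintype ι]

/-- a heavy flat `S` of `G` -/
def HeavyW (α : ι → Fin n → ℝ) (m : ι → ℕ) (a : ℕ) (G S : Submodule ℝ (Fin n → ℝ)) : Prop :=
  S ≤ G ∧ S ≠ G ∧ IsFlat (bt α) S ∧ mu α m G * nuA a S < nuA a G * mu α m S

/-- all heavy flats of `G` contain the same form or coordinate -/
def CommonW (α : ι → Fin n → ℝ) (m : ι → ℕ) (a : ℕ) (G : Submodule ℝ (Fin n → ℝ)) : Prop :=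
  ∃ j, bt α j ∈ G ∧ ∀ S, HeavyW α m a G S → bt α j ∈ S

/-- two heavy flats are comparable, or generate `G` -/
def NestedW (α : ι → Fin n → ℝ) (m : ι → ℕ) (a : ℕ) (G : Submodule ℝ (Fin n → ℝ)) : Prop :=
  ∀ S T, HeavyW α m a G S → HeavyW α m a G T → S ≤ T ∨ T ≤ S ∨ S ⊔ T = G

variable {α : ι → Fin n → ℝ} {m : ι → ℕ} {a : ℕ} {G : Submodule ℝ (Fin n → ℝ)}

lemma cc_super (S T : Submodule ℝ (Fin n → ℝ)) : cc S + cc T ≤ cc (S ⊓ T) + cc (S ⊔ T) := by
  classical
  unfold cc
  rw [← Finset.card_union_add_card_inter]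
  rw [add_comm]
  refine Nat.add_le_add (Finset.card_le_card fun i hi => ?_) (Finset.card_le_card fun i hi => ?_)
  · rw [Finset.mem_inter, Finset.mem_filter, Finset.mem_filter] at hi
    exact Finset.mem_filter.2 ⟨Finset.mem_univ _, Submodule.mem_inf.2 ⟨hi.1.2, hi.2.2⟩⟩
  · rw [Finset.mem_union, Finset.mem_filter, Finset.mem_filter] at hi
    refine Finset.mem_filter.2 ⟨Finset.mem_univ _, ?_⟩
    rcases hi with hi | hi
    · exact Submodule.mem_sup_left hi.2
    · exact Submodule.mem_sup_right hi.2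

lemma cc_fl (S : Submodule ℝ (Fin n → ℝ)) : cc (fl (bt α) S) = cc S := by
  classical
  unfold cc
  congr 1
  ext i
  rw [Finset.mem_filter, Finset.mem_filter]
  have := mem_fl (α := bt α) (S := S) (h := Sum.inr i)
  change ((Pi.single i 1 : Fin n → ℝ) ∈ _ ↔ (Pi.single i 1 : Fin n → ℝ) ∈ S) at this
  rw [this]

lemma muW_fl (S : Submodule ℝ (Fin n → ℝ)) : mu α m (fl (bt α) S) = mu α m S := by
  classical
  unfold mu
  refine Finset.sum_congr rfl fun h _ => ?_
  have := mem_fl (α := bt α) (S := S) (h := Sum.inl h)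
  change (α h ∈ _ ↔ α h ∈ S) at this
  simp only [this]

lemma nuA_fl (S : Submodule ℝ (Fin n → ℝ)) : nuA a (fl (bt α) S) ≤ nuA a S := by
  unfold nuA
  rw [cc_fl]
  have h1 := Submodule.finrank_mono (fl_le (α := bt α) S)
  exact Nat.add_le_add_right (Nat.mul_le_mul_left _ (Nat.sub_le_sub_right h1 _)) _

lemma nuA_sub (ha : 0 < a) (S T : Submodule ℝ (Fin n → ℝ)) :
    nuA a (S ⊓ T) + nuA a (S ⊔ T) ≤ nuA a S + nuA a T := by
  have h1 := Submodule.finrank_sup_add_finrank_inf_eq S T
  have h2 := cc_super S T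
  have h3 : ((nuA a (S ⊓ T) + nuA a (S ⊔ T) : ℕ) : ℝ) ≤ ((nuA a S + nuA a T : ℕ) : ℝ) := by
    push_cast
    rw [nuA_eq ha, nuA_eq ha, nuA_eq ha, nuA_eq ha]
    have h4 : (finrank ℝ (S ⊔ T : Submodule ℝ (Fin n → ℝ)) : ℝ) +
        finrank ℝ (S ⊓ T : Submodule ℝ (Fin n → ℝ)) = finrank ℝ S + finrank ℝ T := by
      exact_mod_cast h1
    have h5 : (cc S : ℝ) + cc T ≤ cc (S ⊓ T) + cc (S ⊔ T) := by exact_mod_cast h2
    have h6 := mul_le_mul_of_nonneg_left h5 (wa_nonneg ha)
    have h7 : (0 : ℝ) < a := by exact_mod_cast ha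
    rw [← mul_add, ← mul_add]
    refine mul_le_mul_of_nonneg_left ?_ h7.le
    linarith
  exact_mod_cast h3

/-- the smallest heavy flat -/
theorem commonW (ha : 0 < a) (hI : IsIrr (bt α) G) (hN : NestedW α m a G) :
    CommonW α m a G := by
  classical
  by_cases hex : ∃ S, HeavyW α m a G S
  · -- minimal rank
    obtain ⟨M, hM, hmin⟩ : ∃ M, HeavyW α m a G M ∧ ∀ T, HeavyW α m a G T →
        finrank ℝ M ≤ finrank ℝ T := by
      have h1 : ∃ k, ∃ S, HeavyW α m a G S ∧ finrank ℝ S = k := by
        obtain ⟨S, hS⟩ := hex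
        exact ⟨_, S, hS, rfl⟩
      obtain ⟨M, hM, hk⟩ := Nat.find_spec h1
      refine ⟨M, hM, fun T hT => ?_⟩
      rw [hk]
      exact Nat.find_min' h1 ⟨T, hT, rfl⟩
    have hle : ∀ T, HeavyW α m a G T → M ≤ T := by
      intro T hT
      rcases hN M T hM hT with h1 | h1 | h1
      · exact h1
      · exact (Submodule.eq_of_le_of_finrank_le h1 (hmin T hT)).ge
      · by_contra hMT
        have h2 := mu_super (α := α) (m := m) M T
        have h3 := nuA_sub ha M T
        rw [h1] at h2 h3
        have h4 : nuA a (fl (bt α) (M ⊓ T)) ≤ nuA a (M ⊓ T) := nuA_fl _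
        have h5 : mu α m G * nuA a (fl (bt α) (M ⊓ T)) <
            nuA a G * mu α m (fl (bt α) (M ⊓ T)) := by
          rw [muW_fl]
          have a1 := hM.2.2.2
          have a2 := hT.2.2.2
          have a3 : mu α m G * nuA a (fl (bt α) (M ⊓ T)) ≤ mu α m G * nuA a (M ⊓ T) :=
            Nat.mul_le_mul_left _ h4
          have a4 : mu α m G * nuA a (M ⊓ T) + mu α m G * nuA a G ≤
              mu α m G * nuA a M + mu α m G * nuA a T := by
            rw [← Nat.mul_add, ← Nat.mul_add]
            exact Nat.mul_le_mul_left _ h3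
          have a5 : nuA a G * mu α m M + nuA a G * mu α m T ≤
              nuA a G * mu α m (M ⊓ T) + nuA a G * mu α m G := by
            rw [← Nat.mul_add, ← Nat.mul_add]
            exact Nat.mul_le_mul_left _ h2
          have a6 : nuA a G * mu α m G = mu α m G * nuA a G := Nat.mul_comm _ _
          omega
        have h6 : fl (bt α) (M ⊓ T) ≤ M := (fl_le _).trans inf_le_left
        have h7 : HeavyW α m a G (fl (bt α) (M ⊓ T)) := by
          refine ⟨h6.trans hM.1, fun h8 => ?_, fl_flat _, h5⟩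
          rw [h8] at h6
          exact hM.2.1 (le_antisymm hM.1 h6)
        have h8 := hmin _ h7
        have h9 := Submodule.eq_of_le_of_finrank_le h6 h8
        apply hMT
        rw [← h9]
        exact (fl_le _).trans inf_le_right
    have hne : ∃ h, α h ∈ M := by
      by_contra hcon
      push Not at hcon
      have h1 : mu α m M = 0 := by
        unfold mu
        exact Finset.sum_eq_zero fun h _ => if_neg (hcon h)
      have h2 := hM.2.2.2
      rw [h1, mul_zero] at h2
      exact Nat.not_lt_zero _ h2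
    obtain ⟨h, hh⟩ := hne
    exact ⟨Sum.inl h, hM.1 hh, fun S hS => hle S hS hh⟩
  · push Not at hex
    have hne : ∃ j, bt α j ∈ G := by
      by_contra hcon
      push Not at hcon
      apply hI.1
      rw [hI.2.1, Submodule.span_eq_bot]
      rintro _ ⟨h1, h2, rfl⟩
      exact absurd h1 (hcon h2)
    obtain ⟨j, hj⟩ := hne
    exact ⟨j, hj, fun S hS => absurd hS (hex S)⟩

/-- flats of rank at most two -/
theorem nested_two (h2 : finrank ℝ G ≤ 2) (hα : ∀ h, α h ≠ 0) : NestedW α m a G := by
  intro S T hS hT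
  by_contra hcon
  push Not at hcon
  obtain ⟨c1, c2, c3⟩ := hcon
  have r1 : finrank ℝ (S ⊔ T : Submodule ℝ (Fin n → ℝ)) < finrank ℝ G :=
    Submodule.finrank_lt_finrank_of_lt (lt_of_le_of_ne (sup_le hS.1 hT.1) c3)
  have r2 : finrank ℝ S < finrank ℝ (S ⊔ T : Submodule ℝ (Fin n → ℝ)) := by
    refine Submodule.finrank_lt_finrank_of_lt (lt_of_le_of_ne le_sup_left fun h => c2 ?_)
    rw [h]
    exact le_sup_right
  have r3 : finrank ℝ S = 0 := by omega
  have h3 := hS.2.2.2
  rw [Submodule.finrank_eq_zero.1 r3, mu_bot hα, mul_zero] at h3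
  exact Nat.not_lt_zero _ h3

variable [DecidableEq ι]

/-- **Good chambers.** -/
theorem goodW_of_common (hα : ∀ h, α h ≠ 0) (hI : IsIrr (bt α) G) (hC : CommonW α m a G) :
    ∃ x₀, GoodW α m a G x₀ := by
  obtain ⟨h, hh, hheavy⟩ := hC
  obtain ⟨x, -, hx2, hx3⟩ := bounded_chamber _ (fin (bt α) G) ∅ h rfl (mem_fin.2 hh)
    (conn_of_irr (bt_ne hα) hI) (fun g _ hg => by
      unfold sp at hg
      rw [Finset.coe_empty, Set.image_empty, Submodule.span_empty, Submodule.mem_bot] at hg
      exact bt_ne hα g hg)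
  refine ⟨x, fun g hg => hx2 g (mem_fin.2 hg), fun y hy hne => ?_⟩
  by_contra hcon
  have h1 : HeavyW α m a G (atp (bt α) G y) :=
    ⟨atp_le (bt α) G y, hne, atp_flat (bt α) G y, not_le.1 hcon⟩
  have h2 := hheavy _ h1
  have h3 := hx3 y (fun g hg => absurd hg (Finset.notMem_empty g))
    (fun g hg => hy g (mem_fin.1 hg)) (atp_zero (bt α) G y _ h2)
  apply hne
  apply le_antisymm (atp_le (bt α) G y)
  conv_lhs => rw [hI.2.1]
  rw [Submodule.span_le]
  rintro _ ⟨h4, g, rfl⟩
  exact Submodule.subset_span ⟨h4, h3 g (mem_fin.2 h4), g, rfl⟩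

lemma card_fin_bt (S : Submodule ℝ (Fin n → ℝ)) :
    (fin (bt α) S).card = mu α (fun _ => 1) S + cc S := by
  classical
  unfold fin mu cc
  rw [Finset.card_filter, Fintype.sum_sum_type, Finset.card_filter]
  rfl

lemma arith_one {a r cG d k c N : ℕ} (ha : 2 ≤ a) (hd : 2 ≤ d) (h4 : r ≤ 3 ∨ r = 4 ∧ cG = 4)
    (hc : cG ≤ r) (hcard : 2 ≤ r → r + 1 ≤ d + cG) (hr : 2 ≤ r) (hk : k ≤ 1) (hN : N + c ≤ 1)
    (h0 : k = 0 → N = 0) (hlt : d * (a * (k - c) + c) < (a * (r - cG) + cG) * N) : False := by
  have hN1 : N = 1 := by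
    rcases Nat.eq_zero_or_pos N with h1 | h1
    · rw [h1, mul_zero] at hlt
      exact absurd hlt (Nat.not_lt_zero _)
    · omega
  subst hN1
  have hc0 : c = 0 := by omega
  subst hc0
  have hk1 : k = 1 := by omega
  subst hk1
  have hcard' := hcard hr
  have e1 : d * (a * (1 - 0) + 0) = d * a := by simp
  rw [e1, mul_one] at hlt
  have h5 : 2 * a ≤ d * a := Nat.mul_le_mul_right a hd
  have h6 : (r + 1 - cG) * a ≤ d * a := Nat.mul_le_mul_right a (by omega)
  have h7 : (r + 1 - cG) * a = a * (r - cG) + a := by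
    have : r + 1 - cG = (r - cG) + 1 := by omega
    rw [this]
    ring
  rw [h7] at h6
  -- so `a < cG`
  have h8 : a < cG := by omega
  have h9 : r - cG = 0 := by omega
  rw [h9, mul_zero, Nat.zero_add] at hlt
  omega

lemma arith_two {a d cS cT cI cJ NS NT NI NJ : ℕ} (ha : 2 ≤ a) (hd : 2 ≤ d) (q1 : cS ≤ 2)
    (q2 : cT ≤ 2) (s1 : d * (a * (2 - cS) + cS) < (a * (4 - 4) + 4) * NS)
    (s2 : d * (a * (2 - cT) + cT) < (a * (4 - 4) + 4) * NT) (i1 : NI + cI ≤ 1)
    (hsup : NS + NT ≤ NI + NJ) (hcsup : cS + cT ≤ cI + cJ) (hNJ : NJ ≤ d) (q4 : cJ ≤ 3) :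
    False := by
  have key : ∀ c : ℕ, c ≤ 2 → d * (4 - c) ≤ d * (a * (2 - c) + c) := by
    intro c hc
    refine Nat.mul_le_mul_left d ?_
    have h1 : 2 * (2 - c) ≤ a * (2 - c) := Nat.mul_le_mul_right _ ha
    omega
  have k1 := key cS q1
  have k2 := key cT q2
  have e : ∀ N : ℕ, (a * (4 - 4) + 4) * N = 4 * N := fun N => by simp
  rw [e] at s1 s2
  have l1 := lt_of_le_of_lt k1 s1
  have l2 := lt_of_le_of_lt k2 s2
  interval_cases cS <;> interval_cases cT <;> omega

/-- **Reduced products of at most four variables.** -/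
theorem commonW_four (ha : 2 ≤ a) (hα : ∀ h, α h ≠ 0)
    (hred : ∀ (h h' : ι) (c : ℝ), α h' = c • α h → h' = h)
    (hco : ∀ (h : ι) (i : Fin n) (c : ℝ), α h ≠ c • Pi.single i 1)
    (hI : IsIrr (bt α) G) (h4 : finrank ℝ G ≤ 3 ∨ finrank ℝ G = 4 ∧ cc G = 4) :
    CommonW α (fun _ => 1) a G := by
  classical
  have hmu1 : ∀ W : Submodule ℝ (Fin n → ℝ), mu α (fun _ => 1) W = (fin α W).card := by
    intro W
    unfold mu fin
    rw [Finset.card_filter]
  -- the forms are pairwise not proportional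
  have hle1 : ∀ W : Submodule ℝ (Fin n → ℝ), finrank ℝ W ≤ 1 →
      mu α (fun _ => 1) W + cc W ≤ 1 := by
    intro W hW
    rw [← card_fin_bt, Finset.card_le_one]
    intro p hp q hq
    have hp' := mem_fin.1 hp
    have hq' := mem_fin.1 hq
    have h1 : Submodule.span ℝ {bt α p} = W := by
      refine Submodule.eq_of_le_of_finrank_le ?_ ?_
      · rw [Submodule.span_singleton_le_iff_mem]
        exact hp'
      · rw [finrank_span_singleton (bt_ne hα p)]
        exact hW
    have hq2 := hq'
    rw [← h1, Submodule.mem_span_singleton] at hq2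
    obtain ⟨c, hc⟩ := hq2
    have h1' : Submodule.span ℝ {bt α q} = W := by
      refine Submodule.eq_of_le_of_finrank_le ?_ ?_
      · rw [Submodule.span_singleton_le_iff_mem]
        exact hq'
      · rw [finrank_span_singleton (bt_ne hα q)]
        exact hW
    have hp2 := hp'
    rw [← h1', Submodule.mem_span_singleton] at hp2
    obtain ⟨c', hc'⟩ := hp2
    rcases p with h | i
    · rcases q with h' | i'
      · rw [hred h h' c hc.symm]
      · exact absurd hc'.symm (hco h i' c')
    · rcases q with h' | i'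
      · exact absurd hc.symm (hco h' i c)
      · by_cases hii : i' = i
        · rw [hii]
        · have h5 : c * (Pi.single i 1 : Fin n → ℝ) i' = (Pi.single i' 1 : Fin n → ℝ) i' :=
            congrFun hc i'
          rw [Pi.single_eq_same, Pi.single_eq_of_ne hii, mul_zero] at h5
          exact absurd h5 zero_ne_one
  by_cases hN1 : mu α (fun _ => 1) G ≤ 1
  · -- at most one form
    by_cases hN0 : ∃ h, α h ∈ G
    · obtain ⟨h, hh⟩ := hN0
      refine ⟨Sum.inl h, hh, fun S hS => ?_⟩
      obtain ⟨h', hh'⟩ : ∃ h', α h' ∈ S := by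
        by_contra hcon
        push Not at hcon
        have h1 : mu α (fun _ => 1) S = 0 := by
          unfold mu
          exact Finset.sum_eq_zero fun h _ => if_neg (hcon h)
        have h2 := hS.2.2.2
        rw [h1, mul_zero] at h2
        exact Nat.not_lt_zero _ h2
      rw [hmu1, Finset.card_le_one] at hN1
      rw [hN1 h (mem_fin.2 hh) h' (mem_fin.2 (hS.1 hh'))]
      exact hh'
    · push Not at hN0
      refine commonW (by omega) hI ?_
      intro S T hS hT
      exfalso
      have h1 : mu α (fun _ => 1) S = 0 := by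
        unfold mu
        exact Finset.sum_eq_zero fun h _ => if_neg fun h2 => hN0 h (hS.1 h2)
      have h2 := hS.2.2.2
      rw [h1, mul_zero] at h2
      exact Nat.not_lt_zero _ h2
  · refine commonW (by omega) hI ?_
    intro S T hS hT
    by_contra hcon
    push Not at hcon
    obtain ⟨c1, c2, c3⟩ := hcon
    have hNJ : mu α (fun _ => 1) (S ⊔ T) ≤ mu α (fun _ => 1) G :=
      mu_mono (sup_le hS.1 hT.1)
    have hsup := mu_super (α := α) (m := fun _ => 1) S T
    have hcsup := cc_super S T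
    have hrk := Submodule.finrank_sup_add_finrank_inf_eq S T
    have r1 : finrank ℝ (S ⊔ T : Submodule ℝ (Fin n → ℝ)) < finrank ℝ G := by
      refine Submodule.finrank_lt_finrank_of_lt (lt_of_le_of_ne (sup_le hS.1 hT.1) c3)
    have r2 : finrank ℝ S < finrank ℝ (S ⊔ T : Submodule ℝ (Fin n → ℝ)) := by
      refine Submodule.finrank_lt_finrank_of_lt (lt_of_le_of_ne le_sup_left fun h => c2 ?_)
      rw [h]
      exact le_sup_right
    have r3 : finrank ℝ T < finrank ℝ (S ⊔ T : Submodule ℝ (Fin n → ℝ)) := by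
      refine Submodule.finrank_lt_finrank_of_lt (lt_of_le_of_ne le_sup_right fun h => c1 ?_)
      rw [h]
      exact le_sup_left
    have s1 := hS.2.2.2
    have s2 := hT.2.2.2
    have i1 := hle1 (S ⊓ T)
    have i2 := hle1 S
    have i3 := hle1 T
    have q1 := cc_le S
    have q2 := cc_le T
    have q3 := cc_le (S ⊓ T)
    have q4 := cc_le (S ⊔ T)
    have q5 := cc_le G
    -- the number of forms in `G`
    have hcard : 2 ≤ finrank ℝ G → finrank ℝ G + 1 ≤ mu α (fun _ => 1) G + cc G := by
      intro h2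
      rw [← card_fin_bt]
      have hconn := conn_of_irr (bt_ne hα) hI
      have h3 : rk (bt α) (fin (bt α) G) = finrank ℝ G := by
        unfold rk
        rw [sp_fin hI.2.1]
      have h4 := rk_le_card (α := bt α) (fin (bt α) G)
      rw [h3] at h4
      obtain ⟨g, hg⟩ : (fin (bt α) G).Nonempty := by
        rw [← Finset.card_pos]
        omega
      have h5 : ((fin (bt α) G).erase g).Nonempty := by
        rw [← Finset.card_pos, Finset.card_erase_of_mem hg]
        omega
      have h6 := hconn {g} ((fin (bt α) G).erase g) (Finset.singleton_nonempty g) h5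
        (Finset.disjoint_singleton_left.2 (Finset.notMem_erase g _))
        (by rw [← Finset.insert_eq, Finset.insert_erase hg])
      rw [Finset.union_empty, Finset.union_empty, Finset.union_empty, rk_empty, h3] at h6
      have h7 := rk_single_le (α := bt α) g
      have h8 := rk_le_card (α := bt α) ((fin (bt α) G).erase g)
      rw [Finset.card_erase_of_mem hg] at h8
      omega
    have j0S : finrank ℝ S = 0 → mu α (fun _ => 1) S = 0 := fun h => by
      rw [Submodule.finrank_eq_zero.1 h, mu_bot hα]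
    have j0T : finrank ℝ T = 0 → mu α (fun _ => 1) T = 0 := fun h => by
      rw [Submodule.finrank_eq_zero.1 h, mu_bot hα]
    unfold nuA at s1 s2
    generalize finrank ℝ (S ⊔ T : Submodule ℝ (Fin n → ℝ)) = j at *
    generalize finrank ℝ (S ⊓ T : Submodule ℝ (Fin n → ℝ)) = k0 at *
    generalize finrank ℝ S = k at *
    generalize finrank ℝ T = t at *
    generalize finrank ℝ G = r at *
    generalize mu α (fun _ => 1) G = d at *
    generalize mu α (fun _ => 1) (S ⊔ T) = NJ at *
    generalize mu α (fun _ => 1) (S ⊓ T) = NI at *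
    generalize mu α (fun _ => 1) S = NS at *
    generalize mu α (fun _ => 1) T = NT at *
    generalize cc G = cG at *
    generalize cc (S ⊔ T) = cJ at *
    generalize cc (S ⊓ T) = cI at *
    generalize cc S = cS at *
    generalize cc T = cT at *
    have k2 : 2 ≤ k := by
      by_contra hk
      have hk' : k ≤ 1 := by omega
      exact arith_one ha (by omega) h4 q5 hcard (by omega) hk' (i2 hk') j0S s1
    have t2 : 2 ≤ t := by
      by_contra ht
      have ht' : t ≤ 1 := by omega
      exact arith_one ha (by omega) h4 q5 hcard (by omega) ht' (i3 ht') j0T s2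
    have hr : r = 4 := by omega
    have hcG : cG = 4 := by omega
    have hj : j = 3 := by omega
    have hk : k = 2 := by omega
    have ht : t = 2 := by omega
    have hk0 : k0 = 1 := by omega
    subst hr hcG hj hk ht hk0
    exact arith_two ha (by omega) q1 q2 s1 s2 (i1 le_rfl) hsup hcsup hNJ q4

end Pool.Agent.T6.H16.RA
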