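import Pool.Agent.T6.H16.RA.E1
import Pool.Agent.W574.MO.Homog
import Pool.Agent.TH192.DT.TopZ

set_option autoImplicit false

/-! The poles. -/

namespace Pool.Agent.T6.H16.RA

open MvPolynomial Module
open Pool.Agent.H628R4.TP (IsBFunction IsLocalBFunction)
open Pool.Agent.TH192.DT (topZ pole_topZ)

variable {n : ℕ} {ι : Type} [Fintype ι]

/-- `f = ∏ h, (∑ i, c_{h,i} x_i ^ a) ^ m_h` -/
noncomputable def diagProd (c : ι → Fin n → ℝ) (m : ι → ℕ) (a : ℕ) : MvPolynomial (Fin n) ℂ :=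
  ∏ h, (∑ i, C (c h i : ℂ) * X i ^ a) ^ m h

/-- `ν` for the component which belongs to the flat `G` -/
noncomputable def nuG (a : ℕ) (G : Submodule ℝ (Fin n → ℝ)) : ℕ :=
  if cc G = 0 then finrank ℝ G else nuA a G

/-- `N` for the component which belongs to the flat `G` -/
noncomputable def nG (c : ι → Fin n → ℝ) (m : ι → ℕ) (a : ℕ) (G : Submodule ℝ (Fin n → ℝ)) : ℕ :=
  if cc G = 0 then mu c m G else a * mu c m G

lemma cx_dform (a : ℕ) (v : Fin n → ℝ) : cx (dform a v) = ∑ i, C (v i : ℂ) * X i ^ a := by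
  unfold cx dform
  rw [map_sum]
  simp only [map_mul, map_pow, map_C, map_X, Complex.coe_algebraMap]

lemma diagProd_eq (c : ι → Fin n → ℝ) (m : ι → ℕ) (a : ℕ) : diagProd c m a = cx (qf c m a) := by
  have h1 : cx (qf c m a) = ∏ h, cx (dform a (c h)) ^ m h := by
    unfold cx qf
    rw [map_prod]
    simp only [map_pow]
  rw [h1]
  unfold diagProd
  simp only [cx_dform]

lemma diagProd_hom (c : ι → Fin n → ℝ) (m : ι → ℕ) (a : ℕ) :
    (diagProd c m a).IsHomogeneous (∑ h, a * m h) := by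
  unfold diagProd
  refine IsHomogeneous.prod _ _ _ fun h _ => ?_
  refine IsHomogeneous.pow ?_ _
  refine IsHomogeneous.sum _ _ _ fun i _ => ?_
  have h1 := (isHomogeneous_C (Fin n) (c h i : ℂ)).mul ((isHomogeneous_X ℂ i).pow a)
  rwa [zero_add, one_mul] at h1

lemma cx_dform_ne {a : ℕ} (ha : 0 < a) {v : Fin n → ℝ} (hv : v ≠ 0) : cx (dform a v) ≠ 0 := by
  obtain ⟨i, hi⟩ := Function.ne_iff.1 hv
  intro h0
  have h1 := ev_cx (dform a v) (Pi.single i 1)
  rw [h0, map_zero, rv_dform] at h1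
  have h2 : pw a (Pi.single i 1 : Fin n → ℝ) = Pi.single i 1 := by
    funext k
    unfold pw
    by_cases hk : k = i
    · rw [hk, Pi.single_eq_same, one_pow]
    · rw [Pi.single_eq_of_ne hk, zero_pow ha.ne']
  rw [h2, dotProduct_single, mul_one] at h1
  exact hi (by exact_mod_cast h1.symm)

lemma diagProd_ne {c : ι → Fin n → ℝ} {m : ι → ℕ} {a : ℕ} (ha : 0 < a) (hc : ∀ h, c h ≠ 0) :
    diagProd c m a ≠ 0 := by
  unfold diagProd
  rw [Finset.prod_ne_zero_iff]
  intro h _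
  rw [← cx_dform]
  exact pow_ne_zero _ (cx_dform_ne ha (hc h))

lemma nuA_pos {a : ℕ} (ha : 0 < a) {G : Submodule ℝ (Fin n → ℝ)} (hG : G ≠ ⊥) : 0 < nuA a G := by
  unfold nuA
  have h1 := cc_le G
  have hr : 0 < finrank ℝ G := Submodule.one_le_finrank_iff.2 hG
  rcases Nat.eq_zero_or_pos (cc G) with h2 | h2
  · rw [h2, Nat.sub_zero, Nat.add_zero]
    exact Nat.mul_pos ha hr
  · omega

/-- **The poles are roots.** -/
theorem poles_diag {c : ι → Fin n → ℝ} {m : ι → ℕ} {a : ℕ} (ha : 2 ≤ a) (ha0 : 0 < a)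
    (hc : ∀ h, c h ≠ 0) (hm : ∀ h, 0 < m h) {I : Type} [Fintype I]
    (G : I → Submodule ℝ (Fin n → ℝ)) (hG : ∀ i, IsIrr (bt c) (G i) ∧ ∃ x₀, GoodW c m a (G i) x₀)
    (χ : Finset I → ℤ) (s₀ : ℂ)
    (hs : (topZ (fun i => nuG a (G i)) (fun i => nG c m a (G i)) χ).denom.eval s₀ = 0)
    (b : Polynomial ℂ) (hb : IsLocalBFunction (diagProd c m a) b) : b.eval s₀ = 0 := by
  classical
  have hb' : IsBFunction (cx (qf c m a)) b := by
    rw [← diagProd_eq]
    exact Pool.Agent.W574.MO.global_of_local _ (diagProd_ne ha0 hc) _ (diagProd_hom c m a) b hb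
  obtain ⟨i, hN, rfl⟩ := pole_topZ _ _ χ (fun i => by
    unfold nuG
    split_ifs
    · exact Submodule.one_le_finrank_iff.2 (hG i).1.1
    · exact nuA_pos ha0 (hG i).1.1) s₀ hs
  have hM : 0 < mu c m (G i) := by
    unfold nG at hN
    split_ifs at hN
    · exact hN
    · exact Nat.pos_of_mul_pos_left hN
  obtain ⟨x₀, hx₀⟩ := (hG i).2
  have key := critW ha ha0 hc hm (hG i).1.2.1 hM hx₀ hb'
  have ha' : (a : ℂ) ≠ 0 := by exact_mod_cast ha0.ne'
  have hM' : (mu c m (G i) : ℂ) ≠ 0 := by exact_mod_cast hM.ne'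
  convert key using 1
  congr 1
  unfold nuG nG
  push_cast
  split_ifs with h0
  · unfold nuA
    rw [h0, Nat.sub_zero, Nat.add_zero]
    push_cast
    field_simp
  · push_cast
    rfl

/-- **At most four variables, reduced.** -/
theorem common_le_four {c : ι → Fin n → ℝ} {a : ℕ} (ha : 2 ≤ a) (hc : ∀ h, c h ≠ 0)
    (hred : ∀ (h h' : ι) (t : ℝ), c h' = t • c h → h' = h)
    (hco : ∀ (h : ι) (i : Fin n) (t : ℝ), c h ≠ t • Pi.single i 1) (hn : n ≤ 4)
    {G : Submodule ℝ (Fin n → ℝ)} (hI : IsIrr (bt c) G) : CommonW c (fun _ => 1) a G := by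
  classical
  refine commonW_four ha hc hred hco hI ?_
  have h1 : finrank ℝ G ≤ n := by
    have := Submodule.finrank_le G
    rwa [finrank_fintype_fun_eq_card, Fintype.card_fin] at this
  by_cases h3 : finrank ℝ G ≤ 3
  · exact Or.inl h3
  · right
    have hn4 : n = 4 := by omega
    have hr : finrank ℝ G = 4 := by omega
    refine ⟨hr, ?_⟩
    have htop : G = ⊤ := by
      refine Submodule.eq_top_of_finrank_eq ?_
      rw [finrank_fintype_fun_eq_card, Fintype.card_fin, hr, hn4]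
    unfold cc
    rw [htop]
    simp [hn4]

end Pool.Agent.T6.H16.RA
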