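import Pool.Agent.T6.H16.RA.E1

set_option autoImplicit false

/-! Pencils of diagonal forms, in any number of variables. -/

namespace Pool.Agent.T6.H16.RA

open Module

variable {n : ℕ} {ι : Type} [Fintype ι]

/-- the span of the coordinates in `S` -/
noncomputable def cs (S : Submodule ℝ (Fin n → ℝ)) : Submodule ℝ (Fin n → ℝ) :=
  open Classical in Submodule.span ℝ
    ((Finset.univ.filter fun i : Fin n => (Pi.single i 1 : Fin n → ℝ) ∈ S).image
      fun i => (Pi.single i 1 : Fin n → ℝ) : Finset (Fin n → ℝ))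

lemma cs_le (S : Submodule ℝ (Fin n → ℝ)) : cs S ≤ S := by
  classical
  unfold cs
  rw [Submodule.span_le]
  intro v hv
  rw [Finset.mem_coe, Finset.mem_image] at hv
  obtain ⟨i, hi, rfl⟩ := hv
  exact (Finset.mem_filter.1 hi).2

lemma mem_cs {S : Submodule ℝ (Fin n → ℝ)} {i : Fin n} (h : (Pi.single i 1 : Fin n → ℝ) ∈ S) :
    (Pi.single i 1 : Fin n → ℝ) ∈ cs S := by
  classical
  unfold cs
  refine Submodule.subset_span ?_
  rw [Finset.mem_coe, Finset.mem_image]
  exact ⟨i, Finset.mem_filter.2 ⟨Finset.mem_univ _, h⟩, rfl⟩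

lemma finrank_cs (S : Submodule ℝ (Fin n → ℝ)) : finrank ℝ (cs S) = cc S := by
  classical
  apply le_antisymm
  · unfold cs cc
    exact (finrank_span_finset_le_card _).trans Finset.card_image_le
  · refine le_trans ?_ (cc_le (cs S))
    unfold cc
    refine Finset.card_le_card fun i hi => ?_
    rw [Finset.mem_filter] at hi ⊢
    exact ⟨hi.1, mem_cs hi.2⟩

/-- the elements of `cs S` are zero at the other coordinates -/
lemma cs_zero {S : Submodule ℝ (Fin n → ℝ)} {v : Fin n → ℝ} (hv : v ∈ cs S) (j : Fin n)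
    (hj : (Pi.single j 1 : Fin n → ℝ) ∉ S) : v j = 0 := by
  classical
  unfold cs at hv
  induction hv using Submodule.span_induction with
  | mem v hv =>
    rw [Finset.mem_coe, Finset.mem_image] at hv
    obtain ⟨i, hi, rfl⟩ := hv
    have h1 : j ≠ i := by
      rintro rfl
      exact hj (Finset.mem_filter.1 hi).2
    exact Pi.single_eq_of_ne h1 _
  | zero => rfl
  | add v w _ _ hv hw => rw [Pi.add_apply, hv, hw, add_zero]
  | smul c v _ hv => rw [Pi.smul_apply, hv, smul_zero]

variable {c : ι → Fin n → ℝ} {m : ι → ℕ} {a : ℕ} {G : Submodule ℝ (Fin n → ℝ)}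

/-- two forms span the pencil -/
lemma pencil_span (hc : ∀ h, c h ≠ 0) (hred : ∀ (h h' : ι) (t : ℝ), c h' = t • c h → h' = h)
    (hL : finrank ℝ (Submodule.span ℝ (Set.range c)) ≤ 2) {h h' : ι} (hh : h ≠ h')
    {S : Submodule ℝ (Fin n → ℝ)} (h1 : c h ∈ S) (h2 : c h' ∈ S) :
    Submodule.span ℝ (Set.range c) ≤ S := by
  have hI : LinearIndependent ℝ ![c h, c h'] := by
    rw [LinearIndependent.pair_iff]
    intro s t hst
    by_cases ht : t = 0
    · rw [ht, zero_smul, add_zero] at hst
      exact ⟨(smul_eq_zero.1 hst).resolve_right (hc h), ht⟩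
    · exfalso
      apply hh
      refine (hred h h' (-(s / t)) ?_).symm
      have h3 : t • c h' = (-s) • c h := by
        rw [neg_smul]
        exact eq_neg_of_add_eq_zero_right hst
      have h4 : c h' = t⁻¹ • ((-s) • c h) := by
        rw [← h3, smul_smul, inv_mul_cancel₀ ht, one_smul]
      rw [h4, smul_smul]
      congr 1
      field_simp
  have h3 : finrank ℝ (Submodule.span ℝ (Set.range ![c h, c h'])) = 2 := by
    rw [finrank_span_eq_card hI, Fintype.card_fin]
  have h4 : Submodule.span ℝ (Set.range ![c h, c h']) ≤ Submodule.span ℝ (Set.range c) := by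
    rw [Submodule.span_le]
    rintro _ ⟨i, rfl⟩
    refine Submodule.subset_span ?_
    fin_cases i
    · exact ⟨h, rfl⟩
    · exact ⟨h', rfl⟩
  have h5 : Submodule.span ℝ (Set.range ![c h, c h']) = Submodule.span ℝ (Set.range c) :=
    Submodule.eq_of_le_of_finrank_le h4 (by rw [h3]; exact hL)
  rw [← h5, Submodule.span_le]
  rintro _ ⟨i, rfl⟩
  fin_cases i
  · exact h1
  · exact h2

/-- **Pencils.** -/
theorem common_pencil (ha : 0 < a) (hc : ∀ h, c h ≠ 0)
    (hred : ∀ (h h' : ι) (t : ℝ), c h' = t • c h → h' = h)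
    (hL : finrank ℝ (Submodule.span ℝ (Set.range c)) ≤ 2) (hm : ∀ h, 0 < m h)
    (hmn : ∀ h, m h * (a + n) ≤ a * ∑ h', m h') (hI : IsIrr (bt c) G) : CommonW c m a G := by
  classical
  -- heavy flats contain a form
  have hform : ∀ S, HeavyW c m a G S → ∃ h, c h ∈ S := by
    intro S hS
    by_contra hcon
    push Not at hcon
    have h1 : mu c m S = 0 := by
      unfold mu
      exact Finset.sum_eq_zero fun h _ => if_neg (hcon h)
    have h2 := hS.2.2.2
    rw [h1, mul_zero] at h2
    exact Nat.not_lt_zero _ h2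
  -- a flat with no forms
  have hnone : (∀ h, c h ∉ G) → CommonW c m a G := by
    intro h0
    obtain ⟨j, hj⟩ : ∃ j, bt c j ∈ G := by
      by_contra hcon
      push Not at hcon
      apply hI.1
      rw [hI.2.1, Submodule.span_eq_bot]
      rintro _ ⟨h1, h2, rfl⟩
      exact absurd h1 (hcon h2)
    refine ⟨j, hj, fun S hS => ?_⟩
    obtain ⟨h, hh⟩ := hform S hS
    exact absurd (hS.1 hh) (h0 h)
  by_cases h0 : ∀ h, c h ∉ G
  · exact hnone h0
  push Not at h0
  obtain ⟨h₁, hh₁⟩ := h0
  set L := Submodule.span ℝ (Set.range c) with hLdef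
  have hcL : ∀ h, c h ∈ L := fun h => Submodule.subset_span ⟨h, rfl⟩
  by_cases hLG : L ≤ G
  swap
  · -- only one form
    refine ⟨Sum.inl h₁, hh₁, fun S hS => ?_⟩
    obtain ⟨h, hh⟩ := hform S hS
    by_cases heq : h = h₁
    · rw [← heq]
      exact hh
    · exact absurd (pencil_span hc hred hL heq (hS.1 hh) hh₁) hLG
  -- all forms
  have hM : mu c m G = ∑ h', m h' := by
    unfold mu
    exact Finset.sum_congr rfl fun h _ => if_pos (hLG (hcL h))
  set M := ∑ h', m h' with hMdef
  have hM0 : 0 < M := lt_of_lt_of_le (hm h₁)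
    (Finset.single_le_sum (f := m) (fun _ _ => Nat.zero_le _) (Finset.mem_univ h₁))
  have hGL : G = L ⊔ cs G := by
    apply le_antisymm
    · conv_lhs => rw [hI.2.1]
      rw [Submodule.span_le]
      rintro _ ⟨h1, j, rfl⟩
      rcases j with h | i
      · exact Submodule.mem_sup_left (hcL h)
      · exact Submodule.mem_sup_right (mem_cs h1)
    · exact sup_le hLG (cs_le G)
  by_cases hLC : L ⊓ cs G = ⊥
  · rcases hI.2.2 L (cs G) hLC (fun j hj => by
      rcases j with h | i
      · exact Or.inl (hcL h)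
      · exact Or.inr (mem_cs hj)) with h2 | h2
    · exact commonW ha hI (nested_two ((Submodule.finrank_mono h2).trans hL) hc)
    · exfalso
      have h3 : c h₁ ∈ L ⊓ cs G := ⟨hcL h₁, h2 hh₁⟩
      rw [hLC, Submodule.mem_bot] at h3
      exact hc h₁ h3
  -- the rank of `G`
  have hrG : finrank ℝ G ≤ 1 + cc G := by
    have h2 := Submodule.finrank_sup_add_finrank_inf_eq L (cs G)
    rw [← hGL, finrank_cs] at h2
    have h3 : 1 ≤ finrank ℝ (L ⊓ cs G : Submodule ℝ (Fin n → ℝ)) :=
      Submodule.one_le_finrank_iff.2 hLC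
    omega
  have hccn : cc G ≤ n := by
    unfold cc
    refine (Finset.card_le_univ _).trans ?_
    rw [Fintype.card_fin]
  have hnuG : nuA a G ≤ a + n := by
    unfold nuA
    have h2 : finrank ℝ G - cc G ≤ 1 := by omega
    have h3 : a * (finrank ℝ G - cc G) ≤ a * 1 := Nat.mul_le_mul_left _ h2
    omega
  -- heavy flats with one form
  have hspecial : ∀ S, HeavyW c m a G S → ¬ L ≤ S → ∀ h, c h ∈ S →
      mu c m S = m h ∧ finrank ℝ S = cc S ∧ S = cs S := by
    intro S hS hLS h hh
    have h2 : mu c m S = m h := by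
      unfold mu
      rw [Finset.sum_eq_single h]
      · rw [if_pos hh]
      · intro h' _ hne
        rw [if_neg]
        intro h3
        exact hLS (pencil_span hc hred hL hne h3 hh)
      · intro h3
        exact absurd (Finset.mem_univ h) h3
    have h3 := hS.2.2.2
    rw [h2, hM] at h3
    have h4 : nuA a G * m h ≤ a * M := by
      calc nuA a G * m h ≤ (a + n) * m h := Nat.mul_le_mul_right _ hnuG
        _ = m h * (a + n) := Nat.mul_comm _ _
        _ ≤ a * M := hmn h
    have h5 : M * nuA a S < M * a := by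
      calc M * nuA a S < nuA a G * m h := h3
        _ ≤ a * M := h4
        _ = M * a := Nat.mul_comm _ _
    have h6 : nuA a S < a := lt_of_mul_lt_mul_left h5 (Nat.zero_le _)
    have h7 : finrank ℝ S = cc S := by
      have h8 := cc_le S
      by_contra hne
      have h9 : 1 ≤ finrank ℝ S - cc S := by omega
      have h10 : a * 1 ≤ a * (finrank ℝ S - cc S) := Nat.mul_le_mul_left _ h9
      unfold nuA at h6
      omega
    refine ⟨h2, h7, ?_⟩
    exact (Submodule.eq_of_le_of_finrank_eq (cs_le S) (by rw [finrank_cs, h7])).symm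
  by_cases hsp : ∃ S, HeavyW c m a G S ∧ ¬ L ≤ S
  · obtain ⟨S₀, hS₀, hLS₀⟩ := hsp
    obtain ⟨h₀, hh₀⟩ := hform S₀ hS₀
    obtain ⟨a1, a2, a3⟩ := hspecial S₀ hS₀ hLS₀ h₀ hh₀
    refine ⟨Sum.inl h₀, hS₀.1 hh₀, fun S hS => ?_⟩
    by_cases hLS : L ≤ S
    · exact hLS (hcL h₀)
    obtain ⟨h, hh⟩ := hform S hS
    obtain ⟨b1, b2, b3⟩ := hspecial S hS hLS h hh
    by_cases heq : h = h₀
    · rw [← heq]
      exact hh
    exfalso
    -- `G` is spanned by the coordinates in the two flats
    have hLsup : L ≤ S₀ ⊔ S := pencil_span hc hred hL heq (Submodule.mem_sup_right hh)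
      (Submodule.mem_sup_left hh₀)
    set G₂ : Submodule ℝ (Fin n → ℝ) := Submodule.span ℝ
      {v | ∃ i : Fin n, v = Pi.single i 1 ∧ (Pi.single i 1 : Fin n → ℝ) ∉ S₀ ∧
        (Pi.single i 1 : Fin n → ℝ) ∉ S} with hG₂
    have hdis : (S₀ ⊔ S) ⊓ G₂ = ⊥ := by
      rw [Submodule.eq_bot_iff]
      rintro v ⟨hv1, hv2⟩
      funext j
      by_cases hj : (Pi.single j 1 : Fin n → ℝ) ∉ S₀ ∧ (Pi.single j 1 : Fin n → ℝ) ∉ S
      · obtain ⟨v1, hv3, v2, hv4, rfl⟩ := Submodule.mem_sup.1 hv1
        rw [a3] at hv3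
        rw [b3] at hv4
        rw [Pi.add_apply, cs_zero hv3 j hj.1, cs_zero hv4 j hj.2]
        simp
      · have h5 : ∀ v ∈ G₂, v j = 0 := by
          intro v hv
          rw [hG₂] at hv
          induction hv using Submodule.span_induction with
          | mem v hv =>
            obtain ⟨i, rfl, hi1, hi2⟩ := hv
            have h6 : j ≠ i := by
              rintro rfl
              exact hj ⟨hi1, hi2⟩
            exact Pi.single_eq_of_ne h6 _
          | zero => rfl
          | add v w _ _ hv hw => rw [Pi.add_apply, hv, hw, add_zero]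
          | smul c v _ hv => rw [Pi.smul_apply, hv, smul_zero]
        exact h5 v hv2
    have hG1 : G ≤ S₀ ⊔ S := by
      rcases hI.2.2 (S₀ ⊔ S) G₂ hdis (fun j hj => by
        rcases j with h' | i
        · exact Or.inl (hLsup (hcL h'))
        · by_cases hi : (Pi.single i 1 : Fin n → ℝ) ∉ S₀ ∧ (Pi.single i 1 : Fin n → ℝ) ∉ S
          · exact Or.inr (Submodule.subset_span ⟨i, rfl, hi⟩)
          · left
            by_cases hi1 : (Pi.single i 1 : Fin n → ℝ) ∈ S₀
            · exact Submodule.mem_sup_left hi1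
            · exact Submodule.mem_sup_right (by
                by_contra hi2
                exact hi ⟨hi1, hi2⟩)) with h5 | h5
      · exact h5
      · exfalso
        have h6 : c h₁ ∈ (S₀ ⊔ S) ⊓ G₂ := ⟨hLsup (hcL h₁), h5 hh₁⟩
        rw [hdis, Submodule.mem_bot] at h6
        exact hc h₁ h6
    have hfin : finrank ℝ G ≤ cc S₀ + cc S := by
      have h5 := Submodule.finrank_mono hG1
      have h6 := Submodule.finrank_sup_add_finrank_inf_eq S₀ S
      omega
    have hnuG' : nuA a G ≤ cc S₀ + cc S := by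
      have h5 : cs G = G := by
        apply le_antisymm (cs_le G)
        have h6 : S₀ ≤ cs G := by
          rw [a3]
          unfold cs
          rw [Submodule.span_le]
          intro v hv
          rw [Finset.mem_coe, Finset.mem_image] at hv
          obtain ⟨i, hi, rfl⟩ := hv
          exact mem_cs (hS₀.1 (Finset.mem_filter.1 hi).2)
        have h7 : S ≤ cs G := by
          rw [b3]
          unfold cs
          rw [Submodule.span_le]
          intro v hv
          rw [Finset.mem_coe, Finset.mem_image] at hv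
          obtain ⟨i, hi, rfl⟩ := hv
          exact mem_cs (hS.1 (Finset.mem_filter.1 hi).2)
        exact hG1.trans (sup_le h6 h7)
      have h6 : finrank ℝ G = cc G := by
        rw [← finrank_cs, h5]
      unfold nuA
      rw [h6, Nat.sub_self, mul_zero, Nat.zero_add, ← h6]
      exact hfin
    have hs0 : nuA a S₀ = cc S₀ := by
      unfold nuA
      rw [a2, Nat.sub_self, mul_zero, Nat.zero_add]
    have hs : nuA a S = cc S := by
      unfold nuA
      rw [b2, Nat.sub_self, mul_zero, Nat.zero_add]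
    have e1 := hS₀.2.2.2
    have e2 := hS.2.2.2
    rw [hM, hs0, a1] at e1
    rw [hM, hs, b1] at e2
    have hmm : m h₀ + m h ≤ M := by
      have h5 : ∑ x ∈ ({h₀, h} : Finset ι), m x ≤ ∑ x, m x :=
        Finset.sum_le_sum_of_subset (Finset.subset_univ _)
      rwa [Finset.sum_pair (fun h6 => heq h6.symm)] at h5
    have e3 : M * nuA a G ≤ M * (cc S₀ + cc S) := Nat.mul_le_mul_left _ hnuG'
    have e4 : nuA a G * (m h₀ + m h) ≤ nuA a G * M := Nat.mul_le_mul_left _ hmm
    have e5 : M * nuA a G = nuA a G * M := Nat.mul_comm _ _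
    rw [Nat.mul_add] at e3 e4
    omega
  · push Not at hsp
    exact ⟨Sum.inl h₁, hh₁, fun S hS => hsp S hS (hcL h₁)⟩

end Pool.Agent.T6.H16.RA
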