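import Pool.Agent.T6.H16.RA.H1

set_option autoImplicit false

/-! Integration by parts on the positive orthant. -/

namespace Pool.Agent.T6.H16.RA

open MvPolynomial MeasureTheory Set Filter Topology Metric
open scoped ContDiff

/-- the integral of a derivative over the positive orthant -/
lemma half_zero' {m : ℕ} (i : Fin (m + 1)) {Ψ Ψ' : (Fin (m + 1) → ℝ) → ℂ}
    (hΨ : ∀ x, HasLineDerivAt ℝ Ψ (Ψ' x) x (Pi.single i 1)) (hc' : Continuous Ψ')
    {C : Set (Fin (m + 1) → ℝ)} (hC : IsCompact C) (hs : ∀ x, x ∉ C → Ψ x = 0)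
    (hs' : ∀ x, x ∉ C → Ψ' x = 0)
    (h0 : ∀ x, x i = 0 → Ψ x = 0) : ∫ x in Pos (m + 1), Ψ' x = 0 := by
  have hI : Integrable Ψ' :=
    hc'.integrable_of_hasCompactSupport (HasCompactSupport.intro' hC hC.isClosed hs')
  have hPm : MeasurableSet (Pos (m + 1)) := Pos_open.measurableSet
  rw [← integral_indicator hPm]
  have hI' : Integrable ((Pos (m + 1)).indicator Ψ') := hI.indicator hPm
  have e := (volume_preserving_piFinSuccAbove (fun _ : Fin (m + 1) => ℝ) i).symm
  rw [← e.integral_comp' ((Pos (m + 1)).indicator Ψ')]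
  have hI2 : Integrable (fun q : ℝ × (Fin m → ℝ) => (Pos (m + 1)).indicator Ψ'
      ((MeasurableEquiv.piFinSuccAbove (fun _ : Fin (m + 1) => ℝ) i).symm q)) :=
    (e.integrable_comp_emb (MeasurableEquiv.measurableEmbedding _)).2 hI'
  have e2 := integral_prod_symm _ hI2
  refine e2.trans ?_
  have hins : ∀ (s : ℝ) (y : Fin m → ℝ),
      (MeasurableEquiv.piFinSuccAbove (fun _ : Fin (m + 1) => ℝ) i).symm (s, y) =
      i.insertNth s y := fun s y => rfl
  have hzero : ∀ y : Fin m → ℝ, ∫ s, (Pos (m + 1)).indicator Ψ'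
      ((MeasurableEquiv.piFinSuccAbove (fun _ : Fin (m + 1) => ℝ) i).symm (s, y)) = 0 := by
    intro y
    simp only [hins]
    by_cases hy : ∀ j, 0 < y j
    · have e3 : (fun s : ℝ => (Pos (m + 1)).indicator Ψ' (i.insertNth s y)) =
          (Ioi (0 : ℝ)).indicator fun s => Ψ' (i.insertNth s y) := by
        funext s
        by_cases hs0 : 0 < s
        · rw [indicator_of_mem (s := Ioi (0 : ℝ)) hs0, indicator_of_mem]
          intro j
          rcases Fin.eq_self_or_eq_succAbove i j with rfl | ⟨k, rfl⟩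
          · rw [Fin.insertNth_apply_same]
            exact hs0
          · rw [Fin.insertNth_apply_succAbove]
            exact hy k
        · rw [indicator_of_notMem (s := Ioi (0 : ℝ)) hs0, indicator_of_notMem]
          intro h
          have := h i
          rw [Fin.insertNth_apply_same] at this
          exact hs0 this
      rw [e3, integral_indicator measurableSet_Ioi]
      -- the one-variable function
      have hadd : ∀ s t : ℝ, (i.insertNth s y : Fin (m + 1) → ℝ) +
          t • (Pi.single i (1 : ℝ) : Fin (m + 1) → ℝ) = i.insertNth (s + t) y := by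
        intro s t
        funext j
        rcases Fin.eq_self_or_eq_succAbove i j with rfl | ⟨k, rfl⟩
        · simp
        · simp
      have hder : ∀ s : ℝ, HasDerivAt (fun s : ℝ => Ψ (i.insertNth s y))
          (Ψ' (i.insertNth s y)) s := by
        intro s
        have h1 := hΨ (i.insertNth s y)
        unfold HasLineDerivAt at h1
        simp only [hadd] at h1
        have h2 : HasDerivAt (fun u : ℝ => u - s) 1 s := (hasDerivAt_id s).sub_const s
        have h3 : HasDerivAt (fun t : ℝ => Ψ (i.insertNth (s + t) y)) (Ψ' (i.insertNth s y))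
            ((fun u : ℝ => u - s) s) := by simpa using h1
        have h4 := HasDerivAt.scomp (h := fun u : ℝ => u - s) s h3 h2
        rw [one_smul] at h4
        refine h4.congr_of_eventuallyEq (Eventually.of_forall fun u => ?_)
        simp [Function.comp]
      obtain ⟨R, hR⟩ := hC.isBounded.exists_norm_le
      have hbig : ∀ s : ℝ, R < |s| → (i.insertNth s y : Fin (m + 1) → ℝ) ∉ C := by
        intro s hs1 hmem
        have h1 := hR _ hmem
        have h2 := norm_le_pi_norm (i.insertNth s y : Fin (m + 1) → ℝ) i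
        rw [Fin.insertNth_apply_same, Real.norm_eq_abs] at h2
        linarith
      have hcd : Continuous fun s : ℝ => Ψ' (i.insertNth s y) := by
        refine hc'.comp ?_
        refine continuous_pi fun j => ?_
        rcases Fin.eq_self_or_eq_succAbove i j with rfl | ⟨k, rfl⟩
        · simp only [Fin.insertNth_apply_same]
          exact continuous_id
        · simp only [Fin.insertNth_apply_succAbove]
          exact continuous_const
      have hint : Integrable fun s : ℝ => Ψ' (i.insertNth s y) := by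
        refine hcd.integrable_of_hasCompactSupport ?_
        refine HasCompactSupport.intro' (isCompact_closedBall (0 : ℝ) R) isClosed_closedBall
          fun s hs1 => ?_
        refine hs' _ (hbig s ?_)
        rw [mem_closedBall, dist_zero_right, Real.norm_eq_abs] at hs1
        exact not_le.1 hs1
      have ht : Tendsto (fun s : ℝ => Ψ (i.insertNth s y)) atTop (𝓝 0) := by
        refine tendsto_const_nhds.congr' ?_
        filter_upwards [eventually_gt_atTop (max R 0)] with s hs1
        symm
        refine hs _ (hbig s ?_)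
        rw [abs_of_pos (lt_of_le_of_lt (le_max_right _ _) hs1)]
        exact lt_of_le_of_lt (le_max_left _ _) hs1
      rw [integral_Ioi_of_hasDerivAt_of_tendsto' (fun s _ => hder s) hint.integrableOn ht]
      rw [h0 _ (Fin.insertNth_apply_same i 0 y), sub_zero]
    · have e3 : (fun s : ℝ => (Pos (m + 1)).indicator Ψ' (i.insertNth s y)) = fun _ => 0 := by
        funext s
        rw [indicator_of_notMem]
        intro h
        apply hy
        intro j
        have := h (i.succAbove j)
        rwa [Fin.insertNth_apply_succAbove] at this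
      rw [e3, integral_zero]
  simp only [hzero, integral_zero]

lemma half_zero {n : ℕ} (i : Fin n) {Ψ Ψ' : (Fin n → ℝ) → ℂ}
    (hΨ : ∀ x, HasLineDerivAt ℝ Ψ (Ψ' x) x (Pi.single i 1)) (hc' : Continuous Ψ')
    {C : Set (Fin n → ℝ)} (hC : IsCompact C) (hs : ∀ x, x ∉ C → Ψ x = 0)
    (hs' : ∀ x, x ∉ C → Ψ' x = 0)
    (h0 : ∀ x, x i = 0 → Ψ x = 0) : ∫ x in Pos n, Ψ' x = 0 := by
  obtain ⟨m, rfl⟩ : ∃ m, n = m + 1 := ⟨n - 1, by have := i.2; omega⟩
  exact half_zero' i hΨ hc' hC hs hs' h0

variable {n : ℕ} {κ : Type} [Fintype κ] {ζ : κ → Fin n → ℂ} {a : ℕ} {K : Set (Fin n → ℝ)}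
  {f : MvPolynomial (Fin n) ℝ} {U : Set (Fin n → ℝ)}

/-- the integral over the sectors -/
noncomputable def PT (f : MvPolynomial (Fin n) ℝ) (U : Set (Fin n → ℝ)) (t : ℝ)
    (g : κ → (Fin n → ℝ) → ℂ) : ℂ := ∑ k, ∫ x in Pos n, (Fs f U t x : ℂ) * g k x

omit [Fintype κ] in
lemma PT_int (hf : Reg f U) (ha : 0 < a) (hK : IsCompact K) {t : ℝ} (ht : 0 < t)
    {g : κ → (Fin n → ℝ) → ℂ} (hg : g ∈ TS a ζ K) (k : κ) :
    Integrable fun x => (Fs f U t x : ℂ) * g k x :=
  (((Complex.continuous_ofReal.comp (Fs_cont hf ht)).mul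
    (TS_sm hg k).continuous).integrable_of_hasCompactSupport ((TS_cs ha hK hg k).mul_left))

lemma PT_add (hf : Reg f U) (ha : 0 < a) (hK : IsCompact K) {t : ℝ} (ht : 0 < t)
    {g h : κ → (Fin n → ℝ) → ℂ} (hg : g ∈ TS a ζ K) (hh : h ∈ TS a ζ K) :
    PT f U t (g + h) = PT f U t g + PT f U t h := by
  unfold PT
  rw [← Finset.sum_add_distrib]
  refine Finset.sum_congr rfl fun k _ => ?_
  rw [← integral_add (PT_int hf ha hK ht hg k).integrableOn
    (PT_int hf ha hK ht hh k).integrableOn]
  refine integral_congr_ae (Eventually.of_forall fun x => ?_)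
  show (Fs f U t x : ℂ) * (g k x + h k x) = _
  rw [mul_add]

lemma PT_smul (t : ℝ) (c : ℂ) (g : κ → (Fin n → ℝ) → ℂ) :
    PT f U t (c • g) = c * PT f U t g := by
  unfold PT
  rw [Finset.mul_sum]
  refine Finset.sum_congr rfl fun k _ => ?_
  rw [← integral_const_mul]
  refine integral_congr_ae (Eventually.of_forall fun x => ?_)
  show (Fs f U t x : ℂ) * (c * g k x) = c * ((Fs f U t x : ℂ) * g k x)
  ring

/-- the invariance of `f` -/
def Inv (ζ : κ → Fin n → ℂ) (f : MvPolynomial (Fin n) ℝ) : Prop :=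
  ∀ k, sc (ζ k) (cx f) = cx f

lemma PT_absorb (hf : Reg f U) (hi : Inv ζ f) (t : ℝ) (m : ℕ) (g : κ → (Fin n → ℝ) → ℂ) :
    PT f U (t - m) (mulS ζ (cx f ^ m) g) = PT f U t g := by
  unfold PT
  refine Finset.sum_congr rfl fun k _ => ?_
  refine integral_congr_ae (Eventually.of_forall fun x => ?_)
  show (Fs f U (t - m) x : ℂ) * (ev x (sc (ζ k) (cx f ^ m)) * g k x) = (Fs f U t x : ℂ) * g k x
  rw [map_pow, hi k, ← mul_assoc, Fs_mul' hf]

/-- **Integration by parts.** -/
theorem partsS (hf : Reg f U) (hi : Inv ζ f) (ha : 0 < a) (hS : Sec a ζ) (hK : IsCompact K)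
    {t : ℝ} (ht : 1 < t) {g : κ → (Fin n → ℝ) → ℂ} (hg : g ∈ TS a ζ K) (i : Fin n) :
    PT f U t (dz ζ i g) =
      - PT f U (t - 1) (mulS ζ ((t : ℂ) • cx (pderiv i f)) g) := by
  have hz : ∀ k i, ζ k i ≠ 0 := by
    intro k i h0
    have := hS.one k i
    rw [h0, zero_pow ha.ne'] at this
    exact zero_ne_one this
  set V : (Fin n → ℝ) → ℂ := fun x => ∑ k, (ζ k i)⁻¹ * g k x with hV
  have hVs : ContDiff ℝ ∞ V := by
    rw [hV]
    exact ContDiff.sum fun k _ => contDiff_const.mul (TS_sm hg k)
  have hV0 : ∀ x, x i = 0 → V x = 0 := by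
    intro x hx
    obtain ⟨σ, w, hw1, hσ1, hσ2⟩ := hS.rot i
    have hw0 : ∀ k : κ, w ≠ 0 := fun k h0 => by
      have h1 := hσ1 k
      rw [h0, zero_mul] at h1
      exact hz _ _ h1
    have h1 : V x = w⁻¹ * V x := by
      have h2 : V x = ∑ k, (ζ (σ k) i)⁻¹ * g (σ k) x := by
        rw [hV]
        exact (Equiv.sum_comp σ fun k => (ζ k i)⁻¹ * g k x).symm
      conv_lhs => rw [h2]
      rw [hV]
      simp only
      rw [Finset.mul_sum]
      refine Finset.sum_congr rfl fun k _ => ?_
      rw [hσ1 k, TS_bd hg hx (k := σ k) (l := k) (fun j hj => hσ2 k j hj), mul_inv, mul_assoc]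
    by_cases hk : Nonempty κ
    · obtain ⟨k⟩ := hk
      have h2 : w⁻¹ ≠ 1 := fun h3 => hw1 (by rw [← inv_inv w, h3, inv_one])
      have h3 : (1 - w⁻¹) * V x = 0 := by
        rw [sub_mul, one_mul, ← h1, sub_self]
      rcases mul_eq_zero.1 h3 with h4 | h4
      · exact absurd (sub_eq_zero.1 h4).symm h2
      · exact h4
    · rw [hV]
      simp only
      have : IsEmpty κ := not_nonempty_iff.1 hk
      exact Fintype.sum_empty _
  set C0 := pw a ⁻¹' K with hC0
  have hCc : IsCompact C0 := pw_compact ha hK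
  have hVC : ∀ x, x ∉ C0 → V x = 0 := fun x hx => by
    rw [hV]
    exact Finset.sum_eq_zero fun k _ => by rw [TS_su hg k hx, mul_zero]
  have hdV : ∀ x, dg i V x = ∑ k, dz ζ i g k x := by
    intro x
    have h1 : HasFDerivAt V (∑ k, (ζ k i)⁻¹ • fderiv ℝ (g k) x) x := by
      rw [hV]
      refine HasFDerivAt.fun_sum fun k _ => ?_
      exact (((TS_sm hg k).differentiable (by simp)).differentiableAt (x := x)).hasFDerivAt.const_mul
        ((ζ k i)⁻¹)
    unfold dg
    rw [h1.fderiv, ContinuousLinearMap.sum_apply]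
    rfl
  have hdVC : ∀ x, x ∉ C0 → dg i V x = 0 := fun x hx => by
    rw [hdV]
    exact Finset.sum_eq_zero fun k _ => TS_su (TS_dz ha hS.one i hg) k hx
  -- the derivative
  set Ψ : (Fin n → ℝ) → ℂ := fun x => (Fs f U t x : ℂ) * V x with hΨ
  set Ψ' : (Fin n → ℝ) → ℂ := fun x => ((t : ℂ) * (Fs f U (t - 1) x : ℂ) *
    ev x (cx (pderiv i f))) * V x + (Fs f U t x : ℂ) * dg i V x with hΨ'
  have key : ∫ x in Pos n, Ψ' x = 0 := by
    refine half_zero i (Ψ := Ψ) (fun x => ?_) ?_ hCc (fun x hx => ?_) (fun x hx => ?_)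
      (fun x hx => ?_)
    · have h2 := (Fs_line hf ht x i)
      have h3 := ((hVs.differentiable (by simp)).differentiableAt (x := x)).hasFDerivAt.hasLineDerivAt
        (Pi.single i 1)
      unfold HasLineDerivAt at h2 h3 ⊢
      have h4 := h2.ofReal_comp.fun_mul h3
      simp only [zero_smul, add_zero] at h4
      refine h4.congr_deriv ?_
      rw [hΨ']
      simp only
      rw [ev_cx]
      push_cast
      rfl
    · rw [hΨ']
      have c1 : Continuous fun x => (Fs f U (t - 1) x : ℂ) :=
        Complex.continuous_ofReal.comp (Fs_cont hf (by linarith))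
      have c2 : Continuous fun x => (Fs f U t x : ℂ) :=
        Complex.continuous_ofReal.comp (Fs_cont hf (by linarith))
      have c3 : Continuous (dg i V) := by
        unfold dg
        exact (hVs.continuous_fderiv (by simp)).clm_apply continuous_const
      exact (((continuous_const.mul c1).mul (ev_smooth _).continuous).mul hVs.continuous).add
        (c2.mul c3)
    · rw [hΨ]
      simp only
      rw [hVC x hx, mul_zero]
    · rw [hΨ']
      simp only
      rw [hVC x hx, hdVC x hx, mul_zero, mul_zero, add_zero]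
    · rw [hΨ]
      simp only
      rw [hV0 x hx, mul_zero]
  -- the sum over the sectors
  have hpd : ∀ k x, (ζ k i)⁻¹ * ev x (cx (pderiv i f)) = ev x (sc (ζ k) (cx (pderiv i f))) := by
    intro k x
    have h1 : cx (pderiv i f) = C (ζ k i) * sc (ζ k) (cx (pderiv i f)) := by
      rw [← pderiv_cx, ← pderiv_sc, hi k]
    conv_lhs => rw [h1]
    rw [map_mul, ev_C, ← mul_assoc, inv_mul_cancel₀ (hz k i), one_mul]
  have hm := TS_mulS ((t : ℂ) • cx (pderiv i f)) hg
  have hd := TS_dz ha hS.one i hg
  have h1 : ∫ x in Pos n, Ψ' x = PT f U (t - 1) (mulS ζ ((t : ℂ) • cx (pderiv i f)) g) +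
      PT f U t (dz ζ i g) := by
    unfold PT
    rw [← Finset.sum_add_distrib]
    have e1 : ∀ k ∈ (Finset.univ : Finset κ), (∫ x in Pos n, (Fs f U (t - 1) x : ℂ) *
        mulS ζ ((t : ℂ) • cx (pderiv i f)) g k x) + ∫ x in Pos n, (Fs f U t x : ℂ) *
        dz ζ i g k x = ∫ x in Pos n, ((Fs f U (t - 1) x : ℂ) *
        mulS ζ ((t : ℂ) • cx (pderiv i f)) g k x + (Fs f U t x : ℂ) * dz ζ i g k x) := by
      intro k _
      exact (integral_add (PT_int hf ha hK (by linarith) hm k).integrableOn
        (PT_int hf ha hK (by linarith) hd k).integrableOn).symm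
    rw [Finset.sum_congr rfl e1, ← integral_finsetSum]
    · refine integral_congr_ae (Eventually.of_forall fun x => ?_)
      simp only [hΨ', hV]
      rw [hdV, Finset.mul_sum, Finset.mul_sum, ← Finset.sum_add_distrib]
      refine Finset.sum_congr rfl fun k _ => ?_
      congr 1
      unfold mulS
      rw [map_smul, map_smul, smul_eq_mul, ← hpd k x]
      ring
    · intro k _
      exact (PT_int hf ha hK (by linarith) hm k).integrableOn.add
        (PT_int hf ha hK (by linarith) hd k).integrableOn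
  rw [key] at h1
  linear_combination -h1

end Pool.Agent.T6.H16.RA
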